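import Pool.Agent.Run7.h612.SY.RatMain

/-!
**The base locus of the multiples of an isotropic movable divisor.**
-/

set_option autoImplicit false
set_option linter.overlappingInstances false
set_option linter.unusedSectionVars false

open FF Module Pool.Agent.W602.GT Pool.Agent.Y172 Pool.Agent.R887 Pool.Agent.N110
  Pool.Agent.Run7.h701
open Run7.h612.AB (GeQ KSec ISet IField KGe)

namespace Run7.h612.SY

/-- The centre of the place `R` on `X` is contained in the base locus of the linear system `|D|`: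
for every section `g ≠ 0` of `D` there is a prime divisor `P` in the support of `div g + D` which
contains the centre of `R`. -/
def InBaseLocus {K : Type} [Field K] [Algebra ℂ K] {N : ℕ} (y : Fin (N + 1) → K)
    (D : Place ℂ K → ℚ) (R : Place ℂ K) : Prop :=
  ∀ g : K, g ≠ 0 → IsSectionOf y D g →
    ∃ P, IsPrimeDivisor y P ∧ Through y P R ∧ -(D P) < (P.ord g : ℚ)

/-- The linear system `|D|` has no fixed components (and is not empty). -/
def NoFixedComponent {K : Type} [Field K] [Algebra ℂ K] {N : ℕ} (y : Fin (N + 1) → K)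
    (D : Place ℂ K → ℚ) : Prop :=
  ∀ P, IsPrimeDivisor y P → ¬ InBaseLocus y D P

variable {K : Type} [Field K] [Algebra ℂ K] {N ρ n : ℕ} {y : Fin (N + 1) → K}
  {c : Place ℂ K → Fin ρ → ℚ} {b : LinearMap.BilinForm ℚ (Fin ρ → ℚ)} {T : Place ℂ K → ℚ}
  {br : K → K → K}

/-- two sections of a multiple of `T` without common zeros in codimension one -/
theorem exists_pair (hy : NormalModel y) (hb : HK.IsBBForm y c b) (hT : IsDivisor y T)
    (hmov : ∀ P, IsPrimeDivisor y P → 0 ≤ b (cls y c T) (c P))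
    (hne : cls y c T ≠ 0) (hiso : b (cls y c T) (cls y c T) = 0) {f : K}
    (hf : Transcendental ℂ f) (h0 : b (cls y c T) (cls y c (HK.polar f)) = 0) :
    ∃ (m k : ℕ) (s s' : K), 1 ≤ m ∧ s ≠ 0 ∧ s' ≠ 0 ∧
      (∀ P, IsPrimeDivisor y P → (P.ord s : ℚ) = -(m * T P) + k * HK.polar f P) ∧
      (∀ P, IsPrimeDivisor y P → (P.ord s' : ℚ) = -(m * T P) + k * HK.zeros f P) := by
  have hf0 : f ≠ 0 := by
    rintro rfl
    exact hf isAlgebraic_zero
  obtain ⟨α, hα, hcl⟩ := HK.polar_mult hy hb hne hiso hmov hf h0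
  obtain ⟨M, hM, g, hg, hgE⟩ := HK.exists_sec hb hT (HK.polar_eff hy hf0) hcl
  obtain ⟨p, hp⟩ : ∃ p : ℕ, α.num = p := ⟨α.num.toNat, by
    have := Rat.num_pos.2 hα
    omega⟩
  have hp1 : 1 ≤ p := by
    have h5 := Rat.num_pos.2 hα
    rw [hp] at h5
    exact_mod_cast h5
  have h1 : ∀ P, IsPrimeDivisor y P →
      (P.ord g : ℚ) = -((M * p : ℕ) * T P) + (M * α.den : ℕ) * HK.polar f P := by
    intro P hP
    rw [hgE P hP, hp]
    push_cast
    ring
  refine ⟨M * p, M * α.den, g, g * f ^ (M * α.den), Nat.mul_pos hM hp1, hg,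
    mul_ne_zero hg (pow_ne_zero _ hf0), h1, fun P hP => ?_⟩
  rw [P.ord_mul hg (pow_ne_zero _ hf0), P.ord_pow]
  have h2 := HK.zeros_sub_polar f P
  have h3 := h1 P hP
  push_cast at h3 ⊢
  rw [h3, ← h2]
  ring

/-- zeros and poles of a function with isotropic polar divisor are orthogonal -/
theorem orth_zeros_polar (hy : NormalModel y) (hb : HK.IsBBForm y c b) {f : K} (hf0 : f ≠ 0)
    (hiso : b (cls y c (HK.polar f)) (cls y c (HK.polar f)) = 0) {P Q : Place ℂ K}
    (hP : IsPrimeDivisor y P) (hQ : IsPrimeDivisor y Q) (hPf : HK.polar f P ≠ 0)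
    (hQf : HK.zeros f Q ≠ 0) : P ≠ Q ∧ b (c P) (c Q) = 0 := by
  have hPQ : ∀ P : Place ℂ K, HK.polar f P ≠ 0 → P ≠ Q := by
    rintro P hPf rfl
    rcases HK.polar_zeros f P with h | h
    · exact hPf h
    · exact hQf h
  have h1 : b (cls y c (HK.polar f)) (c Q) = 0 := by
    refine HK.pair_zero (HK.zeros_eff hy hf0) (fun P hP => polar_movable hy hb hf0 hP) ?_ hQ hQf
    rw [HK.cls_zeros hy hb hf0]
    exact hiso
  refine ⟨hPQ P hPf, ?_⟩
  rw [hb.symm]
  refine pair_zero' (HK.polar_eff hy hf0) (fun P' hP' h2 => ?_) ?_ hP hPf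
  · rw [hb.symm]
    exact hb.prime P' Q hP' hQ (hPQ P' h2)
  · rw [hb.symm]
    exact h1

theorem iso_of_orth (hy : NormalModel y) (hb : HK.IsBBForm y c b)
    (hmov : ∀ P, IsPrimeDivisor y P → 0 ≤ b (cls y c T) (c P))
    (hne : cls y c T ≠ 0) (hiso : b (cls y c T) (cls y c T) = 0) {f : K}
    (hf : Transcendental ℂ f) (h0 : b (cls y c T) (cls y c (HK.polar f)) = 0) :
    b (cls y c (HK.polar f)) (cls y c (HK.polar f)) = 0 := by
  obtain ⟨α, -, hcl⟩ := HK.polar_mult hy hb hne hiso hmov hf h0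
  rw [hcl, map_smul, map_smul, LinearMap.smul_apply, hiso, smul_zero, smul_zero]

theorem exists_transc_of_kappa {k : ℕ} (hk : 1 ≤ k) (h : SY.IitakaGe y T k) :
    ∃ f ∈ IField y T, Transcendental ℂ f := by
  rw [iitaka_iff] at h
  obtain ⟨m, hm, g, hg, hg0, hind⟩ := h
  exact ⟨_, AB.adjoin_le_IField _ (IntermediateField.subset_adjoin _ _
    ⟨m, hm, g (Fin.succ ⟨0, hk⟩), g 0, hg0, hg _, hg _, rfl⟩), hind.transcendental ⟨0, hk⟩⟩

theorem eq_of_through {P Q : Place ℂ K} (hQ : IsPrimeDivisor y Q) (h : Through y P Q) : Q = P :=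
  FF.Place.eq_of_le Q P fun f hf h1 => (P.reg_iff hf).1 (h f (hQ f (Or.inr h1)))

theorem through_self (P : Place ℂ K) : Through y P P := by
  rintro f ⟨j, hj, a, ha, d, hd, hd0, hdo, h⟩
  exact Pool.Agent.Y172.localRing_reg ⟨j, hj, a, ha, d, hd, hd0, hdo, h⟩

theorem smul_apply' (m : ℕ) (P : Place ℂ K) : (m • T) P = m * T P := by
  rw [Pi.smul_apply, nsmul_eq_mul]

/-- **The base locus of a suitable multiple of an isotropic movable divisor.** -/
theorem base_locus (hy : NormalModel y) (hb : HK.IsBBForm y c b) (hT : IsDivisor y T)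
    (hmov : ∀ P, IsPrimeDivisor y P → 0 ≤ b (cls y c T) (c P))
    (hne : cls y c T ≠ 0) (hiso : b (cls y c T) (cls y c T) = 0) (hk : SY.IitakaGe y T 1) :
    ∃ m : ℕ, 1 ≤ m ∧ ∀ R : Place ℂ K, InBaseLocus y (m • T) R →
      ∃ P Q, IsPrimeDivisor y P ∧ IsPrimeDivisor y Q ∧ P ≠ Q ∧ Through y P R ∧ Through y Q R ∧
        b (c P) (c Q) = 0 := by
  obtain ⟨f, hfE, hf⟩ := exists_transc_of_kappa (le_refl 1) hk
  have hf0 : f ≠ 0 := by
    rintro rfl
    exact hf isAlgebraic_zero
  have h0 := (mem_IField_iff hy hb hT hmov hne hiso f).1 hfE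
  obtain ⟨m, k, s, s', hm, hs, hs', h1, h2⟩ := exists_pair hy hb hT hmov hne hiso hf h0
  have h3 := iso_of_orth hy hb hmov hne hiso hf h0
  have hpos : ∀ P, 0 ≤ HK.polar f P := fun P => le_max_right _ _
  have hzer : ∀ P, 0 ≤ HK.zeros f P := fun P => le_max_right _ _
  refine ⟨m, hm, fun R hR => ?_⟩
  obtain ⟨P, hP, hPR, hPs⟩ := hR s hs fun P hP => by
    right
    rw [smul_apply', h1 P hP]
    have := mul_nonneg (show (0 : ℚ) ≤ k from Nat.cast_nonneg _) (hpos P)
    linarith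
  obtain ⟨Q, hQ, hQR, hQs⟩ := hR s' hs' fun P hP => by
    right
    rw [smul_apply', h2 P hP]
    have := mul_nonneg (show (0 : ℚ) ≤ k from Nat.cast_nonneg _) (hzer P)
    linarith
  have hPf : HK.polar f P ≠ 0 := by
    intro h
    rw [smul_apply', h1 P hP, h, mul_zero, add_zero] at hPs
    exact lt_irrefl _ hPs
  have hQf : HK.zeros f Q ≠ 0 := by
    intro h
    rw [smul_apply', h2 Q hQ, h, mul_zero, add_zero] at hQs
    exact lt_irrefl _ hQs
  obtain ⟨h4, h5⟩ := orth_zeros_polar hy hb hf0 h3 hP hQ hPf hQf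
  exact ⟨P, Q, hP, hQ, h4, hPR, hQR, h5⟩

/-- sections of a divisor of Iitaka dimension zero are proportional -/
theorem const_mul_of_kappa {m : ℕ} (hm : 1 ≤ m) (hk : ¬ SY.IitakaGe y T 1) {g g' : K}
    (hg0 : g ≠ 0) (hg : IsSectionOf y (m • T) g) (hg' : IsSectionOf y (m • T) g') :
    ∃ a : ℂ, g' = algebraMap ℂ K a * g := by
  have h1 : IsAlgebraic ℂ (g' / g) := by
    by_contra h
    apply hk
    refine ⟨m, hm, ![g, g'], fun i => ?_, hg0, ?_⟩
    · refine Fin.cases hg (fun i => ?_) i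
      rw [Subsingleton.elim i 0]
      exact hg'
    · have h2 : (fun i : Fin 1 => (![g, g'] : Fin 2 → K) i.succ / (![g, g'] : Fin 2 → K) 0) =
          fun _ => g' / g := by
        funext i
        rw [Subsingleton.elim i 0]
        rfl
      rw [h2, algebraicIndependent_unique_type_iff]
      exact h
  have h2 : g' / g ∈ (⊥ : IntermediateField ℂ K) := by
    rw [IntermediateField.mem_bot]
    exact minpoly.mem_range_of_degree_eq_one ℂ _ (IsAlgClosed.degree_eq_one_of_irreducible ℂ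
      (minpoly.irreducible h1.isIntegral))
  rw [IntermediateField.mem_bot] at h2
  obtain ⟨a, ha⟩ := h2
  exact ⟨a, by rw [ha, div_mul_cancel₀ _ hg0]⟩

/-- **The Iitaka dimension and the fixed components.** -/
theorem kappa_of_noFixed (hb : HK.IsBBForm y c b) (hT : IsDivisor y T) (hne : cls y c T ≠ 0)
    {m : ℕ} (hm : 1 ≤ m) (hF : NoFixedComponent y (m • T)) : SY.IitakaGe y T 1 := by
  classical
  by_contra hk
  have h1 : ∀ P, IsPrimeDivisor y P → ∃ g : K, g ≠ 0 ∧ IsSectionOf y (m • T) g ∧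
      (P.ord g : ℚ) = -(m * T P) := by
    intro P hP
    have h2 := hF P hP
    unfold InBaseLocus at h2
    push Not at h2
    obtain ⟨g, hg0, hg, h3⟩ := h2
    refine ⟨g, hg0, hg, le_antisymm ?_ ?_⟩
    · have h4 := h3 P hP (through_self P)
      rwa [smul_apply'] at h4
    · have h4 := (hg P hP).resolve_left hg0
      rwa [smul_apply'] at h4
  by_cases hex : ∃ P : Place ℂ K, IsPrimeDivisor y P
  · obtain ⟨P0, hP0⟩ := hex
    obtain ⟨g0, hg0, hs, -⟩ := h1 P0 hP0
    have h2 : ∀ P, IsPrimeDivisor y P → (P.ord g0 : ℚ) = -(m * T P) := by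
      intro P hP
      obtain ⟨g, hg, hgs, hgo⟩ := h1 P hP
      obtain ⟨a, ha⟩ := const_mul_of_kappa hm hk hg0 hs hgs
      have ha0 : a ≠ 0 := by
        rintro rfl
        rw [map_zero, zero_mul] at ha
        exact hg ha
      have h3 : P.ord g = P.ord g0 := by
        rw [ha, P.ord_mul ((map_ne_zero _).2 ha0) hg0, P.ord_const ha0, zero_add]
      rw [← hgo, h3]
    have h3 : cls y c (fun P => (P.ord g0 : ℚ)) = cls y c (fun P => (-(m : ℚ)) * T P) := by
      unfold cls
      refine finsum_mem_congr rfl fun P hP => ?_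
      change (P.ord g0 : ℚ) • c P = (-(m : ℚ) * T P) • c P
      rw [h2 P hP, neg_mul]
    rw [hb.classes.principal g0 hg0, Pool.Agent.N110.NV.cls_smul] at h3
    have hm0 : (-(m : ℚ)) ≠ 0 := by
      have : (m : ℚ) ≠ 0 := by exact_mod_cast (by omega : m ≠ 0)
      exact neg_ne_zero.2 this
    exact hne ((smul_eq_zero.1 h3.symm).resolve_left hm0)
  · apply hne
    unfold cls
    have h2 : {P : Place ℂ K | IsPrimeDivisor y P} = ∅ := by
      rw [Set.eq_empty_iff_forall_notMem]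
      exact fun P hP => hex ⟨P, hP⟩
    have h3 : ∀ P : Place ℂ K, ¬ IsPrimeDivisor y P := fun P hP => hex ⟨P, hP⟩
    simp [h3]

/-- **The main theorem on the base locus.** -/
theorem base_main (hy : NormalModel y) (hb : HK.IsBBForm y c b) (hT : IsDivisor y T)
    (hmov : ∀ P, IsPrimeDivisor y P → 0 ≤ b (cls y c T) (c P))
    (hne : cls y c T ≠ 0) (hiso : b (cls y c T) (cls y c T) = 0) (hk : SY.IitakaGe y T 1) :
    ∃ m : ℕ, 1 ≤ m ∧ NoFixedComponent y (m • T) ∧
      ∀ (n : ℕ) (br : K → K → K), IsSymplecticForm y n br c b →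
        ∀ R : Place ℂ K, InBaseLocus y (m • T) R → CentreDimGe y R (n - 2) →
          CoisotropicCentre br y R := by
  obtain ⟨m, hm, h1⟩ := base_locus hy hb hT hmov hne hiso hk
  refine ⟨m, hm, fun R hR hB => ?_, fun n br hs R hR hd => ?_⟩
  · obtain ⟨P, Q, -, -, hne', hPR, hQR, -⟩ := h1 R hB
    exact hne' ((eq_of_through hR hPR).symm.trans (eq_of_through hR hQR))
  · obtain ⟨P, Q, hP, hQ, hne', hPR, hQR, h0⟩ := h1 R hR
    exact hs.coisotropic P Q hP hQ hne' h0 R hPR hQR hd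

end Run7.h612.SY
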