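import Pool.Agent.Run7.h612.SY.Half

/-!
**The field of the Iitaka fibration of a divisor which is not big consists of functions with
isotropic polar divisors.**
-/

set_option autoImplicit false
set_option linter.overlappingInstances false
set_option linter.unusedSectionVars false

open FF Module Pool.Agent.W602.GT Pool.Agent.Y172 Pool.Agent.R887 Pool.Agent.N110
  Pool.Agent.Run7.h701

namespace Run7.h612.SY

variable {K : Type} [Field K] [Algebra ℂ K] {N ρ n : ℕ} {y : Fin (N + 1) → K}
  {c : Place ℂ K → Fin ρ → ℚ} {b : LinearMap.BilinForm ℚ (Fin ρ → ℚ)} {T : Place ℂ K → ℚ}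
  {br : K → K → K}

theorem reg_sum {P : Place ℂ K} {ι : Type} {s : Finset ι} {a : ι → K}
    (h : ∀ i ∈ s, P.Reg (a i)) : P.Reg (∑ i ∈ s, a i) := by
  classical
  induction s using Finset.induction_on with
  | empty =>
    rw [Finset.sum_empty]
    exact P.reg_zero
  | insert i s hi ih =>
    rw [Finset.sum_insert hi]
    exact P.reg_add (h i (Finset.mem_insert_self _ _)) (ih fun l hl =>
      h l (Finset.mem_insert_of_mem hl))

theorem reg_pow {P : Place ℂ K} {a : K} (h : P.Reg a) (m : ℕ) : P.Reg (a ^ m) := by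
  induction m with
  | zero =>
    rw [pow_zero]
    exact P.reg_one
  | succ m ih =>
    rw [pow_succ]
    exact P.reg_mul ih h

/-- the poles of an algebraic function are poles of the coefficients of its equation -/
theorem reg_of_coeff {S : IntermediateField ℂ K} {f : K} (hf : IsAlgebraic S f) {P : Place ℂ K}
    (h : ∀ x ∈ S, (∃ i, x = ((minpoly S f).coeff i : K)) → P.Reg x) : P.Reg f := by
  by_cases hf0 : f = 0
  · exact Or.inl hf0
  by_contra hcon
  have hord : P.ord f < 0 := by
    by_contra h1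
    exact hcon (Or.inr (not_lt.1 h1))
  have hinv : P.Reg f⁻¹ := by
    right
    rw [P.ord_inv]
    omega
  obtain ⟨d, hd⟩ : ∃ d, d = (minpoly S f).natDegree := ⟨_, rfl⟩
  have hmon : (minpoly S f).Monic := minpoly.monic hf.isIntegral
  have hd0 : 0 < d := by
    rw [hd]
    exact minpoly.natDegree_pos hf.isIntegral
  have h1 := minpoly.aeval S f
  rw [Polynomial.aeval_eq_sum_range, ← hd, Finset.sum_range_succ] at h1
  have h2 : (minpoly S f).coeff d = 1 := by
    rw [hd]
    exact hmon.coeff_natDegree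
  rw [h2, one_smul] at h1
  have h3 : f ^ d = f ^ (d - 1) * f := by
    rw [← pow_succ, Nat.sub_add_cancel hd0]
  have h4 : f = -∑ i ∈ Finset.range d, ((minpoly S f).coeff i : K) * (f⁻¹) ^ (d - 1 - i) := by
    have h5 : f ^ (d - 1) ≠ 0 := pow_ne_zero _ hf0
    apply mul_left_cancel₀ h5
    rw [← h3, mul_neg, Finset.mul_sum]
    have h6 : ∑ i ∈ Finset.range d, f ^ (d - 1) * (((minpoly S f).coeff i : K) *
        (f⁻¹) ^ (d - 1 - i)) = ∑ i ∈ Finset.range d, (minpoly S f).coeff i • f ^ i := by
      refine Finset.sum_congr rfl fun i hi => ?_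
      have h7 : i ≤ d - 1 := by
        have := Finset.mem_range.1 hi
        omega
      have h8 : f ^ (d - 1) = f ^ i * f ^ (d - 1 - i) := by
        rw [← pow_add]
        congr 1
        omega
      rw [h8, inv_pow, Algebra.smul_def]
      have h9 : f ^ (d - 1 - i) ≠ 0 := pow_ne_zero _ hf0
      rw [show algebraMap S K ((minpoly S f).coeff i) = ((minpoly S f).coeff i : K) from rfl]
      field_simp
    rw [h6]
    exact eq_neg_of_add_eq_zero_right h1
  apply hcon
  rw [h4]
  exact P.reg_neg (reg_sum fun i _ => P.reg_mul (h _ ((minpoly S f).coeff i).2 ⟨i, rfl⟩)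
    (reg_pow hinv _))

/-- constants have no poles -/
theorem cls_polar_alg {z : K} (hz : IsAlgebraic ℂ z) : cls y c (HK.polar z) = 0 := by
  have h1 : HK.polar z = fun _ => 0 := by
    funext P
    unfold HK.polar
    by_cases hz0 : z = 0
    · rw [hz0, P.ord_zero]
      simp
    · rw [P.ord_eq_zero_of_isAlgebraic hz0 hz]
      simp
  rw [h1]
  unfold cls
  simp

/-- a function algebraic over a field of functions with isotropic polar divisors has an isotropic
polar divisor -/
theorem iso_alg (hy : NormalModel y) (hb : HK.IsBBForm y c b) {S : IntermediateField ℂ K}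
    (hS : ∀ f ∈ S, b (cls y c (HK.polar f)) (cls y c (HK.polar f)) = 0) {f : K}
    (hf : IsAlgebraic S f) : b (cls y c (HK.polar f)) (cls y c (HK.polar f)) = 0 := by
  by_cases hft : IsAlgebraic ℂ f
  · rw [cls_polar_alg hft, map_zero]
  have hf0 : f ≠ 0 := by
    rintro rfl
    exact hft isAlgebraic_zero
  obtain ⟨z, hz, hzt⟩ : ∃ z ∈ S, Transcendental ℂ z := by
    by_contra hcon
    push Not at hcon
    apply hft
    have h2 : Algebra.IsAlgebraic ℂ S := ⟨fun x => by
      have h3 : IsAlgebraic ℂ (x : K) := by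
        by_contra h
        exact hcon x x.2 h
      exact (isAlgebraic_algebraMap_iff (A := K) S.val.injective).1 h3⟩
    exact hf.restrictScalars ℂ
  refine le_antisymm ?_ (HK.polar_sq hy hb hf0)
  have hz0 : z ≠ 0 := by
    rintro rfl
    exact hzt isAlgebraic_zero
  refine (HK.hodge hb (cls_polar_ne hy hb hzt) (hS z hz) ?_).1
  refine HK.pair_eq_zero (HK.polar_eff hy hf0).2 fun P hP hP0 => ?_
  by_contra hne
  apply hP0
  have h1 : P.Reg f := reg_of_coeff hf fun x hx _ => by
    by_contra hcon
    apply hne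
    have hx0 : x ≠ 0 := fun h => hcon (Or.inl h)
    refine HK.pair_zero (HK.polar_eff hy hx0) (fun Q hQ => polar_movable hy hb hz0 hQ)
      (pair_field hy hb hS hz hx) hP ?_
    have h2 : P.ord x < 0 := by
      by_contra h3
      exact hcon (Or.inr (not_lt.1 h3))
    unfold HK.polar
    have h3 : (P.ord x : ℚ) < 0 := by exact_mod_cast h2
    rw [max_eq_left (by linarith)]
    linarith
  unfold HK.polar
  have h3 : (0 : ℚ) ≤ P.ord f := by exact_mod_cast h1.resolve_left hf0
  exact max_eq_right (by linarith)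

/-- sections of multiples of the polar divisor of a quotient of sections -/
theorem ksec_polar {m : ℕ} {s t : K} (ht0 : t ≠ 0) (hs : AB.KSec y T m s)
    (ht : AB.KSec y T m t) {q : ℕ} {h : K} (hh : AB.KSec y (HK.polar (s / t)) q h) :
    AB.KSec y T (q * m) (h * t ^ q) := by
  have hpol : ∀ P, IsPrimeDivisor y P → HK.polar (s / t) P ≤ P.ord t + m * T P := by
    intro P hP
    unfold HK.polar
    have h1 := (ht P hP).resolve_left ht0
    refine max_le ?_ (by linarith)
    by_cases hs0 : s = 0
    · rw [hs0, zero_div, P.ord_zero]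
      simp only [Int.cast_zero, neg_zero]
      linarith
    · rw [P.ord_div hs0 ht0]
      have h2 := (hs P hP).resolve_left hs0
      push_cast
      linarith
  intro P hP
  rcases hh P hP with h3 | h3
  · exact Or.inl (by rw [h3, zero_mul])
  · by_cases hh0 : h = 0
    · exact Or.inl (by rw [hh0, zero_mul])
    right
    rw [P.ord_mul hh0 (pow_ne_zero _ ht0), P.ord_pow]
    have h4 := mul_le_mul_of_nonneg_left (hpol P hP) (show (0 : ℚ) ≤ q from Nat.cast_nonneg _)
    push_cast
    linarith

theorem iso_adjoin (hy : NormalModel y) (hb : IsSymplecticForm y n br c b)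
    (hnb : ¬ SY.IitakaGe y T n) {f : K} (hf : f ∈ IntermediateField.adjoin ℂ (AB.ISet y T)) :
    b (cls y c (HK.polar f)) (cls y c (HK.polar f)) = 0 := by
  by_cases hf0 : f = 0
  · rw [hf0, cls_polar_alg isAlgebraic_zero, map_zero]
  by_contra hne
  have hpos : 0 < b (cls y c (HK.polar f)) (cls y c (HK.polar f)) :=
    lt_of_le_of_ne (HK.polar_sq hy hb.form hf0) (Ne.symm hne)
  have hbig := hb.big f hpos
  by_cases h0 : ∃ (m : ℕ) (g : K), 1 ≤ m ∧ g ≠ 0 ∧ AB.KSec y T m g
  · obtain ⟨m0, g0, hm0, hg0, hs⟩ := h0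
    obtain ⟨m, hm, s, t, ht0, h1, h2, rfl⟩ := mem_ISet_of_adjoin hm0 hg0 hs hf
    apply hnb
    rw [iitaka_iff] at hbig ⊢
    obtain ⟨q, hq, g, hg, hg00, hind⟩ := hbig
    refine ⟨q * m, Nat.mul_pos hq hm, fun i => g i * t ^ q, fun i => ksec_polar ht0 h1 h2 (hg i),
      mul_ne_zero hg00 (pow_ne_zero _ ht0), ?_⟩
    have h3 : (fun i : Fin n => g i.succ * t ^ q / (g 0 * t ^ q)) =
        fun i : Fin n => g i.succ / g 0 := by
      funext i
      exact mul_div_mul_right _ _ (pow_ne_zero _ ht0)
    rw [h3]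
    exact hind
  · have h1 : AB.ISet y T = ∅ := by
      rw [Set.eq_empty_iff_forall_notMem]
      rintro z ⟨m, hm, g, g', hg', -, h2, -⟩
      exact h0 ⟨m, g', hm, hg', h2⟩
    rw [h1, IntermediateField.adjoin_empty, IntermediateField.mem_bot] at hf
    obtain ⟨a, rfl⟩ := hf
    exact hne (by
      rw [cls_polar_alg (isAlgebraic_algebraMap a), map_zero])

/-- **The polar divisors of the functions on the base of the Iitaka fibration of a divisor which is
not big.** -/
theorem iso_of_not_big (hy : NormalModel y) (hb : IsSymplecticForm y n br c b)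
    (hnb : ¬ SY.IitakaGe y T n) {f : K} (hf : f ∈ AB.IField y T) :
    b (cls y c (HK.polar f)) (cls y c (HK.polar f)) = 0 :=
  iso_alg hy hb.form (fun _ hx => iso_adjoin hy hb hnb hx) (AB.mem_IField.1 hf)

/-- the Iitaka dimension of a divisor with commutative field -/
theorem two_mul_iitaka (hbr : IsPoisson y br) (hnd : Nondegenerate n br)
    (hE : ∀ f ∈ AB.IField y T, ∀ g ∈ AB.IField y T, br f g = 0) {k : ℕ}
    (hk : SY.IitakaGe y T k) : 2 * k ≤ n := by
  rw [iitaka_iff] at hk
  obtain ⟨m, hm, g, hg, hg0, hind⟩ := hk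
  have h1 : ∀ i : Fin k, g i.succ / g 0 ∈ AB.IField y T := fun i =>
    AB.adjoin_le_IField _ (IntermediateField.subset_adjoin _ _
      ⟨m, hm, g i.succ, g 0, hg0, hg _, hg _, rfl⟩)
  exact two_mul_le hbr hnd hind fun i j => hE _ (h1 i) _ (h1 j)

end Run7.h612.SY
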