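import Pool.Agent.Run7.h612.SY.Deg

/-!
The number of the sections of the pull back of a divisor on a covering.
-/

set_option autoImplicit false
set_option linter.overlappingInstances false
set_option linter.unusedSectionVars false

open FF Module Pool.Agent.W602.GT Pool.Agent.W603.LV Pool.Agent.W619.PQ
open Pool.Agent.Y172 Pool.Agent.Y191 Pool.Agent.R887
open Pool.Agent.N110 (affS)
open Run7.h612.AB (CSec fibreDegree fibreDegree_le fibreDegree_pos cover_ineq quot_alg trdeg_closure
  IField ISet KSec KGe adjoin_le_IField finrank_bound equation liesOver_iff baseDegree)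

namespace Run7.h612.SY

variable {K L : Type} [Field K] [Algebra ℂ K] [Field L] [Algebra ℂ L]
  [Algebra K L] [IsScalarTower ℂ K L] [FiniteDimensional K L] {N : ℕ} {y : Fin (N + 1) → K} {n : ℕ}

/-- the inequality for independent sections -/
theorem card_leT (hy : NormalModel y) (hn : Algebra.trdeg ℂ K = n) {T : Place ℂ K → ℚ}
    {i : Fin (N + 1)}
    (hi : y i ≠ 0) {m : ℕ} (hm : 1 ≤ m) {b : ℝ} (hb1 : 1 ≤ b) {k : ℕ}
    (hk : Algebra.trdeg ℂ (IntermediateField.adjoin ℂ (ISet y T)) ≤ k)
    (hB : ∀ j, 1 ≤ j → j ≤ k → j ≤ n → ∀ (u : Fin (n - j) → K),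
      (∀ a, u a ∈ Submodule.span ℂ (affS y i)) → ∀ h : Fin (j + 1) → L, (∀ i, h i ≠ 0) →
      (∀ i, CSec y T m (h i)) →
      (dg ℂ (Sum.elim (fun a => algebraMap K L (u a)) fun i : Fin j => h i.succ / h 0) : ℝ) ≤
        finrank K L * b)
    {ι : Type} [Fintype ι] {h : ι → L}
    (hhC : ∀ l, CSec y T m (h l)) (hhli : LinearIndependent ℂ h) :
    (Fintype.card ι * fibreDegree L (IField y T) : ℝ) ≤
      finrank K L * (k + b) := by
  classical
  have hh0 : ∀ l, h l ≠ 0 := fun l => hhli.ne_zero l
  have hd1 : (1 : ℝ) ≤ finrank K L := by exact_mod_cast finrank_pos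
  have hd0 : (0 : ℝ) ≤ finrank K L := by linarith
  have hed : (fibreDegree L (IField y T) : ℝ) ≤ finrank K L := by exact_mod_cast fibreDegree_le _
  have he0 : (0 : ℝ) ≤ fibreDegree L (IField y T) := Nat.cast_nonneg _
  have hk0 : (0 : ℝ) ≤ k := Nat.cast_nonneg _
  rcases isEmpty_or_nonempty ι with hemp | ⟨⟨o⟩⟩
  · rw [Fintype.card_eq_zero, Nat.cast_zero, zero_mul]
    positivity
  -- the field of the quotients
  have halg : ∀ l, IsAlgebraic (IntermediateField.adjoin ℂ (ISet y T)) (h l / h o) := fun l =>
    quot_alg hm (hh0 o) (hhC o) (Or.inr (hhC l))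
  obtain ⟨M, hM⟩ : ∃ M, M = IntermediateField.adjoin ℂ (Set.range fun l => h l / h o) := ⟨_, rfl⟩
  have hMle : M ≤ (algebraicClosure (IntermediateField.adjoin ℂ (ISet y T)) L).restrictScalars ℂ := by
    rw [hM, IntermediateField.adjoin_le_iff]
    rintro _ ⟨l, rfl⟩
    exact mem_algebraicClosure_iff.2 (halg l)
  have htrM : Algebra.trdeg ℂ M ≤ k := by
    have h1 := trdeg_le_of_injective (R := ℂ) (IntermediateField.inclusion hMle)
      (IntermediateField.inclusion hMle).injective
    have h2 : Algebra.trdeg ℂ ((algebraicClosure (IntermediateField.adjoin ℂ (ISet y T))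
        L).restrictScalars ℂ) = Algebra.trdeg ℂ (IntermediateField.adjoin ℂ (ISet y T)) :=
      trdeg_closure (L := L) (IntermediateField.adjoin ℂ (ISet y T))
    rw [h2] at h1
    exact h1.trans hk
  obtain ⟨j, hj⟩ : ∃ j : ℕ, Algebra.trdeg ℂ M = j := by
    have h1 : Algebra.trdeg ℂ M < Cardinal.aleph0 := lt_of_le_of_lt htrM Cardinal.natCast_lt_aleph0
    obtain ⟨j, hj⟩ := Cardinal.lt_aleph0.1 h1
    exact ⟨j, hj⟩
  have hjk : j ≤ k := by
    rw [hj] at htrM
    exact_mod_cast htrM
  rcases Nat.eq_zero_or_pos j with hj0 | hj1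
  · -- all quotients are constant
    have hcard : Fintype.card ι ≤ 1 := by
      rw [Fintype.card_le_one_iff]
      intro a a'
      by_contra hne
      have halgM : Algebra.IsAlgebraic ℂ M := by
        have h1 : Algebra.trdeg ℂ M = 0 := by rw [hj, hj0, Nat.cast_zero]
        exact trdeg_eq_zero_iff.1 h1
      have hcon : ∀ l, ∃ z : ℂ, algebraMap ℂ L z = h l / h o := by
        intro l
        have h1 : h l / h o ∈ M := by
          rw [hM]
          exact IntermediateField.subset_adjoin _ _ ⟨l, rfl⟩
        have h2 := halgM.isAlgebraic (⟨h l / h o, h1⟩ : M)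
        have h3 : IsAlgebraic ℂ (h l / h o) := by
          have h4 := h2.algHom M.val
          exact h4
        exact minpoly.mem_range_of_degree_eq_one ℂ _ (IsAlgClosed.degree_eq_one_of_irreducible ℂ
          (minpoly.irreducible h3.isIntegral))
      choose z hz using hcon
      have h1 : z a' • h a + (-z a) • h a' = 0 := by
        rw [Algebra.smul_def, Algebra.smul_def, map_neg, hz, hz]
        field_simp
        ring
      have h2 := Fintype.linearIndependent_iff.1 hhli
        (fun l => if l = a then z a' else if l = a' then -z a else 0) (by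
        have h3 : ∀ l, (if l = a then z a' else if l = a' then -z a else 0) • h l =
            (if l = a then z a' • h a else 0) + (if l = a' then (-z a) • h a' else 0) := by
          intro l
          by_cases h4 : l = a
          · subst h4
            rw [if_pos rfl, if_pos rfl, if_neg hne, add_zero]
          · rw [if_neg h4, if_neg h4, zero_add]
            by_cases h5 : l = a'
            · subst h5
              rw [if_pos rfl, if_pos rfl]
            · rw [if_neg h5, if_neg h5, zero_smul]
        simp_rw [h3]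
        rw [Finset.sum_add_distrib, Finset.sum_ite_eq' Finset.univ a, Finset.sum_ite_eq' Finset.univ a',
          if_pos (Finset.mem_univ _), if_pos (Finset.mem_univ _)]
        exact h1) a
      rw [if_pos rfl] at h2
      have h3 := hz a'
      rw [h2, map_zero] at h3
      exact div_ne_zero (hh0 a') (hh0 o) h3.symm
    have h1 : (Fintype.card ι : ℝ) ≤ 1 := by exact_mod_cast hcard
    calc (Fintype.card ι * fibreDegree L (IField y T) : ℝ) ≤ 1 * finrank K L :=
          mul_le_mul h1 hed he0 zero_le_one
      _ ≤ finrank K L * (k + b) := by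
          rw [one_mul]
          exact le_mul_of_one_le_right hd0 (by linarith)
  · -- the main case
    obtain ⟨Rf, hRf⟩ : ∃ Rf : IntermediateField K L,
      Rf = IntermediateField.adjoin K {z : L | IsAlgebraic (IField y T) z} := ⟨_, rfl⟩
    have hRq : ∀ l, h l / h o ∈ Rf.toSubfield := by
      intro l
      rw [hRf]
      refine IntermediateField.subset_adjoin _ _ ?_
      have h3 := halg l
      obtain ⟨P, hP, hPx⟩ := h3
      refine ⟨P.map (IntermediateField.inclusion (adjoin_le_IField T)).toRingHom, ?_, ?_⟩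
      · rwa [Ne, Polynomial.map_eq_zero_iff
          (IntermediateField.inclusion (adjoin_le_IField T)).injective]
      · rw [Polynomial.aeval_def, Polynomial.eval₂_map]
        exact hPx
    have h1 := cover_ineq (L := L) hy hn hi (T := T) (m := m) (B := finrank K L * b) hj1
      (fun h1 u hu g hg0 hg => hB j hj1 hjk h1 u hu g hg0 hg) hhli hhC (o := o)
      (R := Rf.toSubfield) (fun x => Rf.algebraMap_mem x) hRq (by rw [← hM]; exact hj)
    have h2 : finrank Rf.toSubfield L = fibreDegree L (IField y T) := by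
      unfold fibreDegree
      rw [← hRf]
      rfl
    rw [h2] at h1
    have h3 : (Fintype.card ι : ℝ) ≤ ((Fintype.card ι - j : ℕ) : ℝ) + k := by
      have h4 : Fintype.card ι ≤ (Fintype.card ι - j) + k := by omega
      exact_mod_cast h4
    calc (Fintype.card ι * fibreDegree L (IField y T) : ℝ)
        ≤ (((Fintype.card ι - j : ℕ) : ℝ) + k) * fibreDegree L (IField y T) :=
          mul_le_mul_of_nonneg_right h3 he0
      _ = ((Fintype.card ι - j : ℕ) : ℝ) * fibreDegree L (IField y T) +
          k * fibreDegree L (IField y T) := by ring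
      _ ≤ finrank K L * b + k * finrank K L :=
          add_le_add h1.2 (mul_le_mul_of_nonneg_left hed hk0)
      _ = finrank K L * (k + b) := by ring

theorem csec_of {T : Place ℂ K → ℚ} {m : ℕ} {h : L} (hh : IsCoverSection y T m h) (h0 : h ≠ 0) :
    CSec y T m h := by
  intro Q P e hov hP
  have h1 := (hh Q P e hP (liesOver_iff.2 hov)).resolve_left h0
  linarith

/-- the bound for the numbers of sections, from a bound for the degrees -/
theorem sections_le (hy : NormalModel y) (hn : Algebra.trdeg ℂ K = n) {T : Place ℂ K → ℚ}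
    {i : Fin (N + 1)}
    (hi : y i ≠ 0) {m : ℕ} (hm : 1 ≤ m) {b : ℝ} (hb1 : 1 ≤ b) {k : ℕ}
    (hk : Algebra.trdeg ℂ (IntermediateField.adjoin ℂ (ISet y T)) ≤ k)
    (hB : ∀ j, 1 ≤ j → j ≤ k → j ≤ n → ∀ (u : Fin (n - j) → K),
      (∀ a, u a ∈ Submodule.span ℂ (affS y i)) → ∀ h : Fin (j + 1) → L, (∀ i, h i ≠ 0) →
      (∀ i, CSec y T m (h i)) →
      (dg ℂ (Sum.elim (fun a => algebraMap K L (u a)) fun i : Fin j => h i.succ / h 0) : ℝ) ≤
        finrank K L * b) :
    Module.Finite ℂ (Submodule.span ℂ {h : L | IsCoverSection y T m h}) ∧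
    (coverSections L y T m * fibreDegree L (IField y T) : ℝ) ≤ finrank K L * (k + b) := by
  unfold coverSections
  refine finrank_bound (fibreDegree_pos _) fun r v hv hli => ?_
  have h1 := card_leT hy hn hi hm hb1 hk hB (h := v)
    (fun l => csec_of (hv l) (hli.ne_zero l)) hli
  rwa [Fintype.card_fin] at h1

/-- there are no sections on the coverings if there are none on the variety -/
theorem no_sectionsT {T : Place ℂ K → ℚ} (h0 : ¬ IitakaGe y T 0) {m : ℕ} (hm : 1 ≤ m)
    {h : L} (hh : IsCoverSection y T m h) : h = 0 := by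
  classical
  by_contra h1
  have h2 := csec_of hh h1
  obtain ⟨M, F, hM, hF0, -, hF⟩ := equation hm h1 h2 (Or.inr h2)
  refine h0 ⟨M, hM, fun _ => F.leadingCoeff, fun _ P hP => ?_,
    Polynomial.leadingCoeff_ne_zero.2 hF0, ?_⟩
  · have h3 := hF F.natDegree P hP
    rw [Pi.smul_apply, nsmul_eq_mul]
    exact h3
  · exact (algebraicIndependent_empty_type)

end Run7.h612.SY
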