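import Pool.Agent.Run7.h612.AB.Main1

/-!
Places whose centre is contained in the intersection of two general fibres.
-/

set_option autoImplicit false
set_option linter.overlappingInstances false
set_option linter.unusedSectionVars false

open FF Module Pool.Agent.W602.GT Pool.Agent.W603.LV Pool.Agent.W619.PQ
open Pool.Agent.Y172 Pool.Agent.Y191 Pool.Agent.R887
open Pool.Agent.N110 (affS)
open Run7.h612.AB

namespace Run7.h612.SY

section

variable {K : Type} [Field K] [Algebra ℂ K] {R : Place ℂ K}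

/-- zero or positive order -/
def Pos (R : Place ℂ K) (z : K) : Prop := z = 0 ∨ 0 < R.ord z

theorem Pos.add {a b : K} (ha : Pos R a) (hb : Pos R b) : Pos R (a + b) := by
  by_cases h1 : a = 0
  · rwa [h1, zero_add]
  by_cases h2 : b = 0
  · rwa [h2, add_zero]
  by_cases h3 : a + b = 0
  · exact Or.inl h3
  right
  have h4 := R.ord_add h1 h2 h3
  exact lt_of_lt_of_le (lt_min (ha.resolve_left h1) (hb.resolve_left h2)) h4

theorem Pos.neg {a : K} (ha : Pos R a) : Pos R (-a) := by
  rcases ha with h | h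
  · exact Or.inl (by rw [h, neg_zero])
  · exact Or.inr (by rwa [R.ord_neg])

theorem Pos.mul {a b : K} (ha : Pos R a) (hb : R.Reg b) : Pos R (b * a) := by
  by_cases h1 : a = 0
  · exact Or.inl (by rw [h1, mul_zero])
  by_cases h2 : b = 0
  · exact Or.inl (by rw [h2, zero_mul])
  right
  rw [R.ord_mul h2 h1]
  have h3 := ha.resolve_left h1
  have h4 := (R.reg_iff h2).1 hb
  omega

theorem ord_add_pos {a b : K} (ha : a ≠ 0) (ha0 : R.ord a = 0) (hb : Pos R b) :
    a + b ≠ 0 ∧ R.ord (a + b) = 0 := by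
  by_cases h2 : b = 0
  · rw [h2, add_zero]
    exact ⟨ha, ha0⟩
  have h3 := hb.resolve_left h2
  have h4 := R.ord_add_eq ha h2 (by rw [ha0]; exact h3)
  rw [ha0] at h4
  exact h4

/-- the order of an element which satisfies an equation whose extreme coefficients are units -/
theorem ord_zero_of_eq {x : K} (hx : x ≠ 0) {A : Subalgebra ℂ K} (hA : ∀ a ∈ A, R.Reg a)
    {P : Polynomial A} (hP0 : P ≠ 0) (hc : R.ord (P.coeff 0 : K) = 0) (hc0 : P.coeff 0 ≠ 0)
    (hl : R.ord (P.leadingCoeff : K) = 0) (hx0 : Polynomial.aeval x P = 0) : R.ord x = 0 := by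
  have hco : ∀ i, R.Reg (P.coeff i : K) := fun i => hA _ (P.coeff i).2
  have hc0' : (P.coeff 0 : K) ≠ 0 := fun h => hc0 (Subtype.ext h)
  have hl0 : (P.leadingCoeff : K) ≠ 0 := fun h =>
    (Polynomial.leadingCoeff_ne_zero.2 hP0) (Subtype.ext h)
  rw [Polynomial.aeval_eq_sum_range] at hx0
  have hsm : ∀ i, P.coeff i • x ^ i = (P.coeff i : K) * x ^ i := fun i => rfl
  simp only [hsm] at hx0
  rcases lt_trichotomy (R.ord x) 0 with h | h | h
  · -- a pole
    exfalso
    rw [Finset.sum_range_succ] at hx0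
    have h1 : ∀ i ∈ Finset.range P.natDegree, Pos R ((P.coeff i : K) * x ^ i / x ^ P.natDegree) := by
      intro i hi
      rw [Finset.mem_range] at hi
      have h2 : (P.coeff i : K) * x ^ i / x ^ P.natDegree = (P.coeff i : K) *
          (x⁻¹) ^ (P.natDegree - i) := by
        have h3 : x ^ P.natDegree = x ^ (P.natDegree - i) * x ^ i := by
          rw [← pow_add]
          congr 1
          omega
        rw [h3, inv_pow]
        field_simp
      rw [h2]
      refine Pos.mul ?_ (hco i)
      right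
      rw [R.ord_pow, R.ord_inv]
      have h4 : (0 : ℤ) < ((P.natDegree - i : ℕ) : ℤ) := by
        have : 0 < P.natDegree - i := by omega
        exact_mod_cast this
      exact mul_pos h4 (by omega)
    have h2 : Pos R (∑ i ∈ Finset.range P.natDegree, (P.coeff i : K) * x ^ i / x ^ P.natDegree) := by
      refine Finset.sum_induction _ (Pos R) (fun a b => Pos.add) (Or.inl rfl) h1
    have h3 : (P.leadingCoeff : K) + ∑ i ∈ Finset.range P.natDegree,
        (P.coeff i : K) * x ^ i / x ^ P.natDegree = 0 := by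
      rw [← Finset.sum_div]
      have h4 : x ^ P.natDegree ≠ 0 := pow_ne_zero _ hx
      have h5 : (P.leadingCoeff : K) = (P.coeff P.natDegree : K) := rfl
      rw [h5, eq_div_of_mul_eq h4 (rfl : (P.coeff P.natDegree : K) * x ^ P.natDegree = _),
        ← add_div, add_comm, hx0, zero_div]
    exact (ord_add_pos hl0 hl h2).1 h3
  · exact h
  · -- a zero
    exfalso
    rw [Finset.sum_range_succ'] at hx0
    have h2 : Pos R (∑ i ∈ Finset.range P.natDegree, (P.coeff (i + 1) : K) * x ^ (i + 1)) := by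
      refine Finset.sum_induction _ (Pos R) (fun a b => Pos.add) (Or.inl rfl) fun i _ => ?_
      refine Pos.mul ?_ (hco _)
      right
      rw [R.ord_pow]
      exact mul_pos (by exact_mod_cast Nat.succ_pos i) h
    rw [pow_zero, mul_one, add_comm] at hx0
    exact (ord_add_pos hc0' hc h2).1 hx0

end

variable {K : Type} [Field K] [Algebra ℂ K] {N : ℕ} {y : Fin (N + 1) → K} {n : ℕ}

theorem finite_of_alg (hy : NormalModel y) (A : Subfield K) (hA1 : ∀ c, algebraMap ℂ K c ∈ A)
    (hA2 : ∀ x : K, IsAlgebraic A x) : FiniteDimensional A K := by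
  obtain ⟨i, hi⟩ := hy.ne
  have hgen := hy.field i hi
  have h1 : IntermediateField.adjoin A (Set.range fun j => y j / y i) = ⊤ := by
    rw [eq_top_iff]
    intro x _
    have h2 : x ∈ (IntermediateField.adjoin ℂ (Set.range fun j => y j / y i)).toSubfield := by
      rw [hgen]
      trivial
    refine (Subfield.closure_le.2 ?_ :
      (IntermediateField.adjoin ℂ (Set.range fun j => y j / y i)).toSubfield ≤
        (IntermediateField.adjoin A (Set.range fun j => y j / y i)).toSubfield) h2
    rintro x (⟨c, rfl⟩ | hx)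
    · exact (IntermediateField.adjoin A (Set.range fun j => y j / y i)).algebraMap_mem ⟨_, hA1 c⟩
    · exact IntermediateField.subset_adjoin _ _ hx
  have h2 : FiniteDimensional A (IntermediateField.adjoin A (Set.range fun j => y j / y i)) :=
    IntermediateField.finiteDimensional_adjoin fun x _ => (hA2 x).isIntegral
  rw [h1] at h2
  exact IntermediateField.topEquiv.toLinearEquiv.finiteDimensional

/-- a place which is trivial on the algebraic closure of `ℂ (s)` and positive on `u` -/
theorem exists_place_clC (hy : NormalModel y) {s : Set K} {u : K} (hu : u ∉ clC s)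
    (hall : ∀ x : K, x ∈ ext (clC s) u) :
    ∃ R : Place ℂ K, 0 < R.ord u ∧ ∀ x ∈ clC s, x ≠ 0 → R.ord x = 0 := by
  have hcl : ∀ a, IsAlgebraic (clC s) a → a ∈ clC s := fun a ha => clC_closed ha
  have h1 : Transcendental (clC s) u := fun h => hu (hcl _ h)
  have hFF : FF.IsFF (clC s) K := by
    refine FF.IsFF.of_finite h1 ?_
    have h2 : FiniteDimensional (IntermediateField.adjoin (clC s) {u}).toSubfield K := by
      refine finite_of_alg hy _ (fun c => ?_) fun x => ?_
      · exact (IntermediateField.adjoin (clC s) {u}).algebraMap_mem ⟨_, range_le_clC s c⟩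
      · exact mem_ext.1 (hall x)
    exact h2
  have hchK : CharZero K := charZero_of_injective_algebraMap (algebraMap ℂ K).injective
  have hch : CharZero (clC s) := inferInstance
  have h3 : Transcendental (clC s) u⁻¹ := fun h => h1 (by
    have := h.inv
    rwa [inv_inv] at this)
  obtain ⟨P, hP⟩ := exists_pole (F := clC s) h3
  rw [P.ord_inv] at hP
  refine ⟨{ ord := P.ord
            ord_zero := P.ord_zero
            ord_mul := P.ord_mul
            ord_add := P.ord_add
            ord_const := fun {c} hc => ?_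
            surj := P.surj }, ?_, ?_⟩
  · have h4 : (⟨algebraMap ℂ K c, range_le_clC s c⟩ : clC s) ≠ 0 := by
      intro h
      have h5 := congrArg Subtype.val h
      exact hc ((map_eq_zero (algebraMap ℂ K)).1 h5)
    exact P.ord_const h4
  · change 0 < P.ord u
    omega
  · intro x hx hx0
    exact P.ord_const (c := (⟨x, hx⟩ : clC s)) (fun h => hx0 (congrArg Subtype.val h))

/-- **Places over the intersection of two general fibres.** -/
theorem exists_center (hy : NormalModel y) (hn : Algebra.trdeg ℂ K = n) {i : Fin (N + 1)}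
    (hi : y i ≠ 0) {f g : K} (hfg : AlgebraicIndependent ℂ ![f, g]) :
    ∃ t : Fin (n - 2) → K, (∀ a, t a ∈ affS y i) ∧ ∀ S : Finset K, (∀ x ∈ S, x ≠ 0) →
      ∃ (c c' : ℂ) (R : Place ℂ K), 0 < R.ord (f - algebraMap ℂ K c) ∧
        0 < R.ord (g - algebraMap ℂ K c') ∧
        (∀ p : MvPolynomial (Fin (n - 2)) ℂ, p ≠ 0 → MvPolynomial.aeval t p ≠ 0 ∧
          R.ord (MvPolynomial.aeval t p) = 0) ∧ ∀ x ∈ S, R.ord x = 0 := by
  classical
  have hess := hy.ess
  obtain ⟨t, ht, hd⟩ := exists_complete_cover (L := K) hy hn hi hfg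
  refine ⟨t, ht, fun S hS => ?_⟩
  have h2n : 2 ≤ n := by
    have h1 := hfg.cardinalMk_le_trdeg
    rw [hn, Cardinal.mk_fin] at h1
    exact_mod_cast h1
  obtain ⟨v, hv⟩ : ∃ v : Fin (n - 2) ⊕ Fin 2 → K, v = Sum.elim t ![f, g] := ⟨_, rfl⟩
  have hbas : IsTranscendenceBasis ℂ v := by
    refine basis_of_dg (by
      rw [hn, Nat.card_eq_fintype_card, Fintype.card_sum, Fintype.card_fin, Fintype.card_fin]
      congr 1
      omega) ?_
    rw [hv]
    exact hd.ne'
  have hti : AlgebraicIndependent ℂ t := by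
    have h1 := hbas.1.comp Sum.inl Sum.inl_injective
    rw [hv] at h1
    exact h1
  -- the equations
  have halg := hbas.isAlgebraic
  have heq : ∀ x : K, ∃ (P : Polynomial (Algebra.adjoin ℂ (Set.range v)))
      (Q0 Ql : MvPolynomial (Fin (n - 2) ⊕ Fin 2) ℂ), Q0 ≠ 0 ∧ Ql ≠ 0 ∧ (x ≠ 0 →
        P.coeff 0 ≠ 0 ∧ Polynomial.aeval x P = 0 ∧ MvPolynomial.aeval v Q0 = (P.coeff 0 : K) ∧
          MvPolynomial.aeval v Ql = (P.leadingCoeff : K)) := by
    intro x
    by_cases hx : x = 0
    · exact ⟨0, 1, 1, one_ne_zero, one_ne_zero, fun h => absurd hx h⟩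
    obtain ⟨P, hP0, hPx⟩ := (halg.isAlgebraic x).exists_nonzero_coeff_and_aeval_eq_zero
      (mem_nonZeroDivisors_of_ne_zero hx)
    have hPne : P ≠ 0 := by
      rintro rfl
      exact hP0 (Polynomial.coeff_zero 0)
    have hrep : ∀ a : Algebra.adjoin ℂ (Set.range v), ∃ Q : MvPolynomial (Fin (n - 2) ⊕ Fin 2) ℂ,
        MvPolynomial.aeval v Q = (a : K) := by
      have h1 : ∀ z ∈ Algebra.adjoin ℂ (Set.range v),
          ∃ Q : MvPolynomial (Fin (n - 2) ⊕ Fin 2) ℂ, MvPolynomial.aeval v Q = z := by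
        rw [Algebra.adjoin_range_eq_range_aeval]
        rintro z ⟨Q, rfl⟩
        exact ⟨Q, rfl⟩
      exact fun a => h1 a a.2
    obtain ⟨Q0, hQ0⟩ := hrep (P.coeff 0)
    obtain ⟨Ql, hQl⟩ := hrep P.leadingCoeff
    refine ⟨P, Q0, Ql, ?_, ?_, fun _ => ⟨hP0, hPx, hQ0, hQl⟩⟩
    · rintro rfl
      rw [map_zero] at hQ0
      exact hP0 (Subtype.ext hQ0.symm)
    · rintro rfl
      rw [map_zero] at hQl
      exact Polynomial.leadingCoeff_ne_zero.2 hPne (Subtype.ext hQl.symm)
  choose P Q0 Ql hQ0 hQl hPx using heq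
  obtain ⟨Q, hQ⟩ : ∃ Q, Q = ∏ x ∈ S, (Q0 x * Ql x) := ⟨_, rfl⟩
  have hQne : Q ≠ 0 := by
    rw [hQ]
    exact Finset.prod_ne_zero_iff.2 fun x _ => mul_ne_zero (hQ0 x) (hQl x)
  obtain ⟨z, hz⟩ : ∃ z : Fin (n - 2) ⊕ Fin 2 → ℂ, MvPolynomial.eval z Q ≠ 0 := by
    by_contra hcon
    push Not at hcon
    exact hQne (MvPolynomial.funext fun z => by rw [hcon z, map_zero])
  obtain ⟨e, he⟩ : ∃ e : Fin 2 → ℂ, e = fun j => z (Sum.inr j) := ⟨_, rfl⟩
  obtain ⟨φ, hφ⟩ : ∃ φ : MvPolynomial (Fin (n - 2) ⊕ Fin 2) ℂ →ₐ[ℂ]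
      MvPolynomial (Fin (n - 2)) ℂ, φ = MvPolynomial.aeval
        (Sum.elim MvPolynomial.X fun j => MvPolynomial.C (e j)) := ⟨_, rfl⟩
  have hφQ : φ Q ≠ 0 := by
    intro h0
    apply hz
    have h1 : (MvPolynomial.aeval (fun a => z (Sum.inl a)) : _ →ₐ[ℂ] ℂ).comp φ =
        MvPolynomial.aeval z := by
      apply MvPolynomial.algHom_ext
      rintro (a | j)
      · simp [hφ]
      · simp [hφ, he]
    have h2 := congrArg (fun ψ : _ →ₐ[ℂ] ℂ => ψ Q) h1
    simp only [AlgHom.comp_apply, h0, map_zero] at h2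
    rw [← MvPolynomial.coe_aeval_eq_eval]
    exact h2.symm
  have hφ0 : ∀ x ∈ S, φ (Q0 x) ≠ 0 ∧ φ (Ql x) ≠ 0 := by
    intro x hx
    rw [hQ, map_prod, Finset.prod_ne_zero_iff] at hφQ
    have h1 := hφQ x hx
    rw [map_mul] at h1
    exact ⟨left_ne_zero_of_mul h1, right_ne_zero_of_mul h1⟩
  -- the functions
  have hft : ∀ c : ℂ, f - algebraMap ℂ K c ≠ 0 := by
    intro c h
    have h1 : Transcendental ℂ f := hfg.transcendental 0
    apply h1
    rw [sub_eq_zero.1 h]
    exact isAlgebraic_algebraMap c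
  have hgt : ∀ c : ℂ, g - algebraMap ℂ K c ≠ 0 := by
    intro c h
    have h1 : Transcendental ℂ g := hfg.transcendental 1
    apply h1
    rw [sub_eq_zero.1 h]
    exact isAlgebraic_algebraMap c
  obtain ⟨u, hu⟩ : ∃ u, u = f - algebraMap ℂ K (e 0) := ⟨_, rfl⟩
  obtain ⟨w, hw⟩ : ∃ w, w = (g - algebraMap ℂ K (e 1)) / u := ⟨_, rfl⟩
  have hu0 : u ≠ 0 := by rw [hu]; exact hft _
  have hw0 : w ≠ 0 := by rw [hw]; exact div_ne_zero (hgt _) hu0
  have hgw : g = w * u + algebraMap ℂ K (e 1) := by
    rw [hw, div_mul_cancel₀ _ hu0, sub_add_cancel]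
  have hfu : f = u + algebraMap ℂ K (e 0) := by rw [hu, sub_add_cancel]
  obtain ⟨s, hs⟩ : ∃ s : Set K, s = insert w (Set.range t) := ⟨_, rfl⟩
  have hws : w ∈ clC s := subset_clC s (by rw [hs]; exact Set.mem_insert _ _)
  have hts : ∀ a, t a ∈ clC s := fun a => subset_clC s (by
    rw [hs]
    exact Set.mem_insert_of_mem _ ⟨a, rfl⟩)
  have hall' : ∀ T : Subfield K, (∀ a, IsAlgebraic T a → a ∈ T) → clC s ≤ T → u ∈ T →
      ∀ x : K, x ∈ T := by
    intro T hT hsT huT x
    have hC : ∀ c, algebraMap ℂ K c ∈ T := fun c => hsT (range_le_clC s c)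
    have h1 : x ∈ clC (Set.range v) := mem_clC.2 (hbas.isAlgebraic_field.isAlgebraic x)
    refine clC_le hT hC ?_ h1
    rintro _ ⟨a | j, rfl⟩
    · rw [hv]
      exact hsT (hts a)
    · rw [hv]
      fin_cases j
      · change f ∈ T
        rw [hfu]
        exact add_mem huT (hC _)
      · change g ∈ T
        rw [hgw]
        exact add_mem (mul_mem (hsT hws) huT) (hC _)
  have hus : u ∉ clC s := by
    intro h
    have h1 := hall' (clC s) (fun a ha => clC_closed ha) le_rfl h
    have h3 : Algebra.IsAlgebraic (Algebra.adjoin ℂ s) K := ⟨fun x => by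
      have h4 := h1 x
      rw [mem_clC', AlgebraicIndependent.matroid_closure_eq, SetLike.mem_coe,
        Subalgebra.mem_algebraicClosure] at h4
      exact h4⟩
    have h4 := Algebra.IsAlgebraic.trdeg_le_cardinalMk (R := ℂ) (A := K) (s := s)
    rw [hn] at h4
    have h5 : Cardinal.mk s ≤ ((n - 2 + 1 : ℕ) : Cardinal) := by
      rw [hs]
      refine (Cardinal.mk_insert_le).trans ?_
      push_cast
      refine add_le_add ?_ le_rfl
      refine Cardinal.mk_range_le.trans (le_of_eq ?_)
      rw [Cardinal.mk_fin]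
    have h6 := h4.trans h5
    have h7 : n ≤ n - 2 + 1 := by exact_mod_cast h6
    omega
  obtain ⟨R, hRu, hRF⟩ := exists_place_clC hy hus fun x =>
    hall' (ext (clC s) u) (fun a ha => ext_closed ha) (le_ext _ _) (self_mem_ext _ _) x
  have hRw : R.ord w = 0 := hRF w hws hw0
  -- polynomials in `t`
  have hpt : ∀ p : MvPolynomial (Fin (n - 2)) ℂ, MvPolynomial.aeval t p ∈ clC s := by
    intro p
    induction p using MvPolynomial.induction_on with
    | C a => rw [MvPolynomial.aeval_C]; exact range_le_clC s a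
    | add p q hp hq => rw [map_add]; exact add_mem hp hq
    | mul_X p a hp => rw [map_mul, MvPolynomial.aeval_X]; exact mul_mem hp (hts a)
  have hptR : ∀ p : MvPolynomial (Fin (n - 2)) ℂ, p ≠ 0 → MvPolynomial.aeval t p ≠ 0 ∧
      R.ord (MvPolynomial.aeval t p) = 0 := by
    intro p hp
    have h1 : MvPolynomial.aeval t p ≠ 0 := fun h => hp (by
      apply hti
      rw [h, map_zero])
    exact ⟨h1, hRF _ (hpt p) h1⟩
  have hptReg : ∀ p : MvPolynomial (Fin (n - 2)) ℂ, R.Reg (MvPolynomial.aeval t p) := by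
    intro p
    by_cases h : MvPolynomial.aeval t p = 0
    · exact Or.inl h
    · exact Or.inr (hRF _ (hpt p) h).ge
  have hRf : Pos R (f - algebraMap ℂ K (e 0)) := by
    rw [← hu]
    exact Or.inr hRu
  have hgu : g - algebraMap ℂ K (e 1) = w * u := by rw [hgw, add_sub_cancel_right]
  have hRg : 0 < R.ord (g - algebraMap ℂ K (e 1)) := by
    rw [hgu, R.ord_mul hw0 hu0, hRw, zero_add]
    exact hRu
  have hconst : ∀ c : ℂ, R.Reg (algebraMap ℂ K c) := R.reg_const
  have hfreg : R.Reg f := by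
    rw [hfu]
    exact R.reg_add (Or.inr hRu.le) (hconst _)
  have hgreg : R.Reg g := by
    have h1 : g = (g - algebraMap ℂ K (e 1)) + algebraMap ℂ K (e 1) := (sub_add_cancel _ _).symm
    rw [h1]
    exact R.reg_add (Or.inr hRg.le) (hconst _)
  -- the specialization
  have hspec : ∀ Q : MvPolynomial (Fin (n - 2) ⊕ Fin 2) ℂ,
      Pos R (MvPolynomial.aeval v Q - MvPolynomial.aeval t (φ Q)) := by
    intro Q
    induction Q using MvPolynomial.induction_on with
    | C a =>
      left
      rw [hφ, MvPolynomial.aeval_C, MvPolynomial.aeval_C, MvPolynomial.algebraMap_eq,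
        MvPolynomial.aeval_C, sub_self]
    | add p q hp hq =>
      have h1 := hp.add hq
      rw [map_add, map_add, map_add]
      have h2 : MvPolynomial.aeval v p + MvPolynomial.aeval v q -
          (MvPolynomial.aeval t (φ p) + MvPolynomial.aeval t (φ q)) =
          (MvPolynomial.aeval v p - MvPolynomial.aeval t (φ p)) +
            (MvPolynomial.aeval v q - MvPolynomial.aeval t (φ q)) := by ring
      rw [h2]
      exact h1
    | mul_X p j hp =>
      rw [map_mul, map_mul, map_mul, MvPolynomial.aeval_X]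
      have key : ∀ (a : K) (b : MvPolynomial (Fin (n - 2)) ℂ), v j = a → R.Reg a →
          φ (MvPolynomial.X j) = b → Pos R (a - MvPolynomial.aeval t b) →
          Pos R (MvPolynomial.aeval v p * v j - MvPolynomial.aeval t (φ p) *
            MvPolynomial.aeval t (φ (MvPolynomial.X j))) := by
        intro a b h1 h2 h3 h4
        rw [h1, h3]
        have h5 : MvPolynomial.aeval v p * a - MvPolynomial.aeval t (φ p) *
            MvPolynomial.aeval t b = a * (MvPolynomial.aeval v p - MvPolynomial.aeval t (φ p)) +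
              MvPolynomial.aeval t (φ p) * (a - MvPolynomial.aeval t b) := by ring
        rw [h5]
        exact (hp.mul h2).add (h4.mul (hptReg _))
      rcases j with a | j
      · refine key (t a) (MvPolynomial.X a) (by rw [hv]; rfl) ?_ (by rw [hφ]; simp) ?_
        · have h1 := hptReg (MvPolynomial.X a)
          rwa [MvPolynomial.aeval_X] at h1
        · left
          rw [MvPolynomial.aeval_X, sub_self]
      · fin_cases j
        · refine key f (MvPolynomial.C (e 0)) (by rw [hv]; rfl) hfreg (by rw [hφ]; simp) ?_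
          rw [MvPolynomial.aeval_C]
          exact hRf
        · refine key g (MvPolynomial.C (e 1)) (by rw [hv]; rfl) hgreg (by rw [hφ]; simp) ?_
          rw [MvPolynomial.aeval_C]
          exact Or.inr hRg
  have hreg : ∀ Q : MvPolynomial (Fin (n - 2) ⊕ Fin 2) ℂ, R.Reg (MvPolynomial.aeval v Q) := by
    intro Q
    have h1 : MvPolynomial.aeval v Q = (MvPolynomial.aeval v Q - MvPolynomial.aeval t (φ Q)) +
        MvPolynomial.aeval t (φ Q) := by ring
    rw [h1]
    refine R.reg_add ?_ (hptReg _)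
    rcases hspec Q with h | h
    · exact Or.inl h
    · exact Or.inr h.le
  have hunit : ∀ Q : MvPolynomial (Fin (n - 2) ⊕ Fin 2) ℂ, φ Q ≠ 0 →
      R.ord (MvPolynomial.aeval v Q) = 0 := by
    intro Q hQ
    have h1 : MvPolynomial.aeval v Q = MvPolynomial.aeval t (φ Q) +
        (MvPolynomial.aeval v Q - MvPolynomial.aeval t (φ Q)) := by ring
    rw [h1]
    obtain ⟨h2, h3⟩ := hptR _ hQ
    exact (ord_add_pos h2 h3 (hspec Q)).2
  refine ⟨e 0, e 1, R, ?_, hRg, hptR, fun x hx => ?_⟩
  · rw [← hu]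
    exact hRu
  · obtain ⟨h1, h2, h3, h4⟩ := hPx x (hS x hx)
    obtain ⟨h5, h6⟩ := hφ0 x hx
    refine ord_zero_of_eq (hS x hx) (A := Algebra.adjoin ℂ (Set.range v)) ?_ (P := P x)
      (fun h => h1 (by rw [h, Polynomial.coeff_zero])) ?_ h1 ?_ h2
    · intro a ha
      rw [Algebra.adjoin_range_eq_range_aeval] at ha
      obtain ⟨Q', rfl⟩ := ha
      exact hreg Q'
    · rw [← h3]
      exact hunit _ h5
    · rw [← h4]
      exact hunit _ h6

end Run7.h612.SY
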