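import Pool.Agent.Run7.h612.SY.Obt

/-!
**The linear systems of the multiples of an isotropic divisor in codimension one.**
-/

set_option autoImplicit false
set_option linter.overlappingInstances false
set_option linter.unusedSectionVars false

open FF Module Pool.Agent.W602.GT Pool.Agent.Y172 Pool.Agent.R887 Pool.Agent.N110
  Pool.Agent.Run7.h701
open Run7.h612.AB (GeQ KSec ISet IField KGe)

namespace Run7.h612.SY

variable {K : Type} [Field K] [Algebra ℂ K] {N ρ n : ℕ} {y : Fin (N + 1) → K}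
  {c : Place ℂ K → Fin ρ → ℚ} {b : LinearMap.BilinForm ℚ (Fin ρ → ℚ)} {T : Place ℂ K → ℚ}
  {br : K → K → K}

theorem mapField_mul {m k : ℕ} (hk : 1 ≤ k) : mapField y T m ≤ mapField y T (k * m) := by
  unfold mapField
  rw [IntermediateField.adjoin_le_iff]
  rintro x ⟨g, g', h1, h2, hg, rfl⟩
  refine IntermediateField.subset_adjoin _ _ ⟨g ^ k, g' * g ^ (k - 1), ?_, ?_,
    pow_ne_zero _ hg, ?_⟩
  · rw [sec_iff]
    exact ksec_pow (sec_iff.1 h1) k
  · rw [sec_iff]
    have h3 := (sec_iff.1 h2).mul (ksec_pow (sec_iff.1 h1) (k - 1))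
    have h4 : m + (k - 1) * m = k * m := by
      obtain ⟨j, rfl⟩ : ∃ j, k = j + 1 := ⟨k - 1, by omega⟩
      rw [Nat.add_sub_cancel]
      ring
    rwa [h4] at h3
  · have h5 : g ^ k = g ^ (k - 1) * g := by
      rw [← pow_succ, Nat.sub_add_cancel hk]
    rw [h5, div_eq_div_iff hg (mul_ne_zero (pow_ne_zero _ hg) hg)]
    ring

theorem inBase_mul {m k : ℕ} (hk : 1 ≤ k) {R : Place ℂ K} (h : InBaseLocus y ((k * m) • T) R) :
    InBaseLocus y (m • T) R := by
  intro g hg hs
  obtain ⟨P, hP, hPR, h1⟩ := h (g ^ k) (pow_ne_zero _ hg) (sec_iff.2 (ksec_pow (sec_iff.1 hs) k))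
  refine ⟨P, hP, hPR, ?_⟩
  rw [smul_apply', P.ord_pow] at h1
  rw [smul_apply']
  have hk' : (0 : ℚ) < k := by exact_mod_cast hk
  by_contra h2
  push Not at h2
  have h3 := mul_le_mul_of_nonneg_left h2 hk'.le
  push_cast at h1
  linarith

/-- **The fibration in codimension one.** -/
theorem codim_one (hy : NormalModel y) (hn : Algebra.trdeg ℂ K = n) (hbr : IsPoisson y br)
    (hb : IsSymplecticForm y n br c b) (hT : IsDivisor y T)
    (hmov : ∀ P, IsPrimeDivisor y P → 0 ≤ b (cls y c T) (c P))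
    (hne : cls y c T ≠ 0) (hiso : b (cls y c T) (cls y c T) = 0) (hk : SY.IitakaGe y T 1) :
    ∃ m : ℕ, 1 ≤ m ∧ NoFixedComponent y (m • T) ∧ IsCoisotropicFibration br (mapField y T m) ∧
      (∀ f : K, f ∈ mapField y T m ↔ b (cls y c T) (cls y c (HK.polar f)) = 0) ∧
      ∀ R : Place ℂ K, InBaseLocus y (m • T) R → CentreDimGe y R (n - 2) →
        CoisotropicCentre br y R := by
  obtain ⟨m1, hm1, h1⟩ := base_locus hy hb.form hT hmov hne hiso hk
  obtain ⟨m2, hm2, h2⟩ := exists_mapField hy T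
  have he : mapField y T (m1 * m2) = IField y T := by
    refine le_antisymm (mapField_le T (Nat.mul_pos hm1 hm2)) ?_
    rw [← h2]
    exact mapField_mul hm1
  have h3 : ∀ R, InBaseLocus y ((m1 * m2) • T) R → ∃ P Q, IsPrimeDivisor y P ∧
      IsPrimeDivisor y Q ∧ P ≠ Q ∧ Through y P R ∧ Through y Q R ∧ b (c P) (c Q) = 0 := by
    intro R hR
    refine h1 R (inBase_mul hm2 ?_)
    rwa [mul_comm]
  refine ⟨m1 * m2, Nat.mul_pos hm1 hm2, fun R hR hB => ?_, ?_, ?_, fun R hR hd => ?_⟩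
  · obtain ⟨P, Q, -, -, hne', hPR, hQR, -⟩ := h3 R hB
    exact hne' ((eq_of_through hR hPR).symm.trans (eq_of_through hR hQR))
  · rw [he]
    exact ⟨(iitakaField T).closed, comm_movable hy hn hbr hb hT hmov hne hiso⟩
  · rw [he]
    exact mem_IField_iff hy hb.form hT hmov hne hiso
  · obtain ⟨P, Q, hP, hQ, hne', hPR, hQR, h0⟩ := h3 R hR
    exact hb.coisotropic P Q hP hQ hne' h0 R hPR hQR hd

end Run7.h612.SY
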