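import Pool.Agent.Run7.h612.SY.Growth
import Pool.Agent.Run7.h701.HK.Fld
import Pool.Agent.Helper386.D5V.Helper386_FF_Div

/-!
The field of the Iitaka fibration of a nef isotropic divisor.
-/

set_option autoImplicit false
set_option linter.overlappingInstances false
set_option linter.unusedSectionVars false

open FF Module Pool.Agent.W602.GT Pool.Agent.Y172 Pool.Agent.N110 Pool.Agent.N110.NV Pool.Agent.Run7.h701
  Pool.Agent.N110.DV Pool.Agent.Run7.h701.HK
open Run7.h612.AB (GeQ KSec ISet IField KGe mem_IField adjoin_le_IField)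

namespace Run7.h612.SY

variable {K : Type} [Field K] [Algebra ℂ K] {N ρ n : ℕ} {y : Fin (N + 1) → K}
  {c : Place ℂ K → Fin ρ → ℚ} {b : LinearMap.BilinForm ℚ (Fin ρ → ℚ)} {T : Place ℂ K → ℚ}

theorem secD_iff {m : ℕ} {g : K} : SecD y (m • T) g ↔ KSec y T m g := by
  constructor
  · intro h P hP
    have h1 := h P hP
    rw [Pi.smul_apply, nsmul_eq_mul] at h1
    exact h1
  · intro h P hP
    rw [Pi.smul_apply, nsmul_eq_mul]
    exact h P hP

/-- the order of the elements of the field of quotients -/
theorem ord_adjoin (hy : NormalModel y) (hb : IsBBForm y c b) (hL : Fin0 y T)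
    (hiso : b (cls y c T) (cls y c T) = 0)
    (hnef : ∀ P, IsPrimeDivisor y P → 0 ≤ b (cls y c T) (c P)) {P : Place ℂ K}
    (hP : IsPrimeDivisor y P) (hPo : P ∉ orth y c b T) {x : K}
    (hx : x ∈ IntermediateField.adjoin ℂ (ISet y T)) (hx0 : x ≠ 0) : P.ord x = 0 := by
  by_cases h0 : ∃ (m : ℕ) (g : K), 1 ≤ m ∧ g ≠ 0 ∧ KSec y T m g
  · obtain ⟨m0, g0, hm0, hg0, hs⟩ := h0
    obtain ⟨m, hm, g, g', hg', h1, h2, rfl⟩ := mem_ISet_of_adjoin hm0 hg0 hs hx
    have hg : g ≠ 0 := fun h => hx0 (by rw [h, zero_div])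
    have h3 := member_orth hy hb hiso hnef hL hg (secD_iff.2 h1) hP hPo
    have h4 := member_orth hy hb hiso hnef hL hg' (secD_iff.2 h2) hP hPo
    have h5 : P.ord g = P.ord g' := by
      have h6 : (P.ord g : ℚ) = P.ord g' := by rw [h3, h4]
      exact_mod_cast h6
    rw [P.ord_div hg hg', h5, sub_self]
  · have h1 : ISet y T = ∅ := by
      rw [Set.eq_empty_iff_forall_notMem]
      rintro z ⟨m, hm, g, g', hg', -, h2, -⟩
      exact h0 ⟨m, g', hm, hg', h2⟩
    rw [h1, IntermediateField.adjoin_empty, IntermediateField.mem_bot] at hx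
    obtain ⟨a, rfl⟩ := hx
    exact P.ord_const (fun h => hx0 (by rw [h, map_zero]))

/-- **The field of the Iitaka fibration of a nef isotropic divisor.** -/
theorem mem_IField_iff (hy : NormalModel y) (hb : IsBBForm y c b)
    (hL : Fin0 y T) (hnef' : ∀ P, IsPrimeDivisor y P → 0 ≤ b (cls y c T) (c P))
    (hne : cls y c T ≠ 0) (hiso : b (cls y c T) (cls y c T) = 0) (f : K) :
    f ∈ IField y T ↔ b (cls y c T) (cls y c (polar f)) = 0 := by
  constructor
  · intro hf
    by_cases hf0 : f = 0
    · refine pair_eq_zero (D := polar f) ?_ fun P hP hP0 => ?_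
      · refine Set.Finite.subset (Set.finite_empty) ?_
        rintro P ⟨-, h⟩
        apply h
        rw [hf0]
        unfold HK.polar
        rw [P.ord_zero]
        simp
      · exfalso
        apply hP0
        rw [hf0]
        unfold HK.polar
        rw [P.ord_zero]
        simp
    refine pair_eq_zero (polar_eff hy hf0).2 fun P hP hP0 => ?_
    by_contra hPo
    have hPo' : P ∉ orth y c b T := fun h => hPo h.2
    rw [mem_IField] at hf
    obtain ⟨S, hS⟩ : ∃ S, S = IntermediateField.adjoin ℂ (ISet y T) := ⟨_, rfl⟩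
    have hS1 : ∀ x ∈ S, x ≠ 0 → P.ord x = 0 := by
      rw [hS]
      exact fun x hx hx0 => ord_adjoin hy hb hL hiso hnef' hP hPo' hx hx0
    rw [← hS] at hf
    let P' : Place S K :=
      { ord := P.ord
        ord_zero := P.ord_zero
        ord_mul := P.ord_mul
        ord_add := P.ord_add
        ord_const := fun {a} ha => hS1 a a.2 (fun h => ha (Subtype.ext h))
        surj := P.surj }
    have h1 : P'.ord f = 0 := P'.ord_eq_zero_of_isAlgebraic hf0 hf
    apply hP0
    unfold HK.polar
    have h2 : P.ord f = 0 := h1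
    rw [h2]
    simp
  · intro h0
    by_cases hf : IsAlgebraic ℂ f
    · have h1 : f ∈ (⊥ : IntermediateField ℂ K) := by
        rw [IntermediateField.mem_bot]
        exact minpoly.mem_range_of_degree_eq_one ℂ _ (IsAlgClosed.degree_eq_one_of_irreducible ℂ
          (minpoly.irreducible hf.isIntegral))
      exact (bot_le : (⊥ : IntermediateField ℂ K) ≤ IField y T) h1
    have hf' : Transcendental ℂ f := hf
    have hf0 : f ≠ 0 := by
      rintro rfl
      exact hf isAlgebraic_zero
    obtain ⟨α, hα, hcl⟩ := polar_mult hy hb hne hiso hnef' hf' h0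
    obtain ⟨M, hM, g, hg, hgE⟩ := exists_sec hb hL (polar_eff hy hf0) hcl
    obtain ⟨p, hp⟩ : ∃ p : ℕ, α.num = p := ⟨α.num.toNat, by
      have := Rat.num_pos.2 hα
      omega⟩
    have hp1 : 1 ≤ p := by
      have h5 := Rat.num_pos.2 hα
      rw [hp] at h5
      exact_mod_cast h5
    have hgo : ∀ P, IsPrimeDivisor y P → -((M * p : ℕ) * T P) + polar f P ≤ (P.ord g : ℚ) := by
      intro P hP
      rw [hgE P hP, hp]
      have h5 : (1 : ℚ) ≤ (M : ℚ) * α.den := by
        have h6 : 1 ≤ M * α.den := Nat.mul_pos hM α.den_pos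
        exact_mod_cast h6
      have h6 : 0 ≤ polar f P := le_max_right _ _
      have h7 := mul_le_mul_of_nonneg_right h5 h6
      push_cast
      nlinarith
    refine adjoin_le_IField _ (IntermediateField.subset_adjoin _ _
      ⟨M * p, Nat.mul_pos hM hp1, f * g, g, hg, fun P hP => ?_, fun P hP => ?_,
        (mul_div_cancel_right₀ _ hg).symm⟩)
    · right
      have h5 := hgo P hP
      have h6 : -(P.ord f : ℚ) ≤ polar f P := le_max_left _ _
      rw [P.ord_mul hf0 hg]
      push_cast at h5 ⊢
      linarith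
    · right
      have h5 := hgo P hP
      have h6 : 0 ≤ polar f P := le_max_right _ _
      push_cast at h5 ⊢
      linarith

end Run7.h612.SY
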