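import Pool.Agent.Run7.h612.SY.DefsB
import Pool.Agent.Run7.h612.SY.Center
import Pool.Agent.Run7.h612.SY.HK
import Pool.Agent.R887.GapA

/-!
**The functions with polar divisors orthogonal to an isotropic divisor commute.**
-/

set_option autoImplicit false
set_option linter.overlappingInstances false
set_option linter.unusedSectionVars false

open FF Module Pool.Agent.W602.GT Pool.Agent.Y172 Pool.Agent.R887 Pool.Agent.N110
  Pool.Agent.Run7.h701
open Pool.Agent.N110 (affS)

namespace Run7.h612.SY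

variable {K : Type} [Field K] [Algebra ℂ K] {N ρ n : ℕ} {y : Fin (N + 1) → K}
  {c : Place ℂ K → Fin ρ → ℚ} {b : LinearMap.BilinForm ℚ (Fin ρ → ℚ)} {T : Place ℂ K → ℚ}
  {br : K → K → K}

theorem pos_iff {R : Place ℂ K} {z : K} : Pos R z ↔ z = 0 ∨ 0 < R.ord z := Iff.rfl

theorem IsPoisson.self (hbr : IsPoisson y br) (f : K) : br f f = 0 := by
  have h1 := hbr.anti f f
  have hch : CharZero K := charZero_of_injective_algebraMap (algebraMap ℂ K).injective
  exact self_eq_neg.1 h1

theorem IsPoisson.const (hbr : IsPoisson y br) (f : K) (a : ℂ) : br f (algebraMap ℂ K a) = 0 :=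
  (hbr.der f).map_algebraMap a

theorem IsPoisson.const' (hbr : IsPoisson y br) (f : K) (a : ℂ) : br (algebraMap ℂ K a) f = 0 := by
  rw [hbr.anti f, hbr.const, neg_zero]

theorem IsPoisson.sub (hbr : IsPoisson y br) (f g h : K) : br f (g - h) = br f g - br f h :=
  map_sub (hbr.der f) g h

theorem IsPoisson.shift (hbr : IsPoisson y br) (f g : K) (a a' : ℂ) :
    br (f - algebraMap ℂ K a) (g - algebraMap ℂ K a') = br f g := by
  rw [hbr.sub, hbr.const, sub_zero, hbr.anti g, hbr.sub, hbr.const, sub_zero, ← hbr.anti g]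

/-- dependent functions commute -/
theorem br_dep (hbr : IsPoisson y br) {f g : K} (h : ¬ AlgebraicIndependent ℂ ![f, g]) :
    br f g = 0 := by
  have hch : CharZero K := charZero_of_injective_algebraMap (algebraMap ℂ K).injective
  obtain ⟨Dr, hDr⟩ : ∃ Dr : K → Derivation ℤ K K, ∀ f g, Dr f g = br f g :=
    ⟨fun f => (hbr.der f).restrictScalars ℤ, fun f g => rfl⟩
  have h1 : ∃ a : Fin 2, (![f, g] : Fin 2 → K) a ∈ AB.clC ((![f, g] : Fin 2 → K) '' {b | b < a}) := by
    by_contra hcon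
    push Not at hcon
    exact h (AB.indep_of_notMem _ hcon)
  have key : ∀ (s : Set K) (x z : K), (∀ w ∈ s, br x w = 0) → z ∈ AB.clC s → br x z = 0 := by
    intro s x z hs hz
    rw [← hDr]
    refine AB.der_alg_zero (Dr x) _ (AB.der_closure_zero (Dr x) _ ?_) (AB.mem_acl.1 hz)
    rintro w (⟨a, rfl⟩ | hw)
    · rw [hDr, hbr.const]
    · rw [hDr]
      exact hs w hw
  obtain ⟨a, ha⟩ := h1
  fin_cases a
  · have h2 : (![f, g] : Fin 2 → K) '' {b | b < (0 : Fin 2)} = ∅ := by
      rw [Set.image_eq_empty, Set.eq_empty_iff_forall_notMem]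
      intro b hb
      exact absurd hb (Fin.not_lt_zero b)
    have h3 : f ∈ AB.clC (∅ : Set K) := by
      rw [← h2]
      exact ha
    rw [hbr.anti g f, key ∅ g f (fun w hw => absurd hw (Set.notMem_empty w)) h3, neg_zero]
  · have h3 : g ∈ AB.clC ({f} : Set K) := by
      refine AB.clC_mono ?_ ha
      rintro _ ⟨b, hb, rfl⟩
      have h4 : b = 0 := by
        have h5 : b < (1 : Fin 2) := hb
        fin_cases b
        · rfl
        · exact absurd h5 (lt_irrefl _)
      rw [h4]
      rfl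
    refine key {f} f g (fun w hw => ?_) h3
    rw [Set.mem_singleton_iff.1 hw]
    exact hbr.self f

theorem inv_localRing {R : Place ℂ K} {z : K} (hz : z ∈ localRing y R) (hz0 : z ≠ 0)
    (h : R.ord z = 0) : z⁻¹ ∈ localRing y R := by
  obtain ⟨j, hj, a, ha, b', hb', hb0, hbo, hab⟩ := hz
  have ha0 : a ≠ 0 := by
    rw [← hab]
    exact mul_ne_zero hz0 hb0
  have hao : R.ord a = 0 := by rw [← hab, R.ord_mul hz0 hb0, h, hbo, add_zero]
  refine ⟨j, hj, b', hb', a, ha, ha0, hao, ?_⟩
  rw [← hab]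
  field_simp

/-- a prime divisor through the centre on which the function is zero -/
theorem exists_prime_pos (hy : NormalModel y) {R : Place ℂ K} {z : K} (hz : z ∈ localRing y R)
    (hz0 : z ≠ 0) (h : 0 < R.ord z) :
    ∃ P, IsPrimeDivisor y P ∧ Through y P R ∧ 0 < P.ord z := by
  by_contra hcon
  push Not at hcon
  have h1 := unit_of_through hy hz0 (Q := R) fun P hP ht => by
    have h2 := (P.reg_iff hz0).1 (ht z hz)
    have h3 := hcon P hP ht
    omega
  omega

/-- the bracket of functions which vanish on a prime divisor -/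
theorem br_pos (hbr : IsPoisson y br) {P : Place ℂ K} (hP : IsPrimeDivisor y P) {f g : K}
    (hf : 0 < P.ord f) (hg : 0 < P.ord g) : Pos P (br f g) := by
  obtain ⟨s, hs0, hs⟩ := P.surj
  have hf0 : f ≠ 0 := by
    rintro rfl
    rw [P.ord_zero] at hf
    exact lt_irrefl _ hf
  have hg0 : g ≠ 0 := by
    rintro rfl
    rw [P.ord_zero] at hg
    exact lt_irrefl _ hg
  have h1 : P.Reg (f / s) := Or.inr (by rw [P.ord_div hf0 hs0, hs]; omega)
  have h2 : P.Reg (g / s) := Or.inr (by rw [P.ord_div hg0 hs0, hs]; omega)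
  have hsr : P.Reg s := Or.inr (by rw [hs]; exact zero_le_one)
  have hfr : P.Reg f := Or.inr hf.le
  have h3 : f = s * (f / s) := (mul_div_cancel₀ _ hs0).symm
  have h4 : g = s * (g / s) := (mul_div_cancel₀ _ hs0).symm
  have h5 : br f g = (br f (g / s) + (g / s) * br (f / s) s) * s := by
    conv_lhs => rw [h4]
    rw [hbr.leibniz]
    have h6 : br f s = s * br (f / s) s := by
      rw [hbr.anti s f, hbr.anti s (f / s)]
      conv_lhs => rw [h3]
      rw [hbr.leibniz, hbr.self]
      ring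
    rw [h6]
    ring
  rw [h5]
  refine Pos.mul (Or.inr (by rw [hs]; exact one_pos)) ?_
  refine P.reg_add (hbr.regular P hP _ _ hfr h2) (P.reg_mul h2 (hbr.regular P hP _ _ h1 hsr))

theorem polar_shift {f : K} (hf : Transcendental ℂ f) (a : ℂ) :
    HK.polar (f - algebraMap ℂ K a) = HK.polar f := by
  funext P
  have hf0 : f ≠ 0 := by
    rintro rfl
    exact hf isAlgebraic_zero
  have hfa : f - algebraMap ℂ K a ≠ 0 := by
    intro h
    apply hf
    rw [sub_eq_zero.1 h]
    exact isAlgebraic_algebraMap a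
  by_cases ha : a = 0
  · rw [ha, map_zero, sub_zero]
  have ha0 : algebraMap ℂ K a ≠ 0 := by rwa [Ne, map_eq_zero]
  have hao : P.ord (-algebraMap ℂ K a) = 0 := by rw [P.ord_neg]; exact P.ord_const ha
  unfold HK.polar
  by_cases h : P.ord f < 0
  · have h1 := P.ord_add_eq hf0 (neg_ne_zero.2 ha0) (by rw [hao]; exact h)
    rw [sub_eq_add_neg, h1.2]
  · push Not at h
    have h1 : P.Reg (f - algebraMap ℂ K a) := by
      rw [sub_eq_add_neg]
      exact P.reg_add (Or.inr h) (Or.inr hao.ge)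
    have h2 := (P.reg_iff hfa).1 h1
    rw [max_eq_right (by
      have : (0 : ℚ) ≤ P.ord (f - algebraMap ℂ K a) := by exact_mod_cast h2
      linarith), max_eq_right (by
      have : (0 : ℚ) ≤ P.ord f := by exact_mod_cast h
      linarith)]

/-- effective divisors orthogonal to a vector -/
theorem pair_zero' {D : Place ℂ K → ℚ} (hD : Effective y D) {u : Fin ρ → ℚ}
    (hu : ∀ P, IsPrimeDivisor y P → D P ≠ 0 → 0 ≤ b u (c P)) (h0 : b u (cls y c D) = 0)
    {P : Place ℂ K} (hP : IsPrimeDivisor y P) (hPD : D P ≠ 0) : b u (c P) = 0 := by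
  obtain ⟨T, hT, hT0, hT1⟩ := HK.exists_finset hD.2
  rw [HK.pair_cls hT hT1, Finset.sum_eq_zero_iff_of_nonneg
    fun P hP => mul_nonneg (hD.1 P (hT P hP)) (hu P (hT P hP) (hT0 P hP))] at h0
  have hPT : P ∈ T := by
    by_contra h
    exact hPD (hT1 P hP h)
  exact (mul_eq_zero.1 (h0 P hPT)).resolve_left hPD

/-- **The functions with polar divisors orthogonal to an isotropic divisor commute.** -/
theorem comm_of_orth (hy : NormalModel y) (hn : Algebra.trdeg ℂ K = n) (hbr : IsPoisson y br)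
    (hb : IsSymplecticForm y n br c b)
    (hnef' : ∀ P, IsPrimeDivisor y P → 0 ≤ b (cls y c T) (c P))
    (hne : cls y c T ≠ 0) (hiso : b (cls y c T) (cls y c T) = 0) {f g : K}
    (hf : b (cls y c T) (cls y c (HK.polar f)) = 0)
    (hg : b (cls y c T) (cls y c (HK.polar g)) = 0) : br f g = 0 := by
  classical
  by_cases hfg : AlgebraicIndependent ℂ ![f, g]
  swap
  · exact br_dep hbr hfg
  by_contra hh0
  obtain ⟨h, hh⟩ : ∃ h, h = br f g := ⟨_, rfl⟩
  rw [← hh] at hh0
  have hft : Transcendental ℂ f := hfg.transcendental 0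
  have hgt : Transcendental ℂ g := hfg.transcendental 1
  have hf0 : f ≠ 0 := by
    intro h
    exact hft (by rw [h]; exact isAlgebraic_zero)
  have hg0 : g ≠ 0 := by
    intro h
    exact hgt (by rw [h]; exact isAlgebraic_zero)
  obtain ⟨i, hi⟩ := hy.ne
  have hfrac := hy.frac hi
  obtain ⟨u1, v1, hv1, hf1⟩ := IsFractionRing.div_surjective (A := chart y i) f
  obtain ⟨u2, v2, hv2, hg1⟩ := IsFractionRing.div_surjective (A := chart y i) g
  have hv10 : (v1 : K) ≠ 0 := fun h => nonZeroDivisors.ne_zero hv1 (Subtype.ext h)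
  have hv20 : (v2 : K) ≠ 0 := fun h => nonZeroDivisors.ne_zero hv2 (Subtype.ext h)
  have hf2 : f = (u1 : K) / v1 := hf1.symm
  have hg2 : g = (u2 : K) / v2 := hg1.symm
  obtain ⟨t, ht, hcen⟩ := exists_center hy hn hi hfg
  obtain ⟨S, hS⟩ : ∃ S : Finset K, S = insert (v1 : K) (insert (v2 : K) (insert h
    ((Finset.univ.filter fun j => y j ≠ 0).image fun j => y j / y i))) := ⟨_, rfl⟩
  obtain ⟨a, a', R, hRf, hRg, hRt, hRS⟩ := hcen S (by
    intro x hx
    rw [hS, Finset.mem_insert, Finset.mem_insert, Finset.mem_insert, Finset.mem_image] at hx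
    rcases hx with rfl | rfl | rfl | ⟨j, hj, rfl⟩
    · exact hv10
    · exact hv20
    · exact hh0
    · exact div_ne_zero (Finset.mem_filter.1 hj).2 hi)
  have hRv1 : R.ord (v1 : K) = 0 := hRS _ (by rw [hS]; simp)
  have hRv2 : R.ord (v2 : K) = 0 := hRS _ (by rw [hS]; simp)
  have hRh : R.ord h = 0 := hRS _ (by rw [hS]; simp)
  have hcent : Centred y i R := by
    refine ⟨hi, fun j => ?_⟩
    by_cases hj : y j = 0
    · rw [hj, zero_div]
      exact R.reg_zero
    · right
      rw [hRS (y j / y i) (by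
        rw [hS, Finset.mem_insert, Finset.mem_insert, Finset.mem_insert, Finset.mem_image]
        right; right; right
        exact ⟨j, Finset.mem_filter.2 ⟨Finset.mem_univ _, hj⟩, rfl⟩)]
  have hdim : CentreDimGe y R (n - 2) := by
    refine ⟨t, fun k => ?_, hRt⟩
    obtain ⟨j, hj⟩ := ht k
    rw [← hj]
    exact chart_localRing hcent (gen_mem y i j)
  -- the local ring
  have hloc : ∀ (z : K) (w v : chart y i) (e : ℂ), (v : K) ≠ 0 → R.ord (v : K) = 0 →
      z = (w : K) / v → z - algebraMap ℂ K e ∈ localRing y R := by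
    intro z w v e hv0 hv hz
    refine ⟨i, hcent, (w : K) - algebraMap ℂ K e * v, ?_, v, v.2, hv0, hv, ?_⟩
    · exact sub_mem w.2 (mul_mem ((chart y i).algebraMap_mem e) v.2)
    · rw [hz, sub_mul, div_mul_cancel₀ _ hv0]
  have hFl := hloc f u1 v1 a hv10 hRv1 hf2
  have hGl := hloc g u2 v2 a' hv20 hRv2 hg2
  have hfl : f ∈ localRing y R := by
    have h1 := hloc f u1 v1 0 hv10 hRv1 hf2
    rwa [map_zero, sub_zero] at h1
  have hgl : g ∈ localRing y R := by
    have h1 := hloc g u2 v2 0 hv20 hRv2 hg2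
    rwa [map_zero, sub_zero] at h1
  have hhl : h ∈ localRing y R := by
    refine mem_localRing_of_reg hy fun P hP hPt => ?_
    rw [hh]
    exact hbr.regular P hP f g (hPt f hfl) (hPt g hgl)
  have hhi := inv_localRing hhl hh0 hRh
  have hF0 : f - algebraMap ℂ K a ≠ 0 := by
    intro h0
    rw [h0, R.ord_zero] at hRf
    exact lt_irrefl _ hRf
  have hG0 : g - algebraMap ℂ K a' ≠ 0 := by
    intro h0
    rw [h0, R.ord_zero] at hRg
    exact lt_irrefl _ hRg
  -- no prime divisor through the centre is contracted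
  have hno : ∀ P, IsPrimeDivisor y P → Through y P R → 0 < P.ord (f - algebraMap ℂ K a) →
      0 < P.ord (g - algebraMap ℂ K a') → False := by
    intro P hP hPt h1 h2
    have h3 := br_pos hbr hP h1 h2
    rw [hbr.shift, ← hh] at h3
    have h4 := h3.resolve_left hh0
    have h5 := (P.reg_iff (inv_ne_zero hh0)).1 (hPt _ hhi)
    rw [P.ord_inv] at h5
    omega
  obtain ⟨P, hP, hPt, hPF⟩ := exists_prime_pos hy hFl hF0 hRf
  obtain ⟨Q, hQ, hQt, hQG⟩ := exists_prime_pos hy hGl hG0 hRg
  have hQF : ¬ 0 < Q.ord (f - algebraMap ℂ K a) := fun h1 => hno Q hQ hQt h1 hQG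
  have hPQ : P ≠ Q := by
    rintro rfl
    exact hQF hPF
  -- the classes
  have hcls : ∀ (z : K) (e : ℂ), Transcendental ℂ z → z - algebraMap ℂ K e ≠ 0 →
      b (cls y c T) (cls y c (HK.polar z)) = 0 →
      ∃ α : ℚ, cls y c (HK.zeros (z - algebraMap ℂ K e)) = α • cls y c T := by
    intro z e hz hze h1
    obtain ⟨α, -, hα⟩ := HK.polar_mult hy hb.form hne hiso hnef' hz h1
    refine ⟨α, ?_⟩
    rw [HK.cls_zeros hy hb.form hze, polar_shift hz, hα]
  have hort : ∀ (z : K) (e : ℂ), Transcendental ℂ z → z - algebraMap ℂ K e ≠ 0 →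
      b (cls y c T) (cls y c (HK.polar z)) = 0 → ∀ P', IsPrimeDivisor y P' →
      0 < P'.ord (z - algebraMap ℂ K e) → b (cls y c T) (c P') = 0 := by
    intro z e hz hze h1 P' hP' h2
    obtain ⟨α, hα⟩ := hcls z e hz hze h1
    refine HK.pair_zero (HK.zeros_eff hy hze) hnef' ?_ hP' ?_
    · rw [hα, map_smul, hiso, smul_zero]
    · unfold HK.zeros
      have h3 : (0 : ℚ) < P'.ord (z - algebraMap ℂ K e) := by exact_mod_cast h2
      rw [max_eq_left h3.le]
      exact h3.ne'
  have hQo : b (cls y c T) (c Q) = 0 := hort g a' hgt hG0 hg Q hQ hQG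
  obtain ⟨α, hα⟩ := hcls f a hft hF0 hf
  have hPQ0 : b (c P) (c Q) = 0 := by
    rw [hb.form.symm]
    refine pair_zero' (HK.zeros_eff hy hF0) (u := c Q) (fun P' hP' h1 => ?_) ?_ hP ?_
    · refine hb.form.prime Q P' hQ hP' ?_
      rintro rfl
      apply h1
      unfold HK.zeros
      push Not at hQF
      have h2 : (Q.ord (f - algebraMap ℂ K a) : ℚ) ≤ 0 := by exact_mod_cast hQF
      exact max_eq_right h2
    · rw [hα, map_smul, hb.form.symm, hQo, smul_zero]
    · unfold HK.zeros
      have h3 : (0 : ℚ) < P.ord (f - algebraMap ℂ K a) := by exact_mod_cast hPF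
      rw [max_eq_left h3.le]
      exact h3.ne'
  have h1 := hb.coisotropic P Q hP hQ hPQ hPQ0 R hPt hQt hdim _ hFl _ hGl (Or.inr hRf) (Or.inr hRg)
  rw [hbr.shift, ← hh] at h1
  rcases h1 with h2 | h2
  · exact hh0 h2
  · omega

end Run7.h612.SY
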