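import Pool.Agent.Run7.h612.SY.Comm

/-!
**Fields of functions with isotropic polar divisors.**
-/

set_option autoImplicit false
set_option linter.overlappingInstances false
set_option linter.unusedSectionVars false

open FF Module Pool.Agent.W602.GT Pool.Agent.Y172 Pool.Agent.R887 Pool.Agent.N110
  Pool.Agent.Run7.h701
open Pool.Agent.N110.NV (cls_add)

namespace Run7.h612.SY

variable {K : Type} [Field K] [Algebra ℂ K] {N ρ n : ℕ} {y : Fin (N + 1) → K}
  {c : Place ℂ K → Fin ρ → ℚ} {b : LinearMap.BilinForm ℚ (Fin ρ → ℚ)} {T : Place ℂ K → ℚ}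
  {br : K → K → K}

/-- polar divisors are movable -/
theorem polar_movable (hy : NormalModel y) (hb : HK.IsBBForm y c b) {f : K} (hf : f ≠ 0)
    {P : Place ℂ K} (hP : IsPrimeDivisor y P) : 0 ≤ b (cls y c (HK.polar f)) (c P) := by
  rw [hb.symm]
  rcases HK.polar_zeros f P with h | h
  · refine HK.pair_nonneg (HK.polar_eff hy hf) fun Q hQ hQ0 => hb.prime P Q hP hQ ?_
    rintro rfl
    exact hQ0 h
  · rw [← HK.cls_zeros hy hb hf]
    refine HK.pair_nonneg (HK.zeros_eff hy hf) fun Q hQ hQ0 => hb.prime P Q hP hQ ?_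
    rintro rfl
    exact hQ0 h

theorem cls_polar_ne (hy : NormalModel y) (hb : HK.IsBBForm y c b) {f : K}
    (hf : Transcendental ℂ f) : cls y c (HK.polar f) ≠ 0 := by
  have hf0 : f ≠ 0 := by
    rintro rfl
    exact hf isAlgebraic_zero
  intro h0
  apply hf
  obtain ⟨z, hz⟩ := HK.const_of_reg hy (f := f) (fun P hP => by
    right
    have h4 := HK.eff_zero hy hb (HK.polar_eff hy hf0) h0 hP
    have h5 : -(P.ord f : ℚ) ≤ 0 := by
      rw [← h4]
      exact le_max_left _ _
    have h6 : (0 : ℚ) ≤ P.ord f := by linarith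
    exact_mod_cast h6)
  rw [hz]
  exact isAlgebraic_algebraMap z

/-- functions with orthogonal isotropic polar divisors commute -/
theorem comm_of_iso (hy : NormalModel y) (hn : Algebra.trdeg ℂ K = n) (hbr : IsPoisson y br)
    (hb : IsSymplecticForm y n br c b) {f g : K}
    (hf : b (cls y c (HK.polar f)) (cls y c (HK.polar f)) = 0)
    (hg : b (cls y c (HK.polar f)) (cls y c (HK.polar g)) = 0) : br f g = 0 := by
  by_cases hfg : AlgebraicIndependent ℂ ![f, g]
  swap
  · exact br_dep hbr hfg
  have hft : Transcendental ℂ f := hfg.transcendental 0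
  have hf0 : f ≠ 0 := by
    rintro rfl
    exact hft isAlgebraic_zero
  exact comm_of_orth hy hn hbr hb (fun P hP => polar_movable hy hb.form hf0 hP)
    (cls_polar_ne hy hb.form hft) hf hf hg

/-- disjoint divisors of zeros -/
theorem exists_shift (hy : NormalModel y) {f g : K} (hf : f ≠ 0) (hg : Transcendental ℂ g) :
    ∃ a : ℂ, ∀ P, IsPrimeDivisor y P → 0 < P.ord f → ¬ 0 < P.ord (g - algebraMap ℂ K a) := by
  classical
  have hfin : {P | IsPrimeDivisor y P ∧ HK.zeros f P ≠ 0}.Finite := (HK.zeros_eff hy hf).2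
  have hga : ∀ a, g - algebraMap ℂ K a ≠ 0 := by
    intro a h
    apply hg
    rw [sub_eq_zero.1 h]
    exact isAlgebraic_algebraMap a
  have h1 : ∀ P : Place ℂ K, ∃ z : ℂ, ∀ a, 0 < P.ord (g - algebraMap ℂ K a) → a = z := by
    intro P
    by_cases hex : ∃ z, 0 < P.ord (g - algebraMap ℂ K z)
    · obtain ⟨z, hz⟩ := hex
      refine ⟨z, fun a ha => ?_⟩
      by_contra hne
      have h2 : Pos P ((g - algebraMap ℂ K z) + -(g - algebraMap ℂ K a)) :=
        Pos.add (Or.inr hz) (Pos.neg (Or.inr ha))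
      have h3 : (g - algebraMap ℂ K z) + -(g - algebraMap ℂ K a) = algebraMap ℂ K (a - z) := by
        rw [map_sub]
        ring
      rw [h3] at h2
      have h4 : a - z ≠ 0 := sub_ne_zero.2 hne
      rcases h2 with h5 | h5
      · exact h4 ((map_eq_zero _).1 h5)
      · rw [P.ord_const h4] at h5
        exact lt_irrefl _ h5
    · push Not at hex
      exact ⟨0, fun a ha => absurd ha (not_lt.2 (hex a))⟩
  choose z hz using h1
  obtain ⟨a, ha⟩ := Set.Infinite.exists_notMem_finset (Set.infinite_univ (α := ℂ))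
    (hfin.toFinset.image z)
  refine ⟨a, fun P hP h2 h3 => ha.2 ?_⟩
  rw [hz P a h3]
  refine Finset.mem_image_of_mem _ ?_
  rw [Set.Finite.mem_toFinset]
  refine ⟨hP, ?_⟩
  unfold HK.zeros
  have h4 : (0 : ℚ) < P.ord f := by exact_mod_cast h2
  rw [max_eq_left h4.le]
  exact h4.ne'

/-- in a field of functions with isotropic polar divisors all polar divisors are orthogonal -/
theorem pair_field (hy : NormalModel y) (hb : HK.IsBBForm y c b) {E : IntermediateField ℂ K}
    (hE : ∀ f ∈ E, b (cls y c (HK.polar f)) (cls y c (HK.polar f)) = 0) {f g : K} (hf : f ∈ E)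
    (hg : g ∈ E) : b (cls y c (HK.polar f)) (cls y c (HK.polar g)) = 0 := by
  have hconst : ∀ {z : K}, ¬ Transcendental ℂ z → cls y c (HK.polar z) = 0 := by
    intro z hz
    have hz' : IsAlgebraic ℂ z := by
      by_contra h
      exact hz h
    have h1 : HK.polar z = fun _ => 0 := by
      funext P
      unfold HK.polar
      by_cases hz0 : z = 0
      · rw [hz0, P.ord_zero]
        simp
      · rw [P.ord_eq_zero_of_isAlgebraic hz0 hz']
        simp
    rw [h1]
    unfold cls
    simp
  by_cases hft : Transcendental ℂ f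
  swap
  · rw [hconst hft, map_zero, LinearMap.zero_apply]
  by_cases hgt : Transcendental ℂ g
  swap
  · rw [hconst hgt, map_zero]
  have hf0 : f ≠ 0 := by
    rintro rfl
    exact hft isAlgebraic_zero
  obtain ⟨a, ha⟩ := exists_shift hy hf0 hgt
  obtain ⟨G, hG⟩ : ∃ G, G = g - algebraMap ℂ K a := ⟨_, rfl⟩
  rw [← hG] at ha
  have hG0 : G ≠ 0 := by
    rw [hG]
    intro h
    apply hgt
    rw [sub_eq_zero.1 h]
    exact isAlgebraic_algebraMap a
  have hGE : G ∈ E := by
    rw [hG]
    exact sub_mem hg (E.algebraMap_mem a)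
  have hsum : f⁻¹ + G⁻¹ ∈ E := add_mem (inv_mem hf) (inv_mem hGE)
  have hpol : ∀ P, IsPrimeDivisor y P → HK.polar (f⁻¹ + G⁻¹) P = HK.zeros f P + HK.zeros G P := by
    intro P hP
    unfold HK.polar HK.zeros
    by_cases h1 : 0 < P.ord f
    · have h2 : P.ord G ≤ 0 := not_lt.1 (ha P hP h1)
      have h3 := P.ord_add_eq (inv_ne_zero hf0) (inv_ne_zero hG0) (by
        rw [P.ord_inv, P.ord_inv]
        omega)
      rw [h3.2, P.ord_inv]
      have h4 : (0 : ℚ) < P.ord f := by exact_mod_cast h1
      have h5 : (P.ord G : ℚ) ≤ 0 := by exact_mod_cast h2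
      rw [max_eq_left h4.le, max_eq_right h5]
      push_cast
      rw [neg_neg, max_eq_left h4.le, add_zero]
    · push Not at h1
      have h4 : (P.ord f : ℚ) ≤ 0 := by exact_mod_cast h1
      rw [max_eq_right h4, zero_add]
      by_cases h2 : 0 < P.ord G
      · have h3 := P.ord_add_eq (inv_ne_zero hG0) (inv_ne_zero hf0) (by
          rw [P.ord_inv, P.ord_inv]
          omega)
        rw [add_comm, h3.2, P.ord_inv]
        push_cast
        rw [neg_neg]
      · push Not at h2
        have h5 : (P.ord G : ℚ) ≤ 0 := by exact_mod_cast h2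
        rw [max_eq_right h5]
        have h6 : P.Reg (f⁻¹ + G⁻¹) := P.reg_add (Or.inr (by rw [P.ord_inv]; omega))
          (Or.inr (by rw [P.ord_inv]; omega))
        rcases h6 with h7 | h7
        · rw [h7, P.ord_zero]
          simp
        · have h8 : (0 : ℚ) ≤ P.ord (f⁻¹ + G⁻¹) := by exact_mod_cast h7
          exact max_eq_right (by linarith)
  have hcls : cls y c (HK.polar (f⁻¹ + G⁻¹)) = cls y c (HK.polar f) + cls y c (HK.polar g) := by
    have h1 : cls y c (HK.polar (f⁻¹ + G⁻¹)) = cls y c (fun P => HK.zeros f P + HK.zeros G P) := by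
      unfold cls
      exact finsum_mem_congr rfl fun P hP => by rw [hpol P hP]
    rw [h1, cls_add (HK.zeros_eff hy hf0).2 (HK.zeros_eff hy hG0).2, HK.cls_zeros hy hb hf0,
      HK.cls_zeros hy hb hG0, hG, polar_shift hgt]
  have h1 := hE _ hsum
  rw [hcls, map_add, map_add, LinearMap.add_apply, LinearMap.add_apply, hE f hf, hE g hg,
    hb.symm (cls y c (HK.polar g)) (cls y c (HK.polar f))] at h1
  linarith

/-- **A field of functions with isotropic polar divisors is Poisson commutative.** -/
theorem comm_field (hy : NormalModel y) (hn : Algebra.trdeg ℂ K = n) (hbr : IsPoisson y br)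
    (hb : IsSymplecticForm y n br c b) {E : IntermediateField ℂ K}
    (hE : ∀ f ∈ E, b (cls y c (HK.polar f)) (cls y c (HK.polar f)) = 0) :
    ∀ f ∈ E, ∀ g ∈ E, br f g = 0 := fun f hf g hg =>
  comm_of_iso hy hn hbr hb (hE f hf) (pair_field hy hb.form hE hf hg)

end Run7.h612.SY
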