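import Pool.Agent.Run7.h612.SY.Dep
import Pool.Agent.Run7.h701.HK.Ord

/-!
**The classes in the cone generated by the prime exceptional divisors and the movable classes which
are not effective.**
-/

set_option autoImplicit false
set_option linter.overlappingInstances false
set_option linter.unusedSectionVars false

open FF Module Pool.Agent.W602.GT Pool.Agent.Y172 Pool.Agent.R887 Pool.Agent.N110
  Pool.Agent.Run7.h701
open Pool.Agent.N110.NV (Fin0 cls_add cls_sub cls_smul cls_single cls_congr cls_zero)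

namespace Run7.h612.SY

section Defs

variable {K : Type} [Field K] [Algebra ℂ K] {N ρ : ℕ}

/-- `h` behaves like the class of an ample divisor: `h` has positive square, is positive on the prime
divisors, and every class in the positive cone (the component of `{b > 0}` which contains `h`) is the
class of an effective `ℚ`-divisor. On a projective hyperkähler manifold all this is true for the class
of an ample divisor (Huybrechts: the classes in the positive cone are big). -/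
structure IsAmpleClass (y : Fin (N + 1) → K) (c : Place ℂ K → Fin ρ → ℚ)
    (b : LinearMap.BilinForm ℚ (Fin ρ → ℚ)) (h : Fin ρ → ℚ) : Prop where
  sq : 0 < b h h
  prime : ∀ P, IsPrimeDivisor y P → 0 < b h (c P)
  effective : ∀ v, 0 < b v v → 0 < b h v → ∃ D, Effective y D ∧ cls y c D = v

/-- The cone of the classes of the effective `ℚ`-divisors. -/
def effCone (y : Fin (N + 1) → K) (c : Place ℂ K → Fin ρ → ℚ) : Set (Fin ρ → ℚ) :=
  {v | ∃ D, Effective y D ∧ cls y c D = v}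

/-- The classes in the closure of the positive cone which are nonnegative on the prime exceptional
divisors, that is, the rational classes in the closure of the birational Kähler cone. -/
def birCone (y : Fin (N + 1) → K) (c : Place ℂ K → Fin ρ → ℚ)
    (b : LinearMap.BilinForm ℚ (Fin ρ → ℚ)) (h : Fin ρ → ℚ) : Set (Fin ρ → ℚ) :=
  {v | 0 ≤ b v v ∧ 0 ≤ b h v ∧ ∀ P, IsPrimeDivisor y P → b (c P) (c P) < 0 → 0 ≤ b v (c P)}

/-- The classes `M + E`, `M` a rational class in the closure of the birational Kähler cone and `E` an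
effective `ℚ`-divisor whose components are prime exceptional divisors. -/
def genCone (y : Fin (N + 1) → K) (c : Place ℂ K → Fin ρ → ℚ)
    (b : LinearMap.BilinForm ℚ (Fin ρ → ℚ)) (h : Fin ρ → ℚ) : Set (Fin ρ → ℚ) :=
  {w | ∃ M ∈ birCone y c b h, ∃ E, Effective y E ∧
    (∀ P, IsPrimeDivisor y P → E P ≠ 0 → b (c P) (c P) < 0) ∧ w = M + cls y c E}

/-- `M` is a nonzero isotropic class in the closure of the birational Kähler cone which is not the
class of an effective `ℚ`-divisor. -/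
def IsBadClass (y : Fin (N + 1) → K) (c : Place ℂ K → Fin ρ → ℚ)
    (b : LinearMap.BilinForm ℚ (Fin ρ → ℚ)) (h M : Fin ρ → ℚ) : Prop :=
  M ∈ birCone y c b h ∧ M ≠ 0 ∧ b M M = 0 ∧ M ∉ effCone y c

/-- The prime divisors orthogonal to the class `M`. -/
def orthPrimes (y : Fin (N + 1) → K) (c : Place ℂ K → Fin ρ → ℚ)
    (b : LinearMap.BilinForm ℚ (Fin ρ → ℚ)) (M : Fin ρ → ℚ) : Set (Place ℂ K) :=
  {P | IsPrimeDivisor y P ∧ b M (c P) = 0}

/-- The classes `t M + E`, `t > 0` and `E` an effective `ℚ`-divisor whose components are orthogonal to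
`M`. -/
def badCone (y : Fin (N + 1) → K) (c : Place ℂ K → Fin ρ → ℚ)
    (b : LinearMap.BilinForm ℚ (Fin ρ → ℚ)) (M : Fin ρ → ℚ) : Set (Fin ρ → ℚ) :=
  {w | ∃ t : ℚ, 0 < t ∧ ∃ E, Effective y E ∧
    (∀ P, IsPrimeDivisor y P → E P ≠ 0 → P ∈ orthPrimes y c b M) ∧ w = t • M + cls y c E}

end Defs

variable {K : Type} [Field K] [Algebra ℂ K] {N ρ n : ℕ} {y : Fin (N + 1) → K}
  {c : Place ℂ K → Fin ρ → ℚ} {b : LinearMap.BilinForm ℚ (Fin ρ → ℚ)} {h u v w M M' : Fin ρ → ℚ}

open scoped Classical in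
theorem fin0_single (P : Place ℂ K) (a : ℚ) : Fin0 y (fun Q => if Q = P then a else 0) := by
  refine (Set.finite_singleton P).subset ?_
  rintro Q ⟨-, hQ⟩
  by_contra h1
  exact hQ (if_neg h1)

open scoped Classical in
theorem exists_divisor (hb : HK.IsBBForm y c b) (v : Fin ρ → ℚ) :
    ∃ L, IsDivisor y L ∧ cls y c L = v := by
  have hv : v ∈ Submodule.span ℚ {v | ∃ P, IsPrimeDivisor y P ∧ v = c P} := by
    rw [hb.span]
    trivial
  refine Submodule.span_induction (p := fun v _ => ∃ L, IsDivisor y L ∧ cls y c L = v)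
    ?_ ?_ ?_ ?_ hv
  · rintro _ ⟨P, hP, rfl⟩
    exact ⟨fun Q => if Q = P then 1 else 0, fin0_single P 1, by rw [cls_single hP, one_smul]⟩
  · refine ⟨fun _ => 0, ?_, cls_zero⟩
    refine Set.finite_empty.subset ?_
    rintro Q ⟨-, hQ⟩
    exact (hQ rfl).elim
  · rintro v w _ _ ⟨L, hL, h1⟩ ⟨L', hL', h1'⟩
    exact ⟨fun Q => L Q + L' Q, Fin0.add hL hL', by rw [cls_add hL hL', h1, h1']⟩
  · rintro a v _ ⟨L, hL, h1⟩
    exact ⟨fun Q => a * L Q, Fin0.smul hL a, by rw [cls_smul, h1]⟩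

theorem effCone_add (hv : v ∈ effCone y c) (hw : w ∈ effCone y c) : v + w ∈ effCone y c := by
  obtain ⟨D, hD, rfl⟩ := hv
  obtain ⟨E, hE, rfl⟩ := hw
  exact ⟨fun Q => D Q + E Q, ⟨fun P hP => add_nonneg (hD.1 P hP) (hE.1 P hP),
    Fin0.add hD.2 hE.2⟩, cls_add hD.2 hE.2⟩

theorem effCone_smul {t : ℚ} (ht : 0 ≤ t) (hv : v ∈ effCone y c) : t • v ∈ effCone y c := by
  obtain ⟨D, hD, rfl⟩ := hv
  exact ⟨fun Q => t * D Q, ⟨fun P hP => mul_nonneg ht (hD.1 P hP), Fin0.smul hD.2 t⟩,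
    cls_smul D t⟩

/-- two classes in the closure of the positive cone -/
theorem pair_pos (hb : HK.IsBBForm y c b) (hh : 0 < b h h) (hu : 0 ≤ b u u) (hv : 0 ≤ b v v)
    (hhu : 0 ≤ b h u) (hhv : 0 ≤ b h v) : 0 ≤ b u v := by
  by_contra hcon
  push Not at hcon
  have h0 : ∀ z : Fin ρ → ℚ, 0 ≤ b z z → b h z = 0 → z = 0 := by
    intro z hz hhz
    by_contra hz0
    exact absurd (HK.index_of_pos hb.symm hb.index hh hhz hz0) (not_lt.2 hz)
  have hu1 : 0 < b h u := by
    refine lt_of_le_of_ne hhu fun h1 => ?_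
    rw [h0 u hu h1.symm] at hcon
    simp at hcon
  have hv1 : 0 < b h v := by
    refine lt_of_le_of_ne hhv fun h1 => ?_
    rw [h0 v hv h1.symm] at hcon
    simp at hcon
  obtain ⟨z, hz⟩ : ∃ z, z = b h v • u - b h u • v := ⟨_, rfl⟩
  have h1 : b h z = 0 := by
    rw [hz, map_sub, map_smul, map_smul, smul_eq_mul, smul_eq_mul]
    ring
  have h2 : b z z = (b h v) ^ 2 * b u u - 2 * (b h u * b h v) * b u v + (b h u) ^ 2 * b v v := by
    rw [hz]
    simp only [map_sub, map_smul, LinearMap.sub_apply, LinearMap.smul_apply, smul_eq_mul,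
      hb.symm v u]
    ring
  have h3 : 0 < b z z := by
    rw [h2]
    have h4 : 0 < -(2 * (b h u * b h v) * b u v) := by
      have : 0 < (b h u * b h v) * (-(b u v)) := mul_pos (mul_pos hu1 hv1) (by linarith)
      linarith
    have h5 : 0 ≤ (b h v) ^ 2 * b u u := mul_nonneg (sq_nonneg _) hu
    have h6 : 0 ≤ (b h u) ^ 2 * b v v := mul_nonneg (sq_nonneg _) hv
    linarith
  have h4 := h0 z h3.le h1
  rw [h4] at h3
  simp at h3

theorem bir_prime (hb : HK.IsBBForm y c b) (hh : IsAmpleClass y c b h)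
    (hM : M ∈ birCone y c b h) {P : Place ℂ K} (hP : IsPrimeDivisor y P) : 0 ≤ b M (c P) := by
  rcases lt_or_ge (b (c P) (c P)) 0 with h1 | h1
  · exact hM.2.2 P hP h1
  · exact pair_pos hb hh.sq hM.1 h1 hM.2.1 (hh.prime P hP).le

theorem bir_pos (hb : HK.IsBBForm y c b) (hh : IsAmpleClass y c b h)
    (hM : M ∈ birCone y c b h) (h0 : M ≠ 0) : 0 < b h M := by
  refine lt_of_le_of_ne hM.2.1 fun h1 => ?_
  exact absurd (HK.index_of_pos hb.symm hb.index hh.sq h1.symm h0) (not_lt.2 hM.1)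

theorem bir_big (hb : HK.IsBBForm y c b) (hh : IsAmpleClass y c b h)
    (hM : M ∈ birCone y c b h) (h0 : 0 < b M M) : M ∈ effCone y c := by
  refine hh.effective M h0 (bir_pos hb hh hM ?_)
  rintro rfl
  simp at h0

open scoped Classical in
/-- a component which is not orthogonal -/
theorem eff_of_not_orth (hb : HK.IsBBForm y c b) (hh : IsAmpleClass y c b h)
    (hM : M ∈ birCone y c b h) (hM0 : M ≠ 0) {E : Place ℂ K → ℚ} (hE : Effective y E)
    {P : Place ℂ K} (hP : IsPrimeDivisor y P) (hEP : E P ≠ 0) (hMP : 0 < b M (c P)) :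
    M + cls y c E ∈ effCone y c := by
  have hEP' : 0 < E P := lt_of_le_of_ne (hE.1 P hP) (Ne.symm hEP)
  obtain ⟨q, hq⟩ : ∃ q, q = |b (c P) (c P)| + 1 := ⟨_, rfl⟩
  have hq0 : 0 < q := by
    rw [hq]
    positivity
  obtain ⟨t, ht⟩ : ∃ t, t = min (E P) (b M (c P) / q) := ⟨_, rfl⟩
  have ht0 : 0 < t := by
    rw [ht]
    exact lt_min hEP' (div_pos hMP hq0)
  have htE : t ≤ E P := by
    rw [ht]
    exact min_le_left _ _
  have htq : t * q ≤ b M (c P) := by
    rw [← le_div_iff₀ hq0, ht]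
    exact min_le_right _ _
  have h1 : 0 < b (M + t • c P) (M + t • c P) := by
    have h2 : b (M + t • c P) (M + t • c P) =
        b M M + t * (2 * b M (c P) + t * b (c P) (c P)) := by
      simp only [map_add, map_smul, LinearMap.add_apply, LinearMap.smul_apply, smul_eq_mul,
        hb.symm (c P) M]
      ring
    rw [h2]
    have h3 : -(t * q) ≤ t * b (c P) (c P) := by
      have h4 : -|b (c P) (c P)| ≤ b (c P) (c P) := neg_abs_le _
      have h5 : -q ≤ b (c P) (c P) := by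
        rw [hq]
        linarith
      have h6 := mul_le_mul_of_nonneg_left h5 ht0.le
      linarith
    have h4 : 0 < t * (2 * b M (c P) + t * b (c P) (c P)) := mul_pos ht0 (by linarith)
    linarith [hM.1]
  have h2 : 0 < b h (M + t • c P) := by
    rw [map_add, map_smul, smul_eq_mul]
    have h3 := bir_pos hb hh hM hM0
    have h4 := mul_pos ht0 (hh.prime P hP)
    linarith
  have h3 : M + t • c P ∈ effCone y c := hh.effective _ h1 h2
  have hF : Fin0 y (fun Q => E Q - if Q = P then t else 0) := Fin0.sub hE.2 (fin0_single P t)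
  have h4 : cls y c (fun Q => E Q - if Q = P then t else 0) ∈ effCone y c := by
    refine ⟨_, ⟨fun Q hQ => ?_, hF⟩, rfl⟩
    by_cases hQP : Q = P
    · rw [if_pos hQP, hQP]
      linarith
    · rw [if_neg hQP, sub_zero]
      exact hE.1 Q hQ
  rw [cls_sub hE.2 (fin0_single P t), cls_single hP] at h4
  have h5 := effCone_add h3 h4
  have h6 : M + t • c P + (cls y c E - t • c P) = M + cls y c E := by abel
  rwa [h6] at h5

/-- orthogonal components do not help -/
theorem not_eff_of_orth (hy : NormalModel y) (hb : HK.IsBBForm y c b) (hh : IsAmpleClass y c b h)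
    (hM : IsBadClass y c b h M) {E : Place ℂ K → ℚ} (hE : Effective y E)
    (hEo : ∀ P, IsPrimeDivisor y P → E P ≠ 0 → P ∈ orthPrimes y c b M) :
    M + cls y c E ∉ effCone y c := by
  classical
  rintro ⟨D, hD, hDE⟩
  obtain ⟨L, hL, rfl⟩ := exists_divisor hb M
  obtain ⟨hMb, hM0, hMM, hMe⟩ := hM
  have hmov : ∀ P, IsPrimeDivisor y P → 0 ≤ b (cls y c L) (c P) := fun P hP =>
    bir_prime hb hh hMb hP
  have h1 : b (cls y c L) (cls y c D) = 0 := by
    rw [hDE, map_add, hMM, zero_add]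
    exact HK.pair_eq_zero hE.2 fun P hP hEP => (hEo P hP hEP).2
  have hDo : ∀ P, IsPrimeDivisor y P → D P ≠ 0 → P ∈ HK.orth y c b L := fun P hP hDP =>
    ⟨hP, HK.pair_zero hD hmov h1 hP hDP⟩
  have hF : Fin0 y (fun Q => E Q - D Q) := Fin0.sub hE.2 hD.2
  obtain ⟨S, hS, hS0, hS1⟩ := HK.exists_finset hF
  have hcl : cls y c (fun Q => E Q - D Q) = -cls y c L := by
    rw [cls_sub hE.2 hD.2, hDE]
    abel
  have hrel : ∑ P ∈ S, (E P - D P) • c P + (1 : ℚ) • cls y c L = 0 := by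
    rw [← Pool.Agent.N110.NV.cls_finset hS hS1, hcl, one_smul, neg_add_cancel]
  have hSo : ∀ P ∈ S, P ∈ HK.orth y c b L := by
    intro P hP
    by_cases hDP : D P = 0
    · have hEP : E P ≠ 0 := by
        intro hEP
        apply hS0 P hP
        rw [hDP, hEP, sub_zero]
      exact hEo P (hS P hP) hEP
    · exact hDo P (hS P hP) hDP
  by_cases hne : S.Nonempty
  · obtain ⟨Q, hQ⟩ := hne
    have h2 := (HK.rel hy hb hM0 hMM hmov hL hSo hrel hQ (hS0 Q hQ)).1
    obtain ⟨A, hA, hAL⟩ := (effective_iff hy hb hL).1 h2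
    exact hMe ⟨A, hA, hAL⟩
  · rw [Finset.not_nonempty_iff_eq_empty] at hne
    rw [hne, Finset.sum_empty, zero_add, one_smul] at hrel
    exact hM0 hrel

theorem orthPrimes_smul {t : ℚ} (ht : 0 < t) : orthPrimes y c b (t • M) = orthPrimes y c b M := by
  ext P
  show (IsPrimeDivisor y P ∧ b (t • M) (c P) = 0) ↔ (IsPrimeDivisor y P ∧ b M (c P) = 0)
  rw [map_smul, LinearMap.smul_apply, smul_eq_mul, mul_eq_zero]
  exact ⟨fun h1 => ⟨h1.1, h1.2.resolve_left ht.ne'⟩, fun h1 => ⟨h1.1, Or.inr h1.2⟩⟩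

theorem birCone_smul {t : ℚ} (ht : 0 < t) (hM : M ∈ birCone y c b h) :
    t • M ∈ birCone y c b h := by
  refine ⟨?_, ?_, fun P hP h1 => ?_⟩
  · rw [map_smul, map_smul, LinearMap.smul_apply, smul_eq_mul, smul_eq_mul]
    exact mul_nonneg ht.le (mul_nonneg ht.le hM.1)
  · rw [map_smul, smul_eq_mul]
    exact mul_nonneg ht.le hM.2.1
  · rw [map_smul, LinearMap.smul_apply, smul_eq_mul]
    exact mul_nonneg ht.le (hM.2.2 P hP h1)

theorem bad_smul {t : ℚ} (ht : 0 < t) (hM : IsBadClass y c b h M) :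
    IsBadClass y c b h (t • M) := by
  obtain ⟨h1, h2, h3, h4⟩ := hM
  refine ⟨birCone_smul ht h1, smul_ne_zero ht.ne' h2, ?_, fun h5 => h4 ?_⟩
  · rw [map_smul, map_smul, LinearMap.smul_apply, h3, smul_zero, smul_zero]
  · have h6 := effCone_smul (inv_pos.2 ht).le h5
    rwa [smul_smul, inv_mul_cancel₀ ht.ne', one_smul] at h6

theorem bad_indep (hy : NormalModel y) (hb : HK.IsBBForm y c b) (hh : IsAmpleClass y c b h)
    (hM : IsBadClass y c b h M) :
    (orthPrimes y c b M).Finite ∧ (orthPrimes y c b M).ncard + 2 ≤ ρ ∧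
      (∀ P ∈ orthPrimes y c b M, b (c P) (c P) < 0) ∧
      LinearIndependent ℚ fun o : Option (orthPrimes y c b M) => o.elim M fun P => c P := by
  obtain ⟨L, hL, rfl⟩ := exists_divisor hb M
  obtain ⟨hMb, hM0, hMM, hMe⟩ := hM
  have hmov : ∀ P, IsPrimeDivisor y P → 0 ≤ b (cls y c L) (c P) := fun P hP =>
    bir_prime hb hh hMb hP
  have h0 : ¬ SY.IitakaGe y L 0 := by
    intro h1
    exact hMe ((effective_iff hy hb hL).1 h1)
  obtain ⟨h1, h2⟩ := card_of_not_effective hy hb hL hmov hM0 hMM h0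
  refine ⟨h1, h2, fun P hP => neg_of_not_effective hy hb hL hmov hM0 hMM h0 hP, ?_⟩
  have h3 : ¬ DependentWith y c b L := fun h4 =>
    h0 ((kappa_zero_iff hy hb hL hmov hM0 hMM).2 h4)
  exact not_not.1 h3

/-- **The classes which are not effective.** -/
theorem gen_not_eff_iff (hy : NormalModel y) (hb : HK.IsBBForm y c b)
    (hh : IsAmpleClass y c b h) :
    (w ∈ genCone y c b h ∧ w ∉ effCone y c) ↔
      ∃ M, IsBadClass y c b h M ∧ w ∈ badCone y c b M := by
  constructor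
  · rintro ⟨⟨M, hM, E, hE, hEn, rfl⟩, hw⟩
    have hEe : cls y c E ∈ effCone y c := ⟨E, hE, rfl⟩
    have hMe : M ∉ effCone y c := fun h1 => hw (effCone_add h1 hEe)
    have hM0 : M ≠ 0 := by
      rintro rfl
      rw [zero_add] at hw
      exact hw hEe
    have hMM : b M M = 0 := by
      by_contra h1
      exact hMe (bir_big hb hh hM (lt_of_le_of_ne hM.1 (Ne.symm h1)))
    refine ⟨M, ⟨hM, hM0, hMM, hMe⟩, 1, one_pos, E, hE, fun P hP hEP => ⟨hP, ?_⟩, by rw [one_smul]⟩
    by_contra h1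
    exact hw (eff_of_not_orth hb hh hM hM0 hE hP hEP
      (lt_of_le_of_ne (bir_prime hb hh hM hP) (Ne.symm h1)))
  · rintro ⟨M, hM, t, ht, E, hE, hEo, rfl⟩
    refine ⟨⟨t • M, birCone_smul ht hM.1, E, hE, fun P hP hEP =>
      (bad_indep hy hb hh hM).2.2.1 P (hEo P hP hEP), rfl⟩, ?_⟩
    refine not_eff_of_orth hy hb hh (bad_smul ht hM) hE fun P hP hEP => ?_
    rw [orthPrimes_smul ht]
    exact hEo P hP hEP

/-- different cones are disjoint -/
theorem bad_disjoint (hb : HK.IsBBForm y c b) (hh : IsAmpleClass y c b h)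
    (hM : IsBadClass y c b h M) (hM' : IsBadClass y c b h M')
    (hw : (badCone y c b M ∩ badCone y c b M').Nonempty) :
    (∃ r : ℚ, 0 < r ∧ M' = r • M) ∧ badCone y c b M = badCone y c b M' := by
  obtain ⟨w, ⟨s, hs, E, hE, hEo, hwE⟩, s', hs', E', hE', hEo', hwE'⟩ := hw
  have h1 : b M w = 0 := by
    rw [hwE, map_add, map_smul, hM.2.2.1, smul_zero, zero_add]
    exact HK.pair_eq_zero hE.2 fun P hP hEP => (hEo P hP hEP).2
  have h2 : 0 ≤ b M M' := pair_pos hb hh.sq hM.1.1 hM'.1.1 hM.1.2.1 hM'.1.2.1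
  have h3 : 0 ≤ b M (cls y c E') := HK.pair_nonneg hE' fun P hP _ => bir_prime hb hh hM.1 hP
  have h4 : b M M' = 0 := by
    rw [hwE', map_add, map_smul, smul_eq_mul] at h1
    have h5 : s' * b M M' = 0 := le_antisymm (by linarith) (mul_nonneg hs'.le h2)
    exact (mul_eq_zero.1 h5).resolve_left hs'.ne'
  obtain ⟨r, hr⟩ := (HK.hodge hb hM.2.1 hM.2.2.1 h4).2 hM'.2.2.1
  have hr0 : 0 < r := by
    have h5 := bir_pos hb hh hM'.1 hM'.2.1
    rw [hr, map_smul, smul_eq_mul] at h5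
    exact (pos_iff_pos_of_mul_pos h5).2 (bir_pos hb hh hM.1 hM.2.1)
  refine ⟨⟨r, hr0, hr⟩, ?_⟩
  ext z
  constructor
  · rintro ⟨t, ht, F, hF, hFo, rfl⟩
    refine ⟨t / r, div_pos ht hr0, F, hF, fun P hP hFP => ?_, ?_⟩
    · rw [hr, orthPrimes_smul hr0]
      exact hFo P hP hFP
    · rw [hr, smul_smul, div_mul_cancel₀ _ hr0.ne']
  · rintro ⟨t, ht, F, hF, hFo, rfl⟩
    refine ⟨t * r, mul_pos ht hr0, F, hF, fun P hP hFP => ?_, ?_⟩
    · have h5 := hFo P hP hFP
      rwa [hr, orthPrimes_smul hr0] at h5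
    · rw [hr, smul_smul]

/-- the cones are simplicial: the coordinates are unique -/
theorem bad_unique (hy : NormalModel y) (hb : HK.IsBBForm y c b) (hh : IsAmpleClass y c b h)
    (hM : IsBadClass y c b h M) {E E' : Place ℂ K → ℚ} (hE : Effective y E)
    (hE' : Effective y E')
    (hEo : ∀ P, IsPrimeDivisor y P → E P ≠ 0 → P ∈ orthPrimes y c b M)
    (hEo' : ∀ P, IsPrimeDivisor y P → E' P ≠ 0 → P ∈ orthPrimes y c b M) {t t' : ℚ}
    (h1 : t • M + cls y c E = t' • M + cls y c E') :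
    t = t' ∧ ∀ P, IsPrimeDivisor y P → E P = E' P := by
  classical
  obtain ⟨L, hL, rfl⟩ := exists_divisor hb M
  obtain ⟨hMb, hM0, hMM, hMe⟩ := hM
  have hmov : ∀ P, IsPrimeDivisor y P → 0 ≤ b (cls y c L) (c P) := fun P hP =>
    bir_prime hb hh hMb hP
  have hF : Fin0 y (fun Q => E Q - E' Q) := Fin0.sub hE.2 hE'.2
  obtain ⟨S, hS, hS0, hS1⟩ := HK.exists_finset hF
  have hcl : cls y c (fun Q => E Q - E' Q) + (t - t') • cls y c L = 0 := by
    rw [cls_sub hE.2 hE'.2, sub_smul]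
    have h2 : t • cls y c L + cls y c E - (t' • cls y c L + cls y c E') = 0 := sub_eq_zero.2 h1
    rw [← h2]
    abel
  have hrel : ∑ P ∈ S, (E P - E' P) • c P + (t - t') • cls y c L = 0 := by
    rw [← Pool.Agent.N110.NV.cls_finset hS hS1]
    exact hcl
  have hSo : ∀ P ∈ S, P ∈ HK.orth y c b L := by
    intro P hP
    by_cases hEP : E P = 0
    · have hEP' : E' P ≠ 0 := by
        intro hEP'
        apply hS0 P hP
        rw [hEP, hEP', sub_zero]
      exact hEo' P (hS P hP) hEP'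
    · exact hEo P (hS P hP) hEP
  have hne : S = ∅ := by
    by_contra h2
    obtain ⟨Q, hQ⟩ := Finset.nonempty_iff_ne_empty.2 h2
    have h3 := (HK.rel hy hb hM0 hMM hmov hL hSo hrel hQ (hS0 Q hQ)).1
    obtain ⟨A, hA, hAL⟩ := (effective_iff hy hb hL).1 h3
    exact hMe ⟨A, hA, hAL⟩
  rw [hne, Finset.sum_empty, zero_add] at hrel
  refine ⟨sub_eq_zero.1 ((smul_eq_zero.1 hrel).resolve_right hM0), fun P hP => ?_⟩
  exact sub_eq_zero.1 (hS1 P hP (by rw [hne]; exact Finset.notMem_empty _))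

theorem mem_badCone_smul {r : ℚ} (hr : 0 < r) : r • M ∈ badCone y c b M := by
  refine ⟨r, hr, fun _ => 0, ⟨fun _ _ => le_rfl, ?_⟩, fun P _ h0 => (h0 rfl).elim, ?_⟩
  · refine Set.finite_empty.subset ?_
    rintro Q ⟨-, hQ⟩
    exact (hQ rfl).elim
  · rw [cls_zero, add_zero]

/-- equal or disjoint -/
theorem bad_dichotomy (hb : HK.IsBBForm y c b) (hh : IsAmpleClass y c b h)
    (hM : IsBadClass y c b h M) (hM' : IsBadClass y c b h M') :
    ((∃ r : ℚ, 0 < r ∧ M' = r • M) → badCone y c b M = badCone y c b M') ∧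
    ((¬ ∃ r : ℚ, 0 < r ∧ M' = r • M) → Disjoint (badCone y c b M) (badCone y c b M')) := by
  constructor
  · rintro ⟨r, hr, h1⟩
    refine (bad_disjoint hb hh hM hM' ⟨M', ?_, ?_⟩).2
    · rw [h1]
      exact mem_badCone_smul hr
    · have := mem_badCone_smul (y := y) (c := c) (b := b) (M := M') one_pos
      rwa [one_smul] at this
  · intro h1
    rw [Set.disjoint_iff_inter_eq_empty]
    by_contra h2
    exact h1 (bad_disjoint hb hh hM hM' (Set.nonempty_iff_ne_empty.2 h2)).1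

/-- effectivity of isotropic classes -/
theorem not_eff_iff_indep (hy : NormalModel y) (hb : HK.IsBBForm y c b)
    (hh : IsAmpleClass y c b h) (hM : M ∈ birCone y c b h) (hM0 : M ≠ 0) (hMM : b M M = 0) :
    M ∉ effCone y c ↔
      LinearIndependent ℚ fun o : Option (orthPrimes y c b M) => o.elim M fun P => c P := by
  constructor
  · intro h1
    exact (bad_indep hy hb hh ⟨hM, hM0, hMM, h1⟩).2.2.2
  · obtain ⟨L, hL, rfl⟩ := exists_divisor hb M
    intro h1 h2
    have h3 : SY.IitakaGe y L 0 := (effective_iff hy hb hL).2 h2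
    exact (kappa_zero_iff hy hb hL (fun P hP => bir_prime hb hh hM hP) hM0 hMM).1 h3 h1

end Run7.h612.SY
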