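import Pool.Agent.Run7.h612.SY.Main

/-!
The sections on the coverings as vector spaces, and their traces.
-/

set_option autoImplicit false
set_option linter.overlappingInstances false
set_option linter.unusedSectionVars false

open FF Module Pool.Agent.W602.GT Pool.Agent.W603.LV Pool.Agent.W619.PQ
open Pool.Agent.Y172 Pool.Agent.Y191 Pool.Agent.R887
open Run7.h612.AB

namespace Run7.h612.SY

section

variable {K : Type} [Field K] [Algebra ℂ K] {P : Place ℂ K} {q : ℚ} {a : K}

theorem geq_smul (c : ℂ) (ha : GeQ P q a) : GeQ P q (c • a) := by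
  by_cases h1 : c = 0
  · exact Or.inl (by rw [h1, zero_smul])
  rcases ha with h | h
  · exact Or.inl (by rw [h, smul_zero])
  · by_cases ha0 : a = 0
    · exact Or.inl (by rw [ha0, smul_zero])
    right
    rw [Algebra.smul_def, P.ord_mul (by rwa [Ne, map_eq_zero]) ha0, P.ord_const h1, zero_add]
    exact h

end

variable {K L : Type} [Field K] [Algebra ℂ K] [Field L] [Algebra ℂ L]
  [Algebra K L] [IsScalarTower ℂ K L] [FiniteDimensional K L] {N : ℕ} {y : Fin (N + 1) → K} {n : ℕ}
  {T : Place ℂ K → ℚ}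

/-- zero or a section on the covering -/
def LSec (y : Fin (N + 1) → K) (T : Place ℂ K → ℚ) (m : ℕ) (h : L) : Prop :=
  ∀ (Q : Place ℂ L) (P : Place ℂ K) (e : ℕ), Over Q P e → IsPrimeDivisor y P →
    GeQ Q (-(e * (m * T P))) h

theorem lsec_iff {m : ℕ} {h : L} : SY.IsCoverSection y T m h ↔ LSec y T m h :=
  ⟨fun hh Q P e hov hP => hh Q P e hP (liesOver_iff.2 hov),
    fun hh Q P e hP hov => hh Q P e (liesOver_iff.1 hov) hP⟩

theorem lsec_of_csec {m : ℕ} {h : L} (hh : CSec y T m h) : LSec y T m h := by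
  intro Q P e hov hP
  right
  have h1 := hh Q P e hov hP
  linarith

theorem csec_of_lsec {m : ℕ} {h : L} (hh : LSec y T m h) (h0 : h ≠ 0) : CSec y T m h :=
  csec_of (lsec_iff.2 hh) h0

theorem LSec.add {m : ℕ} {h h' : L} (hh : LSec y T m h) (hh' : LSec y T m h') :
    LSec y T m (h + h') := fun Q P e hov hP => (hh Q P e hov hP).add (hh' Q P e hov hP)

theorem LSec.smul {m : ℕ} {h : L} (c : ℂ) (hh : LSec y T m h) : LSec y T m (c • h) :=
  fun Q P e hov hP => geq_smul c (hh Q P e hov hP)

theorem LSec.zero (m : ℕ) : LSec y T m (0 : L) := fun _ _ _ _ _ => Or.inl rfl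

theorem LSec.mul {m m' : ℕ} {h h' : L} (hh : LSec y T m h) (hh' : LSec y T m' h') :
    LSec y T (m + m') (h * h') := by
  intro Q P e hov hP
  have h1 := (hh Q P e hov hP).mul (hh' Q P e hov hP)
  have h2 : (-((e : ℚ) * (((m + m' : ℕ) : ℚ) * T P))) = -(e * (m * T P)) + -(e * (m' * T P)) := by
    push_cast
    ring
  rw [h2]
  exact h1

theorem LSec.one : LSec y T 0 (1 : L) := by
  intro Q P e _ _
  right
  rw [Q.ord_one]
  simp

theorem LSec.pow {m : ℕ} {h : L} (hh : LSec y T m h) (q : ℕ) : LSec y T (q * m) (h ^ q) := by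
  induction q with
  | zero => rw [zero_mul, pow_zero]; exact LSec.one
  | succ q ih =>
    rw [pow_succ, Nat.succ_mul]
    exact ih.mul hh

theorem LSec.up {m : ℕ} {g : K} (hg : KSec y T m g) : LSec y T m (algebraMap K L g) := by
  intro Q P e hov hP
  rcases hg P hP with h | h
  · exact Or.inl (by rw [h, map_zero])
  · right
    rw [hov.2]
    push_cast
    have h1 := mul_le_mul_of_nonneg_left h (show (0 : ℚ) ≤ e from Nat.cast_nonneg _)
    linarith

/-- the space of sections -/
def covSub (L : Type) [Field L] [Algebra ℂ L] [Algebra K L] [IsScalarTower ℂ K L]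
    [FiniteDimensional K L] (y : Fin (N + 1) → K) (T : Place ℂ K → ℚ) (m : ℕ) : Submodule ℂ L where
  carrier := {h | LSec y T m h}
  add_mem' := fun ha hb => LSec.add ha hb
  zero_mem' := LSec.zero m
  smul_mem' := fun c _ hx => LSec.smul c hx

theorem mem_covSub {m : ℕ} {h : L} : h ∈ covSub L y T m ↔ LSec y T m h := Iff.rfl

theorem span_eq (m : ℕ) : Submodule.span ℂ {h : L | SY.IsCoverSection y T m h} =
    covSub L y T m := by
  have h1 : {h : L | SY.IsCoverSection y T m h} = (covSub L y T m : Set L) := by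
    ext h
    exact lsec_iff
  rw [h1, Submodule.span_eq]

theorem coverSections_eq (m : ℕ) : coverSections L y T m = finrank ℂ (covSub L y T m) := by
  unfold coverSections
  rw [span_eq]

theorem lsec_self {m : ℕ} {g : K} : LSec (L := K) y T m g ↔ KSec y T m g := by
  constructor
  · intro h P hP
    have h1 := h P P 1 ⟨Nat.one_pos, fun f => by rw [Nat.cast_one, one_mul]; rfl⟩ hP
    rw [Nat.cast_one, one_mul] at h1
    exact h1
  · intro h
    exact lsec_iff.1 (cover_self h)

/-- the trace of a section on a Galois extension -/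
theorem trace_aux {Ω : Type} [Field Ω] [Algebra ℂ Ω] [Algebra K Ω]
    [Algebra L Ω]
    [IsScalarTower ℂ K Ω] [IsScalarTower ℂ L Ω] [IsScalarTower K L Ω] [FiniteDimensional K Ω]
    [FiniteDimensional L Ω] [IsGalois K Ω] {m : ℕ} {h : L} (hh : LSec y T m h) :
    KSec y T m (Algebra.trace K L h) := by
  classical
  have hcK : CharZero K := charZero_of_injective_algebraMap (algebraMap ℂ K).injective
  obtain ⟨i0, hi0⟩ : ∃ i0 : L →ₐ[K] Ω, i0 = IsScalarTower.toAlgHom K L Ω := ⟨_, rfl⟩
  intro P hP
  obtain ⟨R, e, hR⟩ := exists_above (k := ℂ) (K := K) (L := Ω) P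
  have he : (0 : ℚ) < e := by exact_mod_cast hR.1
  have hsec : ∀ g : Ω ≃ₐ[K] Ω, GeQ R (-(e * (m * T P))) (g (i0 h)) := by
    intro g
    obtain ⟨Q, e', e1, hQ, he1, hee, hord⟩ := below_emb ((g : Ω →ₐ[K] Ω).comp i0) hR
    rcases hh Q P e' hQ hP with h2 | h2
    · exact Or.inl (by rw [h2, map_zero, map_zero])
    · right
      have h3 : R.ord (g (i0 h)) = e1 * Q.ord h := hord h
      have h5 := mul_le_mul_of_nonneg_left h2 (show (0 : ℚ) ≤ e1 from Nat.cast_nonneg _)
      rw [h3, hee]
      push_cast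
      linarith
  have h1 : GeQ R (-(e * (m * T P))) (∑ g : Ω ≃ₐ[K] Ω, g (i0 h)) := GeQ.sum fun g _ => hsec g
  have h2 : algebraMap K Ω (Algebra.trace K Ω (i0 h)) = ∑ g : Ω ≃ₐ[K] Ω, g (i0 h) :=
    trace_eq_sum_automorphisms _
  have h3 : Algebra.trace K Ω (i0 h) = (finrank L Ω : K) * Algebra.trace K L h := by
    have h4 := Algebra.trace_trace (R := K) (S := L) (T := Ω) (i0 h)
    rw [← h4]
    have h5 : i0 h = algebraMap L Ω h := by rw [hi0]; rfl
    rw [h5, Algebra.trace_algebraMap, map_nsmul, nsmul_eq_mul]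
  rw [← h2, h3] at h1
  have hr0 : (finrank L Ω : K) ≠ 0 := by
    have : 0 < finrank L Ω := finrank_pos
    exact_mod_cast this.ne'
  rcases h1 with h4 | h4
  · left
    exact (mul_eq_zero.1 ((map_eq_zero _).1 h4)).resolve_left hr0
  · by_cases h0 : Algebra.trace K L h = 0
    · exact Or.inl h0
    right
    rw [hR.2, P.ord_mul hr0 h0] at h4
    have h5 : P.ord (finrank L Ω : K) = 0 := by
      have h6 : (finrank L Ω : K) = algebraMap ℂ K (finrank L Ω : ℂ) := (map_natCast _ _).symm
      rw [h6]
      refine P.ord_const ?_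
      have : 0 < finrank L Ω := finrank_pos
      exact_mod_cast this.ne'
    rw [h5, zero_add] at h4
    push_cast at h4
    have h6 : (0 : ℚ) ≤ e * ((P.ord (Algebra.trace K L h) : ℚ) + m * T P) := by linarith
    have h7 := nonneg_of_mul_nonneg_right h6 he
    linarith

/-- **The trace of a section is a section.** -/
theorem ksec_trace {m : ℕ} {h : L} (hh : LSec y T m h) :
    KSec y T m (Algebra.trace K L h) := by
  have hcK : CharZero K := charZero_of_injective_algebraMap (algebraMap ℂ K).injective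
  let Ω := IntermediateField.normalClosure K L (AlgebraicClosure L)
  let ik : Algebra ℂ Ω := ((algebraMap K Ω).comp (algebraMap ℂ K)).toAlgebra
  have htow : IsScalarTower ℂ K Ω := IsScalarTower.of_algebraMap_eq fun _ => rfl
  have hfin : FiniteDimensional K Ω := inferInstance
  have hnorm : Normal K Ω := inferInstance
  have hgal : IsGalois K Ω := IsGalois.mk
  have htowL : IsScalarTower ℂ L Ω := IsScalarTower.of_algebraMap_eq fun c => by
    rw [IsScalarTower.algebraMap_apply ℂ K L, ← IsScalarTower.algebraMap_apply K L Ω]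
    rfl
  have hfinL : FiniteDimensional L Ω := FiniteDimensional.right K L Ω
  exact trace_aux (Ω := Ω) hh

end Run7.h612.SY
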