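import Pool.Agent.Run7.h612.AB.Defs

/-!
Definitions: the sections of the pull backs of a divisor to the coverings of a variety, Poisson
brackets and Poisson fibrations.
-/

set_option autoImplicit false

open FF Pool.Agent.W602.GT Pool.Agent.Y172 Pool.Agent.R887 Pool.Agent.N110
open Run7.h612.AB (IsFibration baseDegree)

namespace Run7.h612.SY

section

variable {K : Type} [Field K] [Algebra ℂ K] {N : ℕ}

/-- `D` is a `ℚ`-divisor on `X`: it has finitely many components. -/
def IsDivisor (y : Fin (N + 1) → K) (D : Place ℂ K → ℚ) : Prop :=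
  {P | IsPrimeDivisor y P ∧ D P ≠ 0}.Finite

/-- The rational function `g` on `X` is a section of the divisor `D`: it is zero or
`div g + D ≥ 0`. -/
def IsSectionOf (y : Fin (N + 1) → K) (D : Place ℂ K → ℚ) (g : K) : Prop :=
  ∀ P, IsPrimeDivisor y P → g = 0 ∨ -(D P) ≤ (P.ord g : ℚ)

/-- The Iitaka dimension of `D` is at least `k`: for some `m ≥ 1` there are sections
`g 0, ..., g k` of `m D` such that `g 0 ≠ 0` and the quotients `g i / g 0` are algebraically
independent. -/
def IitakaGe (y : Fin (N + 1) → K) (D : Place ℂ K → ℚ) (k : ℕ) : Prop :=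
  ∃ m : ℕ, 1 ≤ m ∧ ∃ g : Fin (k + 1) → K, (∀ i, IsSectionOf y (m • D) (g i)) ∧ g 0 ≠ 0 ∧
    AlgebraicIndependent ℂ (fun i : Fin k => g i.succ / g 0)

/-- Let `π : X' → X` be the normalization of `X` in the finite extension `L` of the function field
`K`. The function `h` in `L` is a section of `m π^* D`: it is zero, or its order along all prime
divisors `Q` of `X'` is at least `- m e D P`, where `P` is the image of `Q` in `X` and `e` is the
ramification index. -/
def IsCoverSection {L : Type} [Field L] [Algebra ℂ L] [Algebra K L] [IsScalarTower ℂ K L]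
    (y : Fin (N + 1) → K) (D : Place ℂ K → ℚ) (m : ℕ) (h : L) : Prop :=
  ∀ (Q : Place ℂ L) (P : Place ℂ K) (e : ℕ), IsPrimeDivisor y P →
    LiesOver (IsScalarTower.toAlgHom ℂ K L) Q P e → h = 0 ∨ -(e * (m * D P)) ≤ (Q.ord h : ℚ)

/-- `h⁰ (X', m π^* D)`: the dimension of the space of the sections of `m π^* D` on the
normalization `π : X' → X` of `X` in `L`. -/
noncomputable def coverSections (L : Type) [Field L] [Algebra ℂ L] [Algebra K L]
    [IsScalarTower ℂ K L] (y : Fin (N + 1) → K) (D : Place ℂ K → ℚ) (m : ℕ) : ℕ :=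
  Module.finrank ℂ (Submodule.span ℂ {h : L | IsCoverSection y D m h})

/-- The spaces of the sections of `m π^* D` are finite-dimensional for all coverings
`π : X' → X` and all `m ≥ 1`, and zero if the Iitaka dimension of `D` is `-∞`. -/
def FiniteSections (y : Fin (N + 1) → K) (D : Place ℂ K → ℚ) : Prop :=
  ∀ (L : Type) [Field L] [Algebra ℂ L] [Algebra K L] [IsScalarTower ℂ K L]
    [FiniteDimensional K L] (m : ℕ), 1 ≤ m →
    Module.Finite ℂ (Submodule.span ℂ {h : L | IsCoverSection y D m h}) ∧
    (¬ IitakaGe y D 0 → coverSections L y D m = 0)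

/-- `E` is the function field of the base `B` of the Iitaka fibration `X ⇢ B` of `D`: it is
algebraically closed in `K`, it contains the quotients of the sections of `m D` for all `m ≥ 1`, its
transcendence degree is the Iitaka dimension of `D` if this is not `-∞`, and otherwise it is `ℂ`. -/
structure IsIitakaField (y : Fin (N + 1) → K) (D : Place ℂ K → ℚ) (E : IntermediateField ℂ K) :
    Prop where
  closed : IsFibration E
  quot : ∀ (m : ℕ) (g g' : K), 1 ≤ m → IsSectionOf y (m • D) g → IsSectionOf y (m • D) g' →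
    g ≠ 0 → g' / g ∈ E
  dim : ∀ k : ℕ, IitakaGe y D k → ¬ IitakaGe y D (k + 1) → Algebra.trdeg ℂ E = k
  bot : ¬ IitakaGe y D 0 → E = ⊥

/-- The positive intersection product `⟨D⟩ · H ^ (n - 1)` of `D` and `n - 1` hyperplane sections of
`X` is at most `μ`, `n` being the dimension of `X`; if `D` is nef then it is the intersection number
`D · H ^ (n - 1)`. This means, for all effective divisors `A`: for all `ε > 0` there is `t > 0` such
that for all large `m` and all `b ≤ t m` the rational maps given by two sections `g`, `g'` of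
`m D + b A` together with `n - 1` pencils `u` of hyperplane sections have degree at most
`(μ + ε) m`. -/
def ProductLe (y : Fin (N + 1) → K) (n : ℕ) (D : Place ℂ K → ℚ) (μ : ℝ) : Prop :=
  ∀ A : Place ℂ K → ℚ, Effective y A → ∀ ε : ℝ, 0 < ε → ∃ t : ℝ, 0 < t ∧ ∃ m₀ : ℕ, ∀ m b : ℕ,
    m₀ ≤ m → (b : ℝ) ≤ t * m → ∀ u : Fin (n - 1) → K, (∀ a, IsPencil y (u a)) → ∀ g g' : K, g ≠ 0 →
    IsSectionOf y (m • D + b • A) g → IsSectionOf y (m • D + b • A) g' →
      (degreeOver u (fun _ : Fin 1 => g' / g) : ℝ) ≤ (μ + ε) * m

/-- The upper bound for the sections on the coverings: `h⁰ (X', m π^* D)` is at most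
`deg (B' / B) (k + δ max (1, m μ) ^ k)` for all coverings `π : X' → X` and all `m ≥ 1`, where
`X' ⇢ B' → B` is the Stein factorization of `X' ⇢ B`. -/
def CoverSectionsLe (y : Fin (N + 1) → K) (D : Place ℂ K → ℚ)
    (E : IntermediateField ℂ K) (k δ : ℕ) (μ : ℝ) : Prop :=
  ∀ (L : Type) [Field L] [Algebra ℂ L] [Algebra K L] [IsScalarTower ℂ K L]
    [FiniteDimensional K L] (m : ℕ), 1 ≤ m →
    (coverSections L y D m : ℝ) ≤ baseDegree L E * (k + δ * max 1 (m * μ) ^ k)

/-- The operation `br` on the rational functions on `X` is a Poisson bracket on `X`: a Lie bracket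
which is a derivation in each argument and maps the functions without poles along the prime
divisor `P` of `X` to functions without poles along `P`, for all `P`. If `X` is a symplectic
variety, the symplectic form on the regular part of `X` gives such a bracket. -/
structure IsPoisson (y : Fin (N + 1) → K) (br : K → K → K) : Prop where
  anti : ∀ f g, br g f = -br f g
  add : ∀ f g h, br f (g + h) = br f g + br f h
  smul : ∀ (c : ℂ) (f g : K), br f (c • g) = c • br f g
  leibniz : ∀ f g h, br f (g * h) = g * br f h + h * br f g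
  jacobi : ∀ f g h, br f (br g h) + br g (br h f) + br h (br f g) = 0
  regular : ∀ P, IsPrimeDivisor y P → ∀ f g, (f = 0 ∨ 0 ≤ P.ord f) → (g = 0 ∨ 0 ≤ P.ord g) →
    br f g = 0 ∨ 0 ≤ P.ord (br f g)

/-- The subfield `E` of the function field is algebraically closed in it and closed under the
bracket: `E` is the function field of the base `B` of a Poisson fibration `X ⇢ B`, a fibration such
that the Poisson bracket of `X` induces one on `B`. -/
def IsPoissonFibration (br : K → K → K) (E : IntermediateField ℂ K) : Prop :=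
  IsFibration E ∧ ∀ f ∈ E, ∀ g ∈ E, br f g ∈ E

/-- The numbers of sections on the coverings and on `X` have the same growth up to the factor
`deg (B' / B)`: for every covering `π : X' → X` there is `c` such that for all `m ≥ 1`
`deg (B' / B) h⁰ (X, m D)` is at most `h⁰ (X', (m + c) π^* D)`, and `h⁰ (X', m π^* D)` is at most
`deg (B' / B) h⁰ (X, (m + c') D)` for some `c' ≤ c`. -/
def SameGrowth (y : Fin (N + 1) → K) (D : Place ℂ K → ℚ) (E : IntermediateField ℂ K) : Prop :=
  ∀ (L : Type) [Field L] [Algebra ℂ L] [Algebra K L] [IsScalarTower ℂ K L]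
    [FiniteDimensional K L], ∃ c : ℕ, ∀ m : ℕ, 1 ≤ m →
      baseDegree L E * coverSections K y D m ≤ coverSections L y D (m + c) ∧
      ∃ c' : ℕ, c' ≤ c ∧ coverSections L y D m ≤ baseDegree L E * coverSections K y D (m + c')

/-- The numbers `h⁰ (X', m π^* D) / (deg (B' / B) m ^ j)` are unbounded, for all coverings
`π : X' → X` and all `m ≥ 1`, where `X ⇢ B` is the fibration with the field `E` and
`X' ⇢ B' → B` is the Stein factorization of `X' ⇢ B`. -/
def GrowthOver (y : Fin (N + 1) → K) (D : Place ℂ K → ℚ) (E : IntermediateField ℂ K)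
    (j : ℕ) : Prop :=
  ∀ C : ℝ, ∃ (L : Type) (_ : Field L) (_ : Algebra ℂ L) (_ : Algebra K L)
    (_ : IsScalarTower ℂ K L) (_ : FiniteDimensional K L) (m : ℕ), 1 ≤ m ∧
      C * (baseDegree L E * (m : ℝ) ^ j) < coverSections L y D m

end

end Run7.h612.SY
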