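import Pool.Agent.Run7.h612.SY.Defs
import Pool.Agent.Run7.h701.HK.Par

/-!
Definitions: coisotropic subvarieties of codimension two, and Beauville–Bogomolov forms.
-/

set_option autoImplicit false

open FF Pool.Agent.W602.GT Pool.Agent.Y172 Pool.Agent.R887 Pool.Agent.N110
  Pool.Agent.Run7.h701

namespace Run7.h612.SY

section

variable {K : Type} [Field K] [Algebra ℂ K] {N : ℕ}

/-- The dimension of the centre `W` of the place `R` on `X` is at least `d`: there are `d` elements
of the local ring of `X` at `W` whose restrictions to `W` are algebraically independent. -/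
def CentreDimGe (y : Fin (N + 1) → K) (R : Place ℂ K) (d : ℕ) : Prop :=
  ∃ t : Fin d → K, (∀ i, t i ∈ localRing y R) ∧
    ∀ p : MvPolynomial (Fin d) ℂ, p ≠ 0 →
      MvPolynomial.aeval t p ≠ 0 ∧ R.ord (MvPolynomial.aeval t p) = 0

/-- The centre `W` of the place `R` on `X` is coisotropic: in the local ring of `X` at `W` the ideal
of the functions which vanish on `W` is closed under the Poisson bracket. -/
def CoisotropicCentre (br : K → K → K) (y : Fin (N + 1) → K) (R : Place ℂ K) : Prop :=
  ∀ f ∈ localRing y R, ∀ g ∈ localRing y R, (f = 0 ∨ 0 < R.ord f) → (g = 0 ∨ 0 < R.ord g) →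
    br f g = 0 ∨ 0 < R.ord (br f g)

/-- `b` is a Beauville–Bogomolov form on `Cl X ⊗ ℚ = ℚ ^ ρ`, where `c P` is the class of the prime
divisor `P`, compatible with the Poisson bracket: if two different prime divisors `P`, `Q` are
orthogonal then all irreducible components `W` of codimension two of their intersection are
coisotropic, and movable divisors of positive square (it suffices to consider the polar divisors of
rational functions) are big. For a primitive symplectic variety of dimension `n = 2 r` this is true:
`b (c P) (c Q)` is, up to a positive factor, the integral of `(σ σ̄) ^ (r - 1)` over the intersection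
of `P` and `Q`, and the classes in the positive cone are big. -/
structure IsSymplecticForm {ρ : ℕ} (y : Fin (N + 1) → K) (n : ℕ) (br : K → K → K)
    (c : Place ℂ K → Fin ρ → ℚ) (b : LinearMap.BilinForm ℚ (Fin ρ → ℚ)) : Prop where
  form : HK.IsBBForm y c b
  coisotropic : ∀ P Q, IsPrimeDivisor y P → IsPrimeDivisor y Q → P ≠ Q → b (c P) (c Q) = 0 →
    ∀ R : Place ℂ K, Through y P R → Through y Q R → CentreDimGe y R (n - 2) →
      CoisotropicCentre br y R
  big : ∀ f : K, 0 < b (cls y c (HK.polar f)) (cls y c (HK.polar f)) → IitakaGe y (HK.polar f) n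

/-- The fibration `X ⇢ B` with the field `E` is coisotropic: `E` is algebraically closed in the
function field, and the Poisson bracket is zero on `E`. -/
def IsCoisotropicFibration (br : K → K → K) (E : IntermediateField ℂ K) : Prop :=
  Run7.h612.AB.IsFibration E ∧ ∀ f ∈ E, ∀ g ∈ E, br f g = 0

end

end Run7.h612.SY
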