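import Pool.Agent.Run7.h612.SY.Poisson
import Pool.Agent.Run7.h612.AB.Main2

/-!
The degrees of the maps given by the sections of the pull back of a divisor on a covering.
-/

set_option autoImplicit false
set_option linter.overlappingInstances false
set_option linter.unusedSectionVars false

open FF Module MvPolynomial Pool.Agent.W602.GT Pool.Agent.W603.LV Pool.Agent.W619.PQ
open Pool.Agent.Y172 Pool.Agent.Y191 Pool.Agent.R887
open Pool.Agent.N110 (affS)
open Run7.h612.AB (CSec deg_dom CSec.pow)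

namespace Run7.h612.SY

variable {K L : Type} [Field K] [Algebra ℂ K] [Field L] [Algebra ℂ L]
  [Algebra K L] [IsScalarTower ℂ K L] [FiniteDimensional K L] {N : ℕ} {y : Fin (N + 1) → K} {n : ℕ}

theorem sec_degT {A T : Place ℂ K → ℚ} (hA : Effective y A) {μ : ℝ}
    (hpp : ProductLe y n T μ) :
    ∀ ε : ℝ, 0 < ε → ∃ t : ℝ, 0 < t ∧ ∃ m0 : ℕ, ∀ m b : ℕ, m0 ≤ m → (b : ℝ) ≤ t * m →
      ∀ k k' : K, k ≠ 0 → k' ≠ 0 → Sec y T A m b k → Sec y T A m b k' →
      ∀ u : Fin (n - 1) → K, (∀ a, IsPencil y (u a)) →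
        (degreeOver u (fun _ : Fin 1 => k' / k) : ℝ) ≤ (μ + ε) * m := by
  intro ε hε
  obtain ⟨t, ht, m0, h⟩ := hpp A hA ε hε
  have h1 : ∀ (m b : ℕ) (k : K), Sec y T A m b k → IsSectionOf y (m • T + b • A) k := by
    intro m b k hk P hP
    right
    have h2 := hk P hP
    rw [Pi.add_apply, Pi.smul_apply, Pi.smul_apply, nsmul_eq_mul, nsmul_eq_mul]
    linarith
  exact ⟨t, ht, m0, fun m b hm hb k k' hk0 _ hk hk' u hu => h m b hm hb u hu k k' hk0
    (h1 m b k hk) (h1 m b k' hk')⟩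

/-- **The degrees of the maps given by the sections on a covering.** -/
theorem cover_degT (hy : NormalModel y) (hn : Algebra.trdeg ℂ K = n) (hn0 : 0 < n)
    {T : Place ℂ K → ℚ} (hTfin : IsDivisor y T) {μ : ℝ} (hμ : 0 ≤ μ)
    (hpp : ProductLe y n T μ) {i : Fin (N + 1)} (hi : y i ≠ 0) {δ : ℕ}
    (hδ : ∀ v : Fin n → K, (∀ a, v a ∈ Submodule.span ℂ (affS y i)) → dg ℂ v ≤ δ) {m : ℕ}
    (hm : 1 ≤ m) {j : ℕ} (hj : j ≤ n) {u : Fin (n - j) → K}
    (hu : ∀ a, u a ∈ Submodule.span ℂ (affS y i)) {h : Fin (j + 1) → L}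
    (h0 : ∀ i, h i ≠ 0) (hh : ∀ i, CSec y T m (h i)) :
    (dg ℂ (Sum.elim (fun a => algebraMap K L (u a)) fun i : Fin j => h i.succ / h 0) : ℝ) ≤
      finrank K L * δ * (m * μ) ^ j := by
  classical
  have hess := hy.ess
  obtain ⟨A, hA, hAP⟩ := exists_hyp hy hi
  have hmr : (0 : ℝ) < m := by exact_mod_cast hm
  -- the descent of the powers
  have hdesc : ∀ (q : ℕ) (i : Fin (j + 1)) (Q : Place ℂ L) (P : Place ℂ K) (e : ℕ), Over Q P e →
      ∃ (M : ℕ) (k : K), 1 ≤ M ∧ k ≠ 0 ∧ Sec y T A (M * (q * m)) 0 k ∧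
        (e : ℤ) * P.ord k ≤ M * Q.ord (h i ^ q) := by
    intro q i Q P e hov
    obtain ⟨M, k, hM, hk0, hk, hk1⟩ := descend (T := T) (A := A) (m := q * m) (b := 0)
      (pow_ne_zero q (h0 i)) (fun Q P e hov hP => by
        have h1 := (hh i).pow q Q P e hov hP
        push_cast at h1 ⊢
        rw [zero_mul, add_zero]
        exact h1) hov
    rw [mul_zero] at hk
    exact ⟨M, k, hM, hk0, hk, hk1⟩
  have hps : PsT y T A := by
    intro t ht m0
    obtain ⟨P0, hP0⟩ := exists_prime hy hn hn0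
    obtain ⟨Q0, e0, hQ0⟩ := exists_above (k := ℂ) (K := K) (L := L) P0
    obtain ⟨M, k, hM, hk0, hk, -⟩ := hdesc (m0 + 1) 0 Q0 P0 e0 hQ0
    refine ⟨M * ((m0 + 1) * m), 0, k, ?_, ?_, hk0, hk⟩
    · calc m0 ≤ (m0 + 1) * 1 := by omega
        _ ≤ (m0 + 1) * m := Nat.mul_le_mul_left _ hm
        _ ≤ M * ((m0 + 1) * m) := Nat.le_mul_of_pos_left _ hM
    · rw [Nat.cast_zero]
      positivity
  obtain ⟨d, hd⟩ : ∃ d, d = finrank K L := ⟨_, rfl⟩
  rw [← hd]
  obtain ⟨w, hw⟩ : ∃ w : Fin (n - j) ⊕ Fin j → L, w = Sum.elim (fun a => algebraMap K L (u a))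
    fun i : Fin j => h i.succ / h 0 := ⟨_, rfl⟩
  rw [← hw]
  -- the bound for all `ε`
  have hmain : ∀ ε : ℝ, 0 < ε → (dg ℂ w : ℝ) ≤ d * δ * (m * (μ + 2 * ε)) ^ j := by
    intro ε hε
    obtain ⟨s, a, M, θ, κ, t, m0, hs1, hM1, hθ0, ht, has, hθ, hlow⟩ :=
      exists_theta hy hn hn0 hi hTfin hA hAP hμ (sec_degT hA hpp) hps hε
    have hs0 : (0 : ℝ) < s := by exact_mod_cast hs1
    have h1 := deg_dom (L := L) hy hn hi hAP hδ hs1 hθ0 (κ := fun P => (κ P : ℝ) / M) (T := T)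
      (m := m) hθ hj hu h0 (fun b Q P e hov hP => by
        obtain ⟨M', k, hM', hk0, hk, hk1⟩ := hdesc (m0 + 1) b Q P e hov
        have h4 := hlow (M' * ((m0 + 1) * m)) 0 (by
          calc m0 ≤ (m0 + 1) * 1 := by omega
            _ ≤ (m0 + 1) * m := Nat.mul_le_mul_left _ hm
            _ ≤ M' * ((m0 + 1) * m) := Nat.le_mul_of_pos_left _ hM') (by
          rw [Nat.cast_zero]
          positivity) k hk0 hk P hP
        have h5 : (e : ℝ) * (P.ord k : ℝ) ≤ M' * (((m0 + 1 : ℕ) : ℝ) * (Q.ord (h b) : ℝ)) := by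
          have h6 := hk1
          rw [Q.ord_pow] at h6
          exact_mod_cast h6
        have h6 := mul_le_mul_of_nonneg_left h4 (show (0 : ℝ) ≤ e from Nat.cast_nonneg _)
        have hpos : (0 : ℝ) < M' * ((m0 + 1 : ℕ) : ℝ) := by
          have : (0 : ℝ) < M' := by exact_mod_cast hM'
          positivity
        have h7 : (M' * ((m0 + 1 : ℕ) : ℝ)) * ((e : ℝ) * (m * ((κ P : ℝ) / M))) ≤
            (M' * ((m0 + 1 : ℕ) : ℝ)) * ((Q.ord (h b) : ℝ) + e * (m * (T P : ℝ))) := by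
          push_cast at h6 h5 ⊢
          linarith
        exact le_of_mul_le_mul_left h7 hpos)
    rw [← hw, ← hd] at h1
    have h3 : (s : ℝ) ^ j * dg ℂ w ≤ ((m : ℝ) * a) ^ j * (δ * d) := by exact_mod_cast h1
    have h4 : (m : ℝ) * a ≤ s * (m * (μ + 2 * ε)) := by
      have := mul_le_mul_of_nonneg_left has hmr.le
      linarith
    have h5 : ((m : ℝ) * a) ^ j ≤ (s * (m * (μ + 2 * ε))) ^ j :=
      pow_le_pow_left₀ (by positivity) h4 j
    have h6 : (s : ℝ) ^ j * dg ℂ w ≤ s ^ j * (d * δ * (m * (μ + 2 * ε)) ^ j) := by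
      refine h3.trans ?_
      have h7 := mul_le_mul_of_nonneg_right h5 (show (0 : ℝ) ≤ δ * d by positivity)
      refine h7.trans (le_of_eq ?_)
      rw [mul_pow]
      ring
    exact le_of_mul_le_mul_left h6 (by positivity)
  -- the limit
  have hlim : Filter.Tendsto (fun ε : ℝ => (d : ℝ) * δ * (m * (μ + 2 * ε)) ^ j)
      (nhdsWithin 0 (Set.Ioi 0)) (nhds (d * δ * (m * (μ + 2 * 0)) ^ j)) := by
    refine Filter.Tendsto.mono_left ?_ nhdsWithin_le_nhds
    exact ((((Filter.tendsto_id.const_mul 2).const_add _).const_mul _).pow j).const_mul _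
  rw [mul_zero, add_zero] at hlim
  exact ge_of_tendsto hlim (Filter.eventually_of_mem self_mem_nhdsWithin fun ε hε => hmain ε hε)

end Run7.h612.SY
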