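import Pool.Agent.Run7.h612.SY.Obt

/-!
**Effectivity of isotropic divisors and linear relations between the orthogonal prime divisors.**
-/

set_option autoImplicit false
set_option linter.overlappingInstances false
set_option linter.unusedSectionVars false

open FF Module Pool.Agent.W602.GT Pool.Agent.Y172 Pool.Agent.R887 Pool.Agent.N110
  Pool.Agent.Run7.h701
open Run7.h612.AB (GeQ KSec ISet IField KGe)
open Pool.Agent.N110.NV (Fin0)

namespace Run7.h612.SY

/-- The classes of the prime divisors orthogonal to `L` are linearly dependent. -/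
def DependentPrimes {K : Type} [Field K] [Algebra ℂ K] {N ρ : ℕ} (y : Fin (N + 1) → K)
    (c : Place ℂ K → Fin ρ → ℚ) (b : LinearMap.BilinForm ℚ (Fin ρ → ℚ)) (L : Place ℂ K → ℚ) :
    Prop :=
  ¬ LinearIndependent ℚ fun P : HK.orth y c b L => c P

/-- The classes of the prime divisors orthogonal to `L` and the class of `L` are linearly
dependent. -/
def DependentWith {K : Type} [Field K] [Algebra ℂ K] {N ρ : ℕ} (y : Fin (N + 1) → K)
    (c : Place ℂ K → Fin ρ → ℚ) (b : LinearMap.BilinForm ℚ (Fin ρ → ℚ)) (L : Place ℂ K → ℚ) :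
    Prop :=
  ¬ LinearIndependent ℚ fun o : Option (HK.orth y c b L) =>
    o.elim (cls y c L) fun P => c P

variable {K : Type} [Field K] [Algebra ℂ K] {N ρ n : ℕ} {y : Fin (N + 1) → K}
  {c : Place ℂ K → Fin ρ → ℚ} {b : LinearMap.BilinForm ℚ (Fin ρ → ℚ)} {T : Place ℂ K → ℚ}
  {br : K → K → K}

/-- **Positive Iitaka dimension.** -/
theorem kappa_one_iff (hy : NormalModel y) (hb : HK.IsBBForm y c b) (hT : IsDivisor y T)
    (hmov : ∀ P, IsPrimeDivisor y P → 0 ≤ b (cls y c T) (c P))
    (hne : cls y c T ≠ 0) (hiso : b (cls y c T) (cls y c T) = 0) :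
    SY.IitakaGe y T 1 ↔ DependentPrimes y c b T := by
  classical
  constructor
  · intro h hli
    have h2 : (HK.orth y c b T).Infinite := HK.inf_of_iitaka hy hb hiso hmov hT h
    have h3 : Infinite (HK.orth y c b T) := h2.to_subtype
    exact not_finite_iff_infinite.2 h3 (hli.finite_of_isNoetherian)
  · intro h
    unfold DependentPrimes at h
    rw [linearIndependent_iff'] at h
    push Not at h
    obtain ⟨s, g, hg, Q, hQ, hQ0⟩ := h
    have hrel : ∑ P ∈ s.image Subtype.val, (if h : P ∈ HK.orth y c b T then g ⟨P, h⟩ else 0) • c P +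
        (0 : ℚ) • cls y c T = 0 := by
      rw [zero_smul, add_zero, Finset.sum_image Subtype.val_injective.injOn, ← hg]
      exact Finset.sum_congr rfl fun P _ => by rw [dif_pos P.2]
    exact (HK.rel hy hb hne hiso hmov hT (S := s.image Subtype.val) (fun P hP => by
      obtain ⟨P', -, rfl⟩ := Finset.mem_image.1 hP
      exact P'.2) hrel (Finset.mem_image_of_mem _ hQ) (by rw [dif_pos Q.2]; exact hQ0)).2 rfl

/-- **Effectivity.** -/
theorem kappa_zero_iff (hy : NormalModel y) (hb : HK.IsBBForm y c b) (hT : IsDivisor y T)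
    (hmov : ∀ P, IsPrimeDivisor y P → 0 ≤ b (cls y c T) (c P))
    (hne : cls y c T ≠ 0) (hiso : b (cls y c T) (cls y c T) = 0) :
    SY.IitakaGe y T 0 ↔ DependentWith y c b T := by
  classical
  constructor
  · rintro ⟨m, hm, g, hs, hg, -⟩ hli
    have hfE : Fin0 y (fun Q => (Q.ord (g 0) : ℚ) + (m : ℚ) * T Q) :=
      (HK.fin_ord hy hg).add (Fin0.smul hT _)
    have hcl : cls y c (fun Q => (Q.ord (g 0) : ℚ) + (m : ℚ) * T Q) = (m : ℚ) • cls y c T := by
      rw [Pool.Agent.N110.NV.cls_add (HK.fin_ord hy hg) (Fin0.smul hT _),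
        hb.classes.principal _ hg, zero_add, Pool.Agent.N110.NV.cls_smul]
    obtain ⟨S, hS, hS0, hS1⟩ := HK.exists_finset hfE
    have hSo : ∀ P ∈ S, P ∈ HK.orth y c b T := by
      intro P hP
      by_contra h
      apply hS0 P hP
      have h1 := HK.member_orth hy hb hiso hmov hT hg (hs 0) (hS P hP) h
      rw [h1]
      ring
    rw [Pool.Agent.N110.NV.cls_finset hS hS1] at hcl
    rw [linearIndependent_iff'] at hli
    have h1 := hli (insert none ((S.attach.image fun P : S =>
        some (⟨P, hSo P P.2⟩ : HK.orth y c b T))))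
      (fun o => o.elim (-(m : ℚ)) fun P => (P : Place ℂ K).ord (g 0) + (m : ℚ) * T P) (by
      rw [Finset.sum_insert (by simp), Finset.sum_image (by
        intro P _ Q _ h
        exact Subtype.ext (congrArg (fun z : Option (HK.orth y c b T) =>
          z.elim (P : Place ℂ K) fun w => (w : Place ℂ K)) h))]
      have h2 : ∑ P ∈ S.attach, (((P : Place ℂ K).ord (g 0) : ℚ) + (m : ℚ) * T P) • c P =
          (m : ℚ) • cls y c T := by
        rw [← hcl, ← Finset.sum_attach S]
      simp only [Option.elim]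
      rw [h2, neg_smul, neg_add_cancel]) none (Finset.mem_insert_self _ _)
    have h3 : (m : ℚ) = 0 := neg_eq_zero.1 h1
    have h4 : m = 0 := by exact_mod_cast h3
    omega
  · intro h
    unfold DependentWith at h
    rw [linearIndependent_iff'] at h
    push Not at h
    obtain ⟨s, g, hg, o, ho, ho0⟩ := h
    obtain ⟨s', hs'⟩ : ∃ s' : Finset (HK.orth y c b T), s' = s.eraseNone := ⟨_, rfl⟩
    have hrel : ∑ P ∈ s'.image Subtype.val, (if h : P ∈ HK.orth y c b T then
        g (some ⟨P, h⟩) else 0) • c P + (if none ∈ s then g none else 0) • cls y c T = 0 := by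
      rw [Finset.sum_image Subtype.val_injective.injOn, ← hg]
      have h1 : ∑ P ∈ s', (if h : (P : Place ℂ K) ∈ HK.orth y c b T then
          g (some ⟨P, h⟩) else 0) • c P = ∑ P ∈ s', g (some P) • c P :=
        Finset.sum_congr rfl fun P _ => by rw [dif_pos P.2]
      rw [h1]
      by_cases hn : none ∈ s
      · rw [if_pos hn]
        have h2 : s = insert none (s'.map Function.Embedding.some) := by
          ext z
          rw [hs']
          cases z with
          | none => simp [hn]
          | some z => simp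
        rw [h2, Finset.sum_insert (by simp), Finset.sum_map, add_comm]
        rfl
      · rw [if_neg hn, zero_smul, add_zero]
        have h2 : s = s'.map Function.Embedding.some := by
          ext z
          rw [hs']
          cases z with
          | none => simp [hn]
          | some z => simp
        rw [h2, Finset.sum_map]
        rfl
    have hsome : ∃ P ∈ s', g (some P) ≠ 0 := by
      by_contra hcon
      push Not at hcon
      have h1 : ∑ P ∈ s'.image Subtype.val, (if h : P ∈ HK.orth y c b T then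
          g (some ⟨P, h⟩) else 0) • c P = 0 := by
        rw [Finset.sum_image Subtype.val_injective.injOn]
        refine Finset.sum_eq_zero fun P hP => ?_
        rw [dif_pos P.2, hcon P hP, zero_smul]
      rw [h1, zero_add] at hrel
      have h2 := (smul_eq_zero.1 hrel).resolve_right hne
      cases o with
      | none =>
        rw [if_pos ho] at h2
        exact ho0 h2
      | some P =>
        refine ho0 (hcon P ?_)
        rw [hs', Finset.mem_eraseNone]
        exact ho
    obtain ⟨P, hP, hP0⟩ := hsome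
    exact (HK.rel hy hb hne hiso hmov hT (S := s'.image Subtype.val) (fun P hP => by
      obtain ⟨P', -, rfl⟩ := Finset.mem_image.1 hP
      exact P'.2) hrel (Finset.mem_image_of_mem _ hP) (by rw [dif_pos P.2]; exact hP0)).1

/-- the orthogonal prime divisors of a divisor which is not effective -/
theorem neg_of_not_effective (hy : NormalModel y) (hb : HK.IsBBForm y c b) (hT : IsDivisor y T)
    (hmov : ∀ P, IsPrimeDivisor y P → 0 ≤ b (cls y c T) (c P))
    (hne : cls y c T ≠ 0) (hiso : b (cls y c T) (cls y c T) = 0) (h0 : ¬ SY.IitakaGe y T 0)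
    {P : Place ℂ K} (hP : P ∈ HK.orth y c b T) : b (c P) (c P) < 0 := by
  obtain ⟨h1, h2⟩ := HK.hodge hb hne hiso hP.2
  refine lt_of_le_of_ne h1 fun h3 => h0 ?_
  obtain ⟨m, k, g, hm, hk, hg, hgP, hgQ⟩ := member_of_prop hy hb hT hmov hne hiso ⟨hP, h2 h3⟩
  refine ⟨m, hm, fun _ => g, fun _ Q hQ => ?_, hg, ?_⟩
  · right
    rw [smul_apply']
    by_cases hQP : Q = P
    · rw [hQP, hgP]
      have : (0 : ℚ) ≤ k := Nat.cast_nonneg _
      linarith
    · rw [hgQ Q hQ hQP]
  · rw [algebraicIndependent_empty_type_iff]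
    exact (algebraMap ℂ K).injective

/-- effective divisors in the class of `L` -/
theorem effective_iff (hy : NormalModel y) (hb : HK.IsBBForm y c b) (hT : IsDivisor y T) :
    SY.IitakaGe y T 0 ↔ ∃ D : Place ℂ K → ℚ, Effective y D ∧ cls y c D = cls y c T := by
  constructor
  · rintro ⟨m, hm, g, hs, hg, -⟩
    have hm0 : (0 : ℚ) < m := by exact_mod_cast hm
    have hf1 : Fin0 y (fun Q => ((m : ℚ)⁻¹) * (Q.ord (g 0) : ℚ)) := Fin0.smul (HK.fin_ord hy hg) _
    refine ⟨fun Q => (m : ℚ)⁻¹ * (Q.ord (g 0) : ℚ) + T Q, ⟨fun Q hQ => ?_, hf1.add hT⟩, ?_⟩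
    · change 0 ≤ (m : ℚ)⁻¹ * (Q.ord (g 0) : ℚ) + T Q
      have h1 := (hs 0 Q hQ).resolve_left hg
      rw [smul_apply'] at h1
      have h2 : (m : ℚ)⁻¹ * (Q.ord (g 0) : ℚ) + T Q = (m : ℚ)⁻¹ * ((Q.ord (g 0) : ℚ) + m * T Q) := by
        rw [mul_add, ← mul_assoc, inv_mul_cancel₀ hm0.ne', one_mul]
      rw [h2]
      exact mul_nonneg (inv_nonneg.2 hm0.le) (by linarith)
    · rw [Pool.Agent.N110.NV.cls_add hf1 hT, Pool.Agent.N110.NV.cls_smul,
        hb.classes.principal _ hg, smul_zero, zero_add]
  · rintro ⟨D, hD, hcl⟩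
    have h1 := HK.iit0 hb hT hD one_pos (by rw [hcl, one_smul])
    exact h1

/-- the number of the orthogonal prime divisors of a divisor which is not effective -/
theorem card_of_not_effective (hy : NormalModel y) (hb : HK.IsBBForm y c b) (hT : IsDivisor y T)
    (hmov : ∀ P, IsPrimeDivisor y P → 0 ≤ b (cls y c T) (c P))
    (hne : cls y c T ≠ 0) (hiso : b (cls y c T) (cls y c T) = 0) (h0 : ¬ SY.IitakaGe y T 0) :
    (HK.orth y c b T).Finite ∧ (HK.orth y c b T).ncard + 2 ≤ ρ := by
  classical
  have h1 : ∀ S : Finset (Place ℂ K), (∀ P ∈ S, P ∈ HK.orth y c b T) → S.card + 2 ≤ ρ := by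
    intro S hS
    by_contra hcon
    exact h0 ((HK.many hy hb hne hiso hmov hT hS).1 (by omega))
  have hfin : (HK.orth y c b T).Finite := by
    by_contra h
    obtain ⟨S, hS, hc⟩ := Set.Infinite.exists_subset_card_eq h ρ
    have := h1 S fun P hP => hS hP
    omega
  refine ⟨hfin, ?_⟩
  rw [Set.ncard_eq_toFinset_card _ hfin]
  exact h1 _ fun P hP => (Set.Finite.mem_toFinset hfin).1 hP

theorem kappa_iff_noFixed (hy : NormalModel y) (hb : HK.IsBBForm y c b) (hT : IsDivisor y T)
    (hmov : ∀ P, IsPrimeDivisor y P → 0 ≤ b (cls y c T) (c P))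
    (hne : cls y c T ≠ 0) (hiso : b (cls y c T) (cls y c T) = 0) :
    SY.IitakaGe y T 1 ↔ ∃ m : ℕ, 1 ≤ m ∧ NoFixedComponent y (m • T) := by
  constructor
  · intro h
    obtain ⟨m, hm, h1, -⟩ := base_main hy hb hT hmov hne hiso h
    exact ⟨m, hm, h1⟩
  · rintro ⟨m, hm, h⟩
    exact kappa_of_noFixed hb hT hne hm h

end Run7.h612.SY
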