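import Pool.Agent.Run7.h612.SY.Big

/-!
**The growth criterion over coisotropic fibrations.**
-/

set_option autoImplicit false
set_option linter.overlappingInstances false
set_option linter.unusedSectionVars false

open FF Module Pool.Agent.W602.GT Pool.Agent.Y172 Pool.Agent.R887 Pool.Agent.N110
  Pool.Agent.Run7.h701

namespace Run7.h612.SY

/-- The divisor `D` has growth `ν` over all Poisson fibrations `X ⇢ B` with `dim B < ν`: the numbers
`h⁰ (X', m π^* D) / (deg (B' / B) m ^ dim B)` are unbounded. -/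
def PoissonGrowth {K : Type} [Field K] [Algebra ℂ K] {N : ℕ} (br : K → K → K)
    (y : Fin (N + 1) → K) (D : Place ℂ K → ℚ) (ν : ℕ) : Prop :=
  ∀ (E : IntermediateField ℂ K) (j : ℕ), IsPoissonFibration br E → Algebra.trdeg ℂ E = j →
    j < ν → GrowthOver y D E j

/-- The same for all coisotropic fibrations `X ⇢ B` with `dim B < ν`. -/
def CoisotropicGrowth {K : Type} [Field K] [Algebra ℂ K] {N : ℕ} (br : K → K → K)
    (y : Fin (N + 1) → K) (D : Place ℂ K → ℚ) (ν : ℕ) : Prop :=
  ∀ (E : IntermediateField ℂ K) (j : ℕ), IsCoisotropicFibration br E → Algebra.trdeg ℂ E = j →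
    j < ν → GrowthOver y D E j

variable {K : Type} [Field K] [Algebra ℂ K] {N ρ n : ℕ} {y : Fin (N + 1) → K}
  {c : Place ℂ K → Fin ρ → ℚ} {b : LinearMap.BilinForm ℚ (Fin ρ → ℚ)} {T : Place ℂ K → ℚ}
  {br : K → K → K}

/-- the Iitaka dimension is large if the numbers of the sections on the coverings grow over all
coisotropic fibrations -/
theorem kappa_of_growthC (hy : NormalModel y) (hn : Algebra.trdeg ℂ K = n)
    (hbr : IsPoisson y br) (hb : IsSymplecticForm y n br c b) (hT : IsDivisor y T) {ν : ℕ}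
    (hν : 1 ≤ ν) (hνn : ν ≤ n) (hg : CoisotropicGrowth br y T ν) : SY.IitakaGe y T ν := by
  classical
  by_contra hcon
  have hbig : ¬ SY.IitakaGe y T n := fun h => hcon (iitaka_mono hνn h)
  have hcomm := comm_field hy hn hbr hb (E := AB.IField y T)
    fun f hf => iso_of_not_big hy hb hbig hf
  have hcois : IsCoisotropicFibration br (AB.IField y T) := ⟨(iitakaField T).closed, hcomm⟩
  by_cases h0 : SY.IitakaGe y T 0
  · obtain ⟨k, hk, hk'⟩ : ∃ k, SY.IitakaGe y T k ∧ ¬ SY.IitakaGe y T (k + 1) := by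
      by_contra hne
      push Not at hne
      exact hcon (Nat.rec h0 (fun k hk => hne k hk) ν)
    have hkν : k < ν := by
      by_contra h1
      push Not at h1
      exact hcon (iitaka_mono h1 hk)
    exact hk' (kappa_of_growthT hy hn hT (Nat.succ_pos k)
      (hg _ k hcois ((iitakaField T).dim k hk hk') hkν))
  · obtain ⟨L, _, _, _, _, _, m, hm, hlt⟩ := hg (AB.IField y T) 0 hcois (by
      rw [(iitakaField T).bot h0]
      have h1 : Algebra.trdeg ℂ (⊥ : IntermediateField ℂ K) = 0 := by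
        have h2 := (IntermediateField.botEquiv ℂ K).trdeg_eq
        rw [h2]
        exact _root_.trdeg_eq_zero
      rw [h1, Nat.cast_zero]) hν 0
    rw [zero_mul, (finite_sections hy hn hT L m hm).2 h0, Nat.cast_zero] at hlt
    exact lt_irrefl _ hlt

/-- **The criterion.** -/
theorem criterion' (hy : NormalModel y) (hn : Algebra.trdeg ℂ K = n) (hbr : IsPoisson y br)
    (hT : IsDivisor y T) {ν : ℕ} (hν : 1 ≤ ν) :
    (SY.IitakaGe y T ν ↔ GrowthOver y T (AB.IField y T) (ν - 1)) ∧
    (SY.IitakaGe y T ν ↔ PoissonGrowth br y T ν) :=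
  ⟨⟨fun h => growth_of_kappaT hy hn hT h _ (by omega), kappa_of_growthT hy hn hT hν⟩,
    ⟨fun h _ _ _ _ hj => growth_of_kappaT hy hn hT h _ hj, kappa_of_growthP hy hn hbr hT hν⟩⟩

theorem criterionC (hy : NormalModel y) (hn : Algebra.trdeg ℂ K = n) (hbr : IsPoisson y br)
    (hb : IsSymplecticForm y n br c b) (hT : IsDivisor y T) {ν : ℕ} (hν : 1 ≤ ν) (hνn : ν ≤ n) :
    SY.IitakaGe y T ν ↔ CoisotropicGrowth br y T ν :=
  ⟨fun h _ _ _ _ hj => growth_of_kappaT hy hn hT h _ hj,
    kappa_of_growthC hy hn hbr hb hT hν hνn⟩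

end Run7.h612.SY
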