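import Pool.Agent.Run7.h612.SY.Mult

/-!
**The growth of the numbers of sections on a covering, II.**
-/

set_option autoImplicit false
set_option linter.overlappingInstances false
set_option linter.unusedSectionVars false

open FF Module Pool.Agent.W602.GT Pool.Agent.W603.LV Pool.Agent.W619.PQ
open Pool.Agent.Y172 Pool.Agent.Y191 Pool.Agent.R887
open Run7.h612.AB

namespace Run7.h612.SY

variable {K L : Type} [Field K] [Algebra ℂ K] [Field L] [Algebra ℂ L]
  [Algebra K L] [IsScalarTower ℂ K L] [FiniteDimensional K L] {N : ℕ} {y : Fin (N + 1) → K} {n : ℕ}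
  {T : Place ℂ K → ℚ}

/-- common multiples of the elements of a basis -/
theorem exists_common {m0 : ℕ} (hm0 : 1 ≤ m0) {g0 : K} (hg0 : g0 ≠ 0) (hs : KSec y T m0 g0)
    {b : Finset L} (hb : ∀ x ∈ b, IsAlgebraic (IField y T) x) :
    ∃ (c : ℕ) (t : K), t ≠ 0 ∧ ∀ x ∈ b, LSec y T c (algebraMap K L t * x) := by
  classical
  have h1 : ∀ x : L, ∃ (c : ℕ) (t : K), t ≠ 0 ∧ KSec y T c t ∧
      (x ∈ b → LSec y T c (algebraMap K L t * x)) := by
    intro x
    by_cases hx : x ∈ b
    · obtain ⟨c, t, h2, h3, h4⟩ := exists_mult hm0 hg0 hs (hb x hx)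
      exact ⟨c, t, h2, h3, fun _ => h4⟩
    · exact ⟨m0, g0, hg0, hs, fun h => absurd h hx⟩
  choose c t ht hts htx using h1
  refine ⟨∑ x ∈ b, c x, ∏ x ∈ b, t x, Finset.prod_ne_zero_iff.2 fun x _ => ht x, fun x hx => ?_⟩
  rw [← Finset.add_sum_erase _ _ hx, ← Finset.mul_prod_erase _ _ hx, map_mul]
  have h2 := (htx x hx).mul (LSec.up (L := L) (KSec.prod (s := b.erase x) fun l _ => hts l))
  have h3 : algebraMap K L (t x) * algebraMap K L (∏ l ∈ b.erase x, t l) * x =
      algebraMap K L (t x) * x * algebraMap K L (∏ l ∈ b.erase x, t l) := by ring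
  rw [h3]
  exact h2

theorem finite_covSub (hy : NormalModel y) (hn : Algebra.trdeg ℂ K = n) (hT : IsDivisor y T) {m : ℕ}
    (hm : 1 ≤ m) : Module.Finite ℂ (covSub L y T m) := by
  have h1 := (finite_sections hy hn hT L m hm).1
  rwa [span_eq] at h1

/-- **Many sections on the covering.** -/
theorem growth_ge (hy : NormalModel y) (hn : Algebra.trdeg ℂ K = n) (hT : IsDivisor y T)
    {b : Finset L} (hli : LinearIndependent K (Subtype.val : b → L)) {c : ℕ} {t : K} (ht : t ≠ 0)
    (hbt : ∀ x ∈ b, LSec y T c (algebraMap K L t * x)) {m : ℕ} (hm : 1 ≤ m) :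
    b.card * coverSections K y T m ≤ coverSections L y T (m + c) := by
  classical
  rw [coverSections_eq, coverSections_eq]
  have hfin1 := finite_covSub (L := K) hy hn hT hm
  have hfin2 := finite_covSub (L := L) hy hn hT (show 1 ≤ m + c by omega)
  have htL : algebraMap K L t ≠ 0 := by rwa [Ne, map_eq_zero]
  obtain ⟨F, hF⟩ : ∃ F : (b → covSub K y T m) → L, ∀ g, F g =
      ∑ x : b, algebraMap K L (g x : K) * (algebraMap K L t * x) := ⟨_, fun g => rfl⟩
  have hF1 : ∀ g g', F (g + g') = F g + F g' := by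
    intro g g'
    rw [hF, hF, hF, ← Finset.sum_add_distrib]
    refine Finset.sum_congr rfl fun x _ => ?_
    rw [Pi.add_apply, Submodule.coe_add, map_add]
    ring
  have hF2 : ∀ (a : ℂ) g, F (a • g) = a • F g := by
    intro a g
    rw [hF, hF, Finset.smul_sum]
    refine Finset.sum_congr rfl fun x _ => ?_
    rw [Pi.smul_apply, Submodule.coe_smul, Algebra.smul_def, Algebra.smul_def, map_mul,
      ← IsScalarTower.algebraMap_apply ℂ K L]
    ring
  obtain ⟨φ, hφ⟩ : ∃ φ : (b → covSub K y T m) →ₗ[ℂ] L, ∀ g, φ g =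
      ∑ x : b, algebraMap K L (g x : K) * (algebraMap K L t * x) :=
    ⟨{ toFun := F, map_add' := hF1, map_smul' := hF2 }, hF⟩
  have hmem : ∀ g, φ g ∈ covSub L y T (m + c) := by
    intro g
    rw [hφ]
    refine sum_mem fun x _ => ?_
    rw [mem_covSub]
    have h1 : KSec y T m (g x : K) := lsec_self.1 (g x).2
    exact (LSec.up h1).mul (hbt x x.2)
  obtain ⟨ψ, hψ⟩ : ∃ ψ : (b → covSub K y T m) →ₗ[ℂ] covSub L y T (m + c), ∀ g,
      (ψ g : L) = φ g := ⟨φ.codRestrict _ hmem, fun g => rfl⟩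
  have hinj : Function.Injective ψ := by
    rw [← LinearMap.ker_eq_bot, LinearMap.ker_eq_bot']
    intro g hg
    have h1 : φ g = 0 := by
      rw [← hψ, hg]
      rfl
    rw [hφ] at h1
    have h2 : algebraMap K L t * ∑ x : b, (g x : K) • (x : L) = 0 := by
      rw [← h1, Finset.mul_sum]
      refine Finset.sum_congr rfl fun x _ => ?_
      rw [Algebra.smul_def]
      ring
    have h3 := (mul_eq_zero.1 h2).resolve_left htL
    have h4 := Fintype.linearIndependent_iff.1 hli (fun x => (g x : K)) h3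
    funext x
    exact Subtype.ext (h4 x)
  have h1 := LinearMap.finrank_le_finrank_of_injective hinj
  rw [Module.finrank_pi_fintype, Finset.sum_const, Finset.card_univ, Fintype.card_coe,
    smul_eq_mul] at h1
  exact h1

/-- the sections on the covering as multiples of algebraic functions -/
theorem exists_twist {m0 : ℕ} (hm0 : 1 ≤ m0) {g0 : K} (hg0 : g0 ≠ 0) (hs : KSec y T m0 g0) :
    ∃ C : ℕ, ∀ m : ℕ, 1 ≤ m → ∃ (c : ℕ) (v : L) (s : K), c ≤ C ∧ v ≠ 0 ∧ s ≠ 0 ∧ LSec y T c v ∧
      ∀ h : L, LSec y T m h → IsAlgebraic (IField y T) (v * h / algebraMap K L s) := by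
  classical
  have h1 : ∀ r : ℕ, ∃ (m : ℕ) (h : L), h ≠ 0 ∧ LSec y T m h ∧
      ((∃ (m' : ℕ) (h' : L), m' % m0 = r ∧ h' ≠ 0 ∧ LSec y T m' h') → m % m0 = r) := by
    intro r
    by_cases hr : ∃ (m' : ℕ) (h' : L), m' % m0 = r ∧ h' ≠ 0 ∧ LSec y T m' h'
    · obtain ⟨m', h', h2, h3, h4⟩ := hr
      exact ⟨m', h', h3, h4, fun _ => h2⟩
    · exact ⟨0, 1, one_ne_zero, LSec.one, fun h => absurd h hr⟩
  choose M H hH0 hHs hHr using h1
  refine ⟨∑ r ∈ Finset.range m0, (m0 - 1) * M r, fun m hm => ?_⟩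
  obtain ⟨r, hr⟩ : ∃ r, r = m % m0 := ⟨_, rfl⟩
  have hrm : r ∈ Finset.range m0 := by
    rw [Finset.mem_range, hr]
    exact Nat.mod_lt _ hm0
  by_cases hex : ∃ h' : L, h' ≠ 0 ∧ LSec y T m h'
  · obtain ⟨h', h'0, h's⟩ := hex
    have h2 := hHr r ⟨m, h', hr.symm, h'0, h's⟩
    -- the total degree is a multiple
    obtain ⟨q, hq⟩ : m0 ∣ (m0 - 1) * M r + m := by
      rw [Nat.dvd_iff_mod_eq_zero, Nat.add_mod, Nat.mul_mod, h2, ← hr]
      obtain ⟨p, rfl⟩ : ∃ p, m0 = p + 1 := ⟨m0 - 1, by omega⟩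
      rw [Nat.add_sub_cancel]
      have h3 : p % (p + 1) = p := Nat.mod_eq_of_lt (Nat.lt_succ_self p)
      rw [h3]
      have h4 : (p * r % (p + 1) + r) % (p + 1) = (p * r + r) % (p + 1) := by
        rw [Nat.mod_add_mod]
      rw [h4]
      have h5 : p * r + r = (p + 1) * r := by ring
      rw [h5]
      exact Nat.mul_mod_right _ _
    have hq1 : 1 ≤ q := by
      rcases Nat.eq_zero_or_pos q with h3 | h3
      · rw [h3, mul_zero] at hq
        omega
      · exact h3
    refine ⟨(m0 - 1) * M r, H r ^ (m0 - 1), g0 ^ q,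
      Finset.single_le_sum (f := fun r => (m0 - 1) * M r) (fun _ _ => Nat.zero_le _) hrm,
      pow_ne_zero _ (hH0 r), pow_ne_zero _ hg0, (hHs r).pow _, fun h hh => ?_⟩
    have h3 : LSec y T ((m0 - 1) * M r + m) (H r ^ (m0 - 1) * h) := ((hHs r).pow _).mul hh
    have h4 : LSec y T ((m0 - 1) * M r + m) (algebraMap K L (g0 ^ q)) := by
      have h5 := LSec.up (L := L) (hs.pow q)
      rw [hq, mul_comm m0 q]
      exact h5
    have h5 : algebraMap K L (g0 ^ q) ≠ 0 := by
      rw [Ne, map_eq_zero]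
      exact pow_ne_zero _ hg0
    have h6 := quot_alg (y := y) (T := T) (m := (m0 - 1) * M r + m) (by omega) h5
      (csec_of_lsec h4 h5) (h1 := H r ^ (m0 - 1) * h) (by
        by_cases h7 : H r ^ (m0 - 1) * h = 0
        · exact Or.inl h7
        · exact Or.inr (csec_of_lsec h3 h7))
    obtain ⟨P, hP, hPx⟩ := h6
    refine ⟨P.map (IntermediateField.inclusion (adjoin_le_IField T)).toRingHom, ?_, ?_⟩
    · rwa [Ne, Polynomial.map_eq_zero_iff
        (IntermediateField.inclusion (adjoin_le_IField T)).injective]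
    · rw [Polynomial.aeval_def, Polynomial.eval₂_map]
      exact hPx
  · push Not at hex
    refine ⟨0, 1, 1, Nat.zero_le _, one_ne_zero, one_ne_zero, LSec.one, fun h hh => ?_⟩
    have h2 : h = 0 := by
      by_contra h3
      exact hex h h3 hh
    rw [h2, mul_zero, zero_div]
    exact isAlgebraic_zero

/-- **Not too many sections on the covering.** -/
theorem growth_le (hy : NormalModel y) (hn : Algebra.trdeg ℂ K = n) (hT : IsDivisor y T)
    {b : Finset L} (hspan : ∀ x : L, IsAlgebraic (IField y T) x → x ∈ Submodule.span K (b : Set L))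
    {c : ℕ} {t : K} (ht : t ≠ 0)
    (hbt : ∀ x ∈ b, LSec y T c (algebraMap K L t * x)) {m : ℕ} (hm : 1 ≤ m) {c' : ℕ} {v : L} {s : K}
    (hv0 : v ≠ 0) (hs0 : s ≠ 0) (hv : LSec y T c' v)
    (hvs : ∀ h : L, LSec y T m h → IsAlgebraic (IField y T) (v * h / algebraMap K L s)) :
    coverSections L y T m ≤ b.card * coverSections K y T (m + (c' + c)) := by
  classical
  have hcK : CharZero K := charZero_of_injective_algebraMap (algebraMap ℂ K).injective
  rw [coverSections_eq, coverSections_eq]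
  have hfin1 := finite_covSub (L := L) hy hn hT hm
  have hfin2 := finite_covSub (L := K) hy hn hT (show 1 ≤ m + (c' + c) by omega)
  have hmem : ∀ (h : covSub L y T m) (x : b),
      Algebra.trace K L (v * h * (algebraMap K L t * x)) ∈ covSub K y T (m + (c' + c)) := by
    intro h x
    rw [mem_covSub, lsec_self]
    refine ksec_trace ?_
    have h1 := (hv.mul (mem_covSub.1 h.2)).mul (hbt x x.2)
    have h2 : m + (c' + c) = c' + m + c := by ring
    rw [h2]
    exact h1
  obtain ⟨F, hF⟩ : ∃ F : covSub L y T m → (b → covSub K y T (m + (c' + c))), ∀ h x,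
      (F h x : K) = Algebra.trace K L (v * h * (algebraMap K L t * x)) :=
    ⟨fun h x => ⟨_, hmem h x⟩, fun h x => rfl⟩
  have hF1 : ∀ h h', F (h + h') = F h + F h' := by
    intro h h'
    funext x
    apply Subtype.ext
    rw [Pi.add_apply, Submodule.coe_add, hF, hF, hF, ← map_add, Submodule.coe_add]
    congr 1
    ring
  have hF2 : ∀ (a : ℂ) h, F (a • h) = a • F h := by
    intro a h
    funext x
    apply Subtype.ext
    rw [Pi.smul_apply, Submodule.coe_smul, hF, hF, Submodule.coe_smul]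
    have h1 : v * (a • (h : L)) * (algebraMap K L t * x) =
        (algebraMap ℂ K a) • (v * h * (algebraMap K L t * x)) := by
      rw [Algebra.smul_def, Algebra.smul_def, ← IsScalarTower.algebraMap_apply ℂ K L]
      ring
    rw [h1, map_smul, Algebra.smul_def a, smul_eq_mul]
  obtain ⟨ψ, hψ⟩ : ∃ ψ : covSub L y T m →ₗ[ℂ] (b → covSub K y T (m + (c' + c))), ∀ h x,
      (ψ h x : K) = Algebra.trace K L (v * h * (algebraMap K L t * x)) :=
    ⟨{ toFun := F, map_add' := hF1, map_smul' := hF2 }, hF⟩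
  have hinj : Function.Injective ψ := by
    rw [← LinearMap.ker_eq_bot, LinearMap.ker_eq_bot']
    intro h hh
    by_contra hne
    have hne' : (h : L) ≠ 0 := fun h1 => hne (Subtype.ext h1)
    obtain ⟨x, hx⟩ : ∃ x, x = v * (h : L) / algebraMap K L s := ⟨_, rfl⟩
    have hsL : algebraMap K L s ≠ 0 := by rwa [Ne, map_eq_zero]
    have hx0 : x ≠ 0 := by
      rw [hx]
      exact div_ne_zero (mul_ne_zero hv0 hne') hsL
    have hxa : IsAlgebraic (IField y T) x := by
      rw [hx]
      exact hvs h (mem_covSub.1 h.2)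
    have h1 : ∀ z ∈ Submodule.span K (b : Set L), Algebra.trace K L (x * z) = 0 := by
      intro z hz
      induction hz using Submodule.span_induction with
      | mem z hz =>
        have h2 : (ψ h ⟨z, hz⟩ : K) = 0 := by
          rw [hh]
          rfl
        rw [hψ] at h2
        have h3 : v * (h : L) * (algebraMap K L t * z) = (s * t) • (x * z) := by
          rw [hx, Algebra.smul_def, map_mul]
          field_simp
        simp only [] at h2
        rw [h3, map_smul, smul_eq_mul] at h2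
        exact (mul_eq_zero.1 h2).resolve_left (mul_ne_zero hs0 ht)
      | zero => rw [mul_zero, map_zero]
      | add z w _ _ hz hw => rw [mul_add, map_add, hz, hw, add_zero]
      | smul a z _ hz => rw [mul_smul_comm, map_smul, hz, smul_zero]
    have h2 := h1 x⁻¹ (hspan _ hxa.inv)
    rw [mul_inv_cancel₀ hx0] at h2
    have h3 : Algebra.trace K L (1 : L) = (finrank K L : K) := by
      have h4 := Algebra.trace_algebraMap (R := K) (S := L) (1 : K)
      rw [map_one, nsmul_eq_mul, mul_one] at h4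
      exact h4
    rw [h3] at h2
    have h4 : 0 < finrank K L := finrank_pos
    exact h4.ne' (by exact_mod_cast h2)
  have h1 := LinearMap.finrank_le_finrank_of_injective hinj
  rw [Module.finrank_pi_fintype, Finset.sum_const, Finset.card_univ, Fintype.card_coe,
    smul_eq_mul] at h1
  exact h1

/-- **The growth of the numbers of sections on a covering.** -/
theorem growth (hy : NormalModel y) (hn : Algebra.trdeg ℂ K = n) (hT : IsDivisor y T)
    (h0 : KGe y T 0) (L : Type) [Field L] [Algebra ℂ L] [Algebra K L] [IsScalarTower ℂ K L]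
    [FiniteDimensional K L] :
    ∃ c : ℕ, ∀ m : ℕ, 1 ≤ m →
      baseDegree L (IField y T) * coverSections K y T m ≤ coverSections L y T (m + c) ∧
      ∃ c' : ℕ, c' ≤ c ∧
        coverSections L y T m ≤ baseDegree L (IField y T) * coverSections K y T (m + c') := by
  classical
  obtain ⟨m0, hm0, g, hg, hg0, -⟩ := h0
  obtain ⟨b, hbf, hba, hbc, hli, hspan⟩ := exists_basis (L := L) (IField y T)
  obtain ⟨b', rfl⟩ : ∃ b' : Finset L, (b' : Set L) = b := ⟨hbf.toFinset, by simp⟩
  obtain ⟨c1, t, ht, hbt⟩ := exists_common (L := L) hm0 hg0 (hg 0) (b := b') (fun x hx => hba x hx)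
  obtain ⟨C, hC⟩ := exists_twist (L := L) hm0 hg0 (hg 0)
  rw [Set.ncard_coe_finset] at hbc
  -- a nonzero section
  have hup : ∀ (c e m : ℕ), 1 ≤ m → coverSections L y T (m + c) ≤
      coverSections L y T (m + (c + e * m0)) := by
    intro c e m hm
    rw [coverSections_eq, coverSections_eq]
    have hfin2 := finite_covSub (L := L) hy hn hT (show 1 ≤ m + (c + e * m0) by omega)
    obtain ⟨φ, hφ⟩ : ∃ φ : covSub L y T (m + c) →ₗ[ℂ] L, ∀ h, φ h =
        algebraMap K L (g 0 ^ e) * h :=
      ⟨(LinearMap.mulLeft ℂ (algebraMap K L (g 0 ^ e))).comp (covSub L y T (m + c)).subtype,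
        fun h => rfl⟩
    have hmem : ∀ h, φ h ∈ covSub L y T (m + (c + e * m0)) := by
      intro h
      rw [hφ, mem_covSub]
      have h1 := (LSec.up (L := L) ((hg 0).pow e)).mul (mem_covSub.1 h.2)
      have h2 : m + (c + e * m0) = e * m0 + (m + c) := by ring
      rw [h2]
      exact h1
    obtain ⟨ψ, hψ⟩ : ∃ ψ : covSub L y T (m + c) →ₗ[ℂ] covSub L y T (m + (c + e * m0)), ∀ h,
        (ψ h : L) = φ h := ⟨φ.codRestrict _ hmem, fun g => rfl⟩
    refine LinearMap.finrank_le_finrank_of_injective (f := ψ) ?_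
    rw [← LinearMap.ker_eq_bot, LinearMap.ker_eq_bot']
    intro h hh
    have h1 : φ h = 0 := by
      rw [← hψ, hh]
      rfl
    rw [hφ] at h1
    exact Subtype.ext ((mul_eq_zero.1 h1).resolve_left
      ((map_ne_zero _).2 (pow_ne_zero _ hg0)))
  refine ⟨c1 + (C + c1) * m0, fun m hm => ⟨?_, ?_⟩⟩
  · rw [← hbc]
    exact (growth_ge hy hn hT hli ht hbt hm).trans (hup c1 (C + c1) m hm)
  · obtain ⟨c, v, s, hc, hv0, hs0, hv, hvs⟩ := hC m hm
    refine ⟨c + c1, ?_, ?_⟩
    · calc c + c1 ≤ (C + c1) * 1 := by omega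
        _ ≤ (C + c1) * m0 := Nat.mul_le_mul_left _ hm0
        _ ≤ c1 + (C + c1) * m0 := Nat.le_add_left _ _
    · rw [← hbc]
      exact growth_le hy hn hT hspan ht hbt hm hv0 hs0 hv hvs

end Run7.h612.SY
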