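import Pool.Agent.Run7.h612.SY.Comm2

/-!
**The dimension of a commutative field, and the field of the Iitaka fibration of a divisor with
isotropic polar divisors.**
-/

set_option autoImplicit false
set_option linter.overlappingInstances false
set_option linter.unusedSectionVars false

open FF Module Pool.Agent.W602.GT Pool.Agent.Y172 Pool.Agent.R887 Pool.Agent.N110
  Pool.Agent.Run7.h701

namespace Run7.h612.SY

/-- The Poisson bracket is nondegenerate: the variety of dimension `n` is generically symplectic. -/
def Nondegenerate {K : Type} [Field K] [Algebra ℂ K] (n : ℕ) (br : K → K → K) : Prop :=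
  ∃ x : Fin n → K, IsTranscendenceBasis ℂ x ∧ (Matrix.of fun i j => br (x i) (x j)).det ≠ 0

variable {K : Type} [Field K] [Algebra ℂ K] {N ρ n : ℕ} {y : Fin (N + 1) → K}
  {c : Place ℂ K → Fin ρ → ℚ} {b : LinearMap.BilinForm ℚ (Fin ρ → ℚ)} {T : Place ℂ K → ℚ}
  {br : K → K → K}

/-- a derivation which is zero on a transcendence basis -/
theorem der_zero_of_basis {ι : Type} {x : ι → K} (hx : IsTranscendenceBasis ℂ x)
    (D : Derivation ℂ K K) (h : ∀ i, D (x i) = 0) (z : K) : D z = 0 := by
  have hch : CharZero K := charZero_of_injective_algebraMap (algebraMap ℂ K).injective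
  have h1 : IsAlgebraic (IntermediateField.adjoin ℂ (Set.range x)) z :=
    hx.isAlgebraic_field.isAlgebraic z
  have h2 : IsAlgebraic (IntermediateField.adjoin ℂ (Set.range x)).toSubfield z := h1
  refine AB.der_alg_zero (D.restrictScalars ℤ) _ ?_ h2
  refine AB.der_closure_zero (D.restrictScalars ℤ) _ ?_
  rintro w (⟨a, rfl⟩ | ⟨i, rfl⟩)
  · exact D.map_algebraMap a
  · exact h i

/-- **Commuting functions on a symplectic variety.** -/
theorem two_mul_le (hbr : IsPoisson y br) (hnd : Nondegenerate n br) {k : ℕ} {f : Fin k → K}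
    (hf : AlgebraicIndependent ℂ f) (hc : ∀ i j, br (f i) (f j) = 0) : 2 * k ≤ n := by
  classical
  obtain ⟨x, hx, hdet⟩ := hnd
  obtain ⟨A, hA⟩ : ∃ A : Matrix (Fin n) (Fin n) K, A = Matrix.of fun i j => br (x i) (x j) :=
    ⟨_, rfl⟩
  rw [← hA] at hdet
  have hAi : ∀ i j, A i j = br (x i) (x j) := fun i j => by rw [hA]; rfl
  have hunit : IsUnit A.det := isUnit_iff_ne_zero.2 hdet
  -- derivations which are dual to the functions
  obtain ⟨E, hE⟩ : ∃ E : Fin k → Derivation ℂ K K, ∀ l i, E l (f i) = if l = i then 1 else 0 := by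
    obtain ⟨t, hst, ht⟩ := exists_isTranscendenceBasis_superset (R := ℂ) (s := Set.range f)
      hf.coe_range
    have h1 : ∀ l : Fin k, ∃ D : Derivation ℂ K K, ∀ i, D (f i) = if l = i then 1 else 0 := by
      intro l
      obtain ⟨D, hD⟩ := Pool.Agent.W602.GT.exists_der (fun a : t => (a : K)) ht
        fun a => if (a : K) = f l then 1 else 0
      refine ⟨D, fun i => ?_⟩
      have h2 := hD ⟨f i, hst ⟨i, rfl⟩⟩
      simp only [] at h2
      rw [h2]
      by_cases h : l = i
      · rw [if_pos h, if_pos (by rw [h])]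
      · rw [if_neg h, if_neg (fun h3 => h (hf.injective h3).symm)]
    choose E hE using h1
    exact ⟨E, hE⟩
  -- every derivation is a combination of Hamiltonian derivations
  have hham : ∀ D : Derivation ℂ K K, ∃ e : Fin n → K, ∀ z, D z = ∑ j, e j * br (x j) z := by
    intro D
    obtain ⟨e, he⟩ : ∃ e : Fin n → K, e = Matrix.vecMul (fun i => D (x i)) A⁻¹ := ⟨_, rfl⟩
    refine ⟨e, fun z => ?_⟩
    obtain ⟨D', hD'⟩ : ∃ D' : Derivation ℂ K K, ∀ z, D' z = D z - ∑ j, e j * br (x j) z := by
      refine ⟨D - ∑ j, e j • hbr.der (x j), fun z => ?_⟩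
      rw [Derivation.sub_apply]
      congr 1
      have h1 : ∀ s : Finset (Fin n), (∑ j ∈ s, e j • hbr.der (x j)) z =
          ∑ j ∈ s, e j * br (x j) z := by
        intro s
        induction s using Finset.induction_on with
        | empty => rw [Finset.sum_empty, Finset.sum_empty, Derivation.zero_apply]
        | insert a s ha ih =>
          rw [Finset.sum_insert ha, Finset.sum_insert ha, Derivation.add_apply, ih,
            Derivation.smul_apply, hbr.der_apply, smul_eq_mul]
      exact h1 _
    have h1 : D' z = 0 := der_zero_of_basis hx D' (fun i => by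
      rw [hD', sub_eq_zero]
      have h2 : Matrix.vecMul e A = fun i => D (x i) := by
        rw [he, Matrix.vecMul_vecMul, Matrix.nonsing_inv_mul A hunit, Matrix.vecMul_one]
      have h3 := congrFun h2 i
      rw [← h3]
      unfold Matrix.vecMul dotProduct
      exact Finset.sum_congr rfl fun j _ => congrArg (fun z => e j * z) (hAi j i)) z
    rw [hD'] at h1
    exact sub_eq_zero.1 h1
  choose e he using hham
  -- the vectors
  obtain ⟨V, hV⟩ : ∃ V : Fin k ⊕ Fin k → Fin n → K, V = Sum.elim (fun i j => br (f i) (x j))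
    fun l j => E l (x j) := ⟨_, rfl⟩
  have hli : LinearIndependent K V := by
    rw [Fintype.linearIndependent_iff]
    intro g hg
    obtain ⟨D, hD⟩ : ∃ D : Derivation ℂ K K, ∀ z, D z = ∑ i, g (Sum.inl i) * br (f i) z +
        ∑ l, g (Sum.inr l) * E l z := by
      refine ⟨∑ i, g (Sum.inl i) • hbr.der (f i) + ∑ l, g (Sum.inr l) • E l, fun z => ?_⟩
      have h1 : ∀ (s : Finset (Fin k)) (F : Fin k → Derivation ℂ K K) (a : Fin k → K),
          (∑ j ∈ s, a j • F j) z = ∑ j ∈ s, a j * F j z := by
        intro s F a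
        induction s using Finset.induction_on with
        | empty => rw [Finset.sum_empty, Finset.sum_empty, Derivation.zero_apply]
        | insert a' s ha ih =>
          rw [Finset.sum_insert ha, Finset.sum_insert ha, Derivation.add_apply, ih,
            Derivation.smul_apply, smul_eq_mul]
      rw [Derivation.add_apply, h1, h1]
      rfl
    have hD0 : ∀ z, D z = 0 := der_zero_of_basis hx D (fun j => by
      have h1 := congrFun hg j
      rw [Fintype.sum_sum_type, hV] at h1
      simp only [Sum.elim_inl, Sum.elim_inr, Pi.add_apply, Finset.sum_apply, Pi.smul_apply,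
        smul_eq_mul, Pi.zero_apply] at h1
      rw [hD]
      exact h1)
    have h2 : ∀ l, g (Sum.inr l) = 0 := by
      intro l
      have h3 := hD0 (f l)
      rw [hD] at h3
      simp only [hc, mul_zero, Finset.sum_const_zero, zero_add, hE, mul_ite, mul_one] at h3
      rw [Finset.sum_ite_eq' Finset.univ l, if_pos (Finset.mem_univ _)] at h3
      exact h3
    have h4 : ∀ z, ∑ i, g (Sum.inl i) * br (f i) z = 0 := by
      intro z
      have h5 := hD0 z
      rw [hD] at h5
      simp only [h2, zero_mul, Finset.sum_const_zero, add_zero] at h5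
      exact h5
    have h6 : ∀ l, g (Sum.inl l) = 0 := by
      intro l
      have h7 : ∑ i, g (Sum.inl i) * E l (f i) = 0 := by
        have h8 : ∀ i, E l (f i) = -∑ j, e (E l) j * br (f i) (x j) := by
          intro i
          rw [he (E l) (f i), ← Finset.sum_neg_distrib]
          exact Finset.sum_congr rfl fun j _ => by rw [hbr.anti (f i) (x j)]; ring
        simp only [h8]
        have h9 : ∑ i, g (Sum.inl i) * -∑ j, e (E l) j * br (f i) (x j) =
            -∑ j, e (E l) j * ∑ i, g (Sum.inl i) * br (f i) (x j) := by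
          simp only [Finset.mul_sum, mul_neg, Finset.sum_neg_distrib]
          rw [Finset.sum_comm]
          congr 1
          refine Finset.sum_congr rfl fun j _ => Finset.sum_congr rfl fun i _ => ?_
          ring
        rw [h9]
        simp only [h4, mul_zero, Finset.sum_const_zero, neg_zero]
      simp only [hE, mul_ite, mul_one, mul_zero] at h7
      rw [Finset.sum_ite_eq Finset.univ l, if_pos (Finset.mem_univ _)] at h7
      exact h7
    rintro (i | l)
    · exact h6 i
    · exact h2 l
  have h1 := hli.fintype_card_le_finrank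
  rw [Fintype.card_sum, Fintype.card_fin, Module.finrank_fin_fun] at h1
  omega

/-- the dimension of the base of a coisotropic fibration -/
theorem trdeg_half (hbr : IsPoisson y br) (hnd : Nondegenerate n br) {E : IntermediateField ℂ K}
    (hE : ∀ f ∈ E, ∀ g ∈ E, br f g = 0) {k : ℕ} (hk : Algebra.trdeg ℂ E = k) : 2 * k ≤ n := by
  obtain ⟨s, hs⟩ := exists_isTranscendenceBasis ℂ E
  have h1 := hs.cardinalMk_eq_trdeg
  rw [hk] at h1
  have h2 : Nonempty (Fin k ≃ s) := by
    rw [← Cardinal.eq, h1, Cardinal.mk_fin]
  obtain ⟨e⟩ := h2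
  have h3 : AlgebraicIndependent ℂ (fun i : Fin k => ((e i : E) : K)) :=
    (hs.1.comp e e.injective).map' (f := E.val) E.val.injective
  exact two_mul_le hbr hnd h3 fun i j => hE _ (e i : E).2 _ (e j : E).2

theorem alg_mono {A B : IntermediateField ℂ K} (h : A ≤ B) {x : K} (hx : IsAlgebraic A x) :
    IsAlgebraic B x := by
  obtain ⟨P, hP, hPx⟩ := hx
  refine ⟨P.map (IntermediateField.inclusion h).toRingHom, ?_, ?_⟩
  · rwa [Ne, Polynomial.map_eq_zero_iff (IntermediateField.inclusion h).injective]
  · rw [Polynomial.aeval_def, Polynomial.eval₂_map]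
    exact hPx

/-- the sections of the polar divisor of a quotient of sections -/
theorem IField_polar_le {m : ℕ} (hm : 1 ≤ m) {s t : K} (ht0 : t ≠ 0)
    (hs : AB.KSec y T m s) (ht : AB.KSec y T m t) :
    AB.IField y (HK.polar (s / t)) ≤ AB.IField y T := by
  have hpol : ∀ P, IsPrimeDivisor y P → HK.polar (s / t) P ≤ P.ord t + m * T P := by
    intro P hP
    unfold HK.polar
    have h1 := (ht P hP).resolve_left ht0
    refine max_le ?_ (by linarith)
    by_cases hs0 : s = 0
    · rw [hs0, zero_div, P.ord_zero]
      simp only [Int.cast_zero, neg_zero]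
      linarith
    · rw [P.ord_div hs0 ht0]
      have h2 := (hs P hP).resolve_left hs0
      push_cast
      linarith
  have hI : AB.ISet y (HK.polar (s / t)) ⊆ AB.ISet y T := by
    rintro z ⟨q, hq, g, g', hg', h1, h2, rfl⟩
    have hup : ∀ {h : K}, AB.KSec y (HK.polar (s / t)) q h → AB.KSec y T (q * m) (h * t ^ q) := by
      intro h hh P hP
      rcases hh P hP with h3 | h3
      · exact Or.inl (by rw [h3, zero_mul])
      · by_cases hh0 : h = 0
        · exact Or.inl (by rw [hh0, zero_mul])
        right
        rw [P.ord_mul hh0 (pow_ne_zero _ ht0), P.ord_pow]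
        have h4 := mul_le_mul_of_nonneg_left (hpol P hP) (show (0 : ℚ) ≤ q from Nat.cast_nonneg _)
        push_cast
        linarith
    refine ⟨q * m, Nat.mul_pos hq hm, g * t ^ q, g' * t ^ q, mul_ne_zero hg' (pow_ne_zero _ ht0),
      hup h1, hup h2, ?_⟩
    rw [mul_div_mul_right _ _ (pow_ne_zero _ ht0)]
  intro x hx
  rw [AB.mem_IField] at hx ⊢
  exact alg_mono (IntermediateField.adjoin.mono _ _ _ hI) hx

/-- the quotients of the sections are not all constant if the field is not `ℂ` -/
theorem exists_transc {f : K} (hf : f ∈ AB.IField y T) (hft : Transcendental ℂ f) :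
    ∃ z ∈ AB.ISet y T, Transcendental ℂ z := by
  by_contra hcon
  push Not at hcon
  apply hft
  have h1 : ∀ z ∈ AB.ISet y T, IsAlgebraic ℂ z := fun z hz => by
    by_contra h
    exact hcon z hz h
  have h2 : Algebra.IsAlgebraic ℂ (IntermediateField.adjoin ℂ (AB.ISet y T)) :=
    IntermediateField.isAlgebraic_adjoin fun z hz => (h1 z hz).isIntegral
  have h3 := AB.mem_IField.1 hf
  exact h3.restrictScalars ℂ

/-- **The field of the Iitaka fibration of a divisor with isotropic polar divisors.** -/
theorem mem_iso_iff (hy : NormalModel y) (hb : HK.IsBBForm y c b)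
    (hE : ∀ f ∈ AB.IField y T, b (cls y c (HK.polar f)) (cls y c (HK.polar f)) = 0) {f : K}
    (hf : f ∈ AB.IField y T) (hft : Transcendental ℂ f) (g : K) :
    g ∈ AB.IField y T ↔ b (cls y c (HK.polar f)) (cls y c (HK.polar g)) = 0 := by
  constructor
  · exact fun hg => pair_field hy hb hE hf hg
  · intro hg
    obtain ⟨z, hz, hzt⟩ := exists_transc hf hft
    have hzE : z ∈ AB.IField y T :=
      AB.adjoin_le_IField _ (IntermediateField.subset_adjoin _ _ hz)
    obtain ⟨m, hm, s, t, ht0, hs, ht, rfl⟩ := hz
    have hz0 : s / t ≠ 0 := by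
      intro h
      exact hzt (by rw [h]; exact isAlgebraic_zero)
    have hf0 : f ≠ 0 := by
      intro h
      exact hft (by rw [h]; exact isAlgebraic_zero)
    refine IField_polar_le hm ht0 hs ht ((mem_IField_iff hy hb (HK.polar_eff hy hz0).2
      (fun P hP => polar_movable hy hb hz0 hP) (cls_polar_ne hy hb hzt) (hE _ hzE) g).2 ?_)
    obtain ⟨q, hq⟩ := (HK.hodge hb (cls_polar_ne hy hb hft) (hE f hf)
      (pair_field hy hb hE hf hzE)).2 (hE _ hzE)
    rw [hq, map_smul, LinearMap.smul_apply, hg, smul_zero]

end Run7.h612.SY
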