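import Pool.Agent.Run7.h612.SY.Card
import Pool.Agent.Run7.h612.AB.Main3

/-!
**The sections of a divisor on the coverings.**
-/

set_option autoImplicit false
set_option linter.overlappingInstances false
set_option linter.unusedSectionVars false

open FF Module Pool.Agent.W602.GT Pool.Agent.W603.LV Pool.Agent.W619.PQ
open Pool.Agent.Y172 Pool.Agent.Y191 Pool.Agent.R887
open Pool.Agent.N110 (affS)
open Run7.h612.AB

namespace Run7.h612.SY

section

variable {K : Type} [Field K] [Algebra ℂ K] {N : ℕ} {y : Fin (N + 1) → K} {n : ℕ}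

theorem sec_iff {T : Place ℂ K → ℚ} {m : ℕ} {g : K} :
    SY.IsSectionOf y (m • T) g ↔ KSec y T m g := by
  constructor
  · intro h P hP
    have h1 := h P hP
    rw [Pi.smul_apply, nsmul_eq_mul] at h1
    exact h1
  · intro h P hP
    rw [Pi.smul_apply, nsmul_eq_mul]
    exact h P hP

theorem iitaka_iff {T : Place ℂ K → ℚ} {k : ℕ} : SY.IitakaGe y T k ↔ KGe y T k := by
  unfold SY.IitakaGe KGe
  simp only [sec_iff]

/-- sections are sections on the trivial covering -/
theorem cover_self {T : Place ℂ K → ℚ} {m : ℕ} {g : K} (hg : KSec y T m g) :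
    SY.IsCoverSection (L := K) y T m g := by
  intro Q P e hP hov
  obtain ⟨t, ht0, ht⟩ := P.surj
  obtain ⟨s, hs0, hs⟩ := Q.surj
  have h1 := hov.2
  have he : e = 1 := by
    have h2 : Q.ord s = e * P.ord s := h1 s
    rw [hs] at h2
    have h3 : (e : ℤ) ∣ 1 := ⟨_, h2⟩
    have h4 := Int.natCast_dvd_natCast.1 (by exact_mod_cast h3 : ((e : ℤ) ∣ ((1 : ℕ) : ℤ)))
    exact Nat.dvd_one.1 h4
  have hQP : Q = P := by
    apply Place.ext
    funext f
    have h2 : Q.ord f = e * P.ord f := h1 f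
    rw [h2, he, Nat.cast_one, one_mul]
  rw [hQP, he, Nat.cast_one, one_mul]
  exact hg P hP

/-- **Many sections.** -/
theorem many_sectionsT {T : Place ℂ K → ℚ} {m0 ν : ℕ} {g : Fin (ν + 1) → K}
    (hg : ∀ i, KSec y T m0 (g i)) (hg0 : g 0 ≠ 0)
    (hind : AlgebraicIndependent ℂ (fun i : Fin ν => g i.succ / g 0)) (q : ℕ)
    (hfin : Module.Finite ℂ (Submodule.span ℂ
      {h : K | SY.IsCoverSection y T (ν * q * m0) h})) :
    (q + 1) ^ ν ≤ coverSections K y T (ν * q * m0) := by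
  classical
  obtain ⟨e, he⟩ : ∃ e : (Fin ν → Fin (q + 1)) → Fin (ν + 1) → ℕ, e = fun a =>
    Fin.cons (ν * q - ∑ i, (a i : ℕ)) fun i => (a i : ℕ) := ⟨_, rfl⟩
  have hle : ∀ a : Fin ν → Fin (q + 1), ∑ i, (a i : ℕ) ≤ ν * q := by
    intro a
    have h1 : ∑ i, (a i : ℕ) ≤ ∑ _i : Fin ν, q := Finset.sum_le_sum fun i _ => by omega
    simpa using h1
  have hsum : ∀ a, ∑ i, e a i = ν * q := by
    intro a
    rw [he, Fin.sum_univ_succ]
    simp only [Fin.cons_zero, Fin.cons_succ]
    have := hle a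
    omega
  obtain ⟨G, hG⟩ : ∃ G : (Fin ν → Fin (q + 1)) → K, G = fun a => ∏ i, g i ^ e a i := ⟨_, rfl⟩
  have hGs : ∀ a, KSec y T (ν * q * m0) (G a) := by
    intro a
    have h1 := KSec.prod (s := Finset.univ) (fun i (_ : i ∈ Finset.univ) => (hg i).pow (e a i))
    rw [← Finset.sum_mul, hsum] at h1
    rw [hG]
    exact h1
  have hGe : ∀ a, G a = g 0 ^ (ν * q) * ∏ i : Fin ν, (g i.succ / g 0) ^ (a i : ℕ) := by
    intro a
    have h2 : g 0 ^ (ν * q) = g 0 ^ (ν * q - ∑ i, (a i : ℕ)) * ∏ i : Fin ν, g 0 ^ (a i : ℕ) := by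
      rw [Finset.prod_pow_eq_pow_sum, ← pow_add]
      congr 1
      have := hle a
      omega
    rw [hG, he]
    simp only []
    rw [Fin.prod_univ_succ]
    simp only [Fin.cons_zero, Fin.cons_succ]
    rw [h2, mul_assoc, ← Finset.prod_mul_distrib]
    congr 1
    refine Finset.prod_congr rfl fun i _ => ?_
    rw [div_pow, mul_div_cancel₀ _ (pow_ne_zero _ hg0)]
  have hmon : LinearIndependent ℂ fun a : Fin ν → Fin (q + 1) =>
      ∏ i : Fin ν, (g i.succ / g 0) ^ (a i : ℕ) := by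
    have h1 := (MvPolynomial.basisMonomials (Fin ν) ℂ).linearIndependent.map'
      (MvPolynomial.aeval (R := ℂ) (fun i : Fin ν => g i.succ / g 0)).toLinearMap
      (LinearMap.ker_eq_bot.2 hind)
    have h2 := h1.comp (fun a : Fin ν → Fin (q + 1) => Finsupp.equivFunOnFinite.symm
      (fun i => (a i : ℕ))) (by
      intro a b hab
      have h3 := Finsupp.equivFunOnFinite.symm.injective hab
      funext i
      exact Fin.ext (congrFun h3 i))
    have h3 : (fun a : Fin ν → Fin (q + 1) => ∏ i : Fin ν, (g i.succ / g 0) ^ (a i : ℕ)) =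
        ((MvPolynomial.aeval (R := ℂ) (fun i : Fin ν => g i.succ / g 0)).toLinearMap ∘
          (MvPolynomial.basisMonomials (Fin ν) ℂ)) ∘
            (fun a : Fin ν → Fin (q + 1) => Finsupp.equivFunOnFinite.symm
      (fun i => (a i : ℕ))) := by
      funext a
      simp only [Function.comp_apply, MvPolynomial.coe_basisMonomials, AlgHom.toLinearMap_apply,
        MvPolynomial.aeval_monomial, map_one, one_mul]
      rw [Finsupp.prod_fintype _ _ fun i => pow_zero _]
      rfl
    rw [h3]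
    exact h2
  have hGli : LinearIndependent ℂ G := by
    rw [Fintype.linearIndependent_iff] at hmon ⊢
    intro r hr
    refine hmon r ?_
    have h1 : ∑ a, r a • G a = g 0 ^ (ν * q) * ∑ a, r a •
        ∏ i : Fin ν, (g i.succ / g 0) ^ (a i : ℕ) := by
      rw [Finset.mul_sum]
      refine Finset.sum_congr rfl fun a _ => ?_
      rw [hGe, mul_smul_comm]
    rw [h1] at hr
    exact (mul_eq_zero.1 hr).resolve_left (pow_ne_zero _ hg0)
  obtain ⟨W, hW⟩ : ∃ W, W = Submodule.span ℂ
      {h : K | SY.IsCoverSection y T (ν * q * m0) h} := ⟨_, rfl⟩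
  unfold coverSections
  rw [← hW] at hfin ⊢
  have hmem : ∀ a, G a ∈ W := by
    intro a
    rw [hW]
    exact Submodule.subset_span (cover_self (hGs a))
  have hli : LinearIndependent ℂ (fun a => (⟨G a, hmem a⟩ : W)) := by
    refine LinearIndependent.of_comp W.subtype ?_
    exact hGli
  have h1 := hli.fintype_card_le_finrank
  simpa using h1

end

section

variable {K L : Type} [Field K] [Algebra ℂ K] [Field L] [Algebra ℂ L]
  [Algebra K L] [IsScalarTower ℂ K L] [FiniteDimensional K L] {N : ℕ} {y : Fin (N + 1) → K} {n : ℕ}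

/-- the explicit bound -/
theorem bound_explicitT (hy : NormalModel y) (hn : Algebra.trdeg ℂ K = n) (hn0 : 0 < n)
    {T : Place ℂ K → ℚ} (hT : IsDivisor y T) {δ : ℕ} (hδ : DegreeLe y n δ)
    {μ : ℝ} (hμ : 0 ≤ μ) (hpp : ProductLe y n T μ) {k : ℕ}
    (hk : ¬ KGe y T (k + 1)) {m : ℕ} (hm : 1 ≤ m) :
    (coverSections L y T m * fibreDegree L (IField y T) : ℝ) ≤
      finrank K L * (k + δ * max 1 (m * μ) ^ k) := by
  obtain ⟨i, hi⟩ := hy.ne
  have hδ' := delta_of_degreeLe hi hδ
  have hδ1 : (1 : ℝ) ≤ δ := by exact_mod_cast delta_pos hy hn hi hδ'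
  have hmax : (1 : ℝ) ≤ max 1 (m * μ) := le_max_left _ _
  have hd0 : (0 : ℝ) ≤ finrank K L := Nat.cast_nonneg _
  refine (sections_le hy hn hi hm (b := δ * max 1 (m * μ) ^ k) ?_ (trdeg_adjoin_le hk) ?_).2
  · exact one_le_mul_of_one_le_of_one_le hδ1 (one_le_pow₀ hmax)
  · intro j hj1 hjk hjn u hu h h0 hh
    have h1 := cover_degT (L := L) hy hn hn0 hT hμ hpp hi hδ' hm hjn hu h0 hh
    refine h1.trans ?_
    rw [mul_assoc]
    refine mul_le_mul_of_nonneg_left ?_ hd0
    refine mul_le_mul_of_nonneg_left ?_ (by linarith)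
    calc ((m : ℝ) * μ) ^ j ≤ max 1 (m * μ) ^ j :=
          pow_le_pow_left₀ (by positivity) (le_max_right _ _) j
      _ ≤ max 1 (m * μ) ^ k := pow_le_pow_right₀ hmax hjk

/-- the bound with a constant which does not depend on the covering -/
theorem bound_constT (hy : NormalModel y) (hn : Algebra.trdeg ℂ K = n)
    {T : Place ℂ K → ℚ} (hTfin : IsDivisor y T) {k : ℕ} (hk : ¬ KGe y T (k + 1)) :
    ∃ C : ℝ, ∀ (L : Type) [Field L] [Algebra ℂ L] [Algebra K L] [IsScalarTower ℂ K L]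
      [FiniteDimensional K L] (m : ℕ), 1 ≤ m →
      Module.Finite ℂ (Submodule.span ℂ {h : L | SY.IsCoverSection y T m h}) ∧
      (coverSections L y T m * fibreDegree L (IField y T) : ℝ) ≤
        C * (finrank K L * m ^ k) := by
  classical
  obtain ⟨i, hi⟩ := hy.ne
  obtain ⟨A, hA, hAP⟩ := exists_hyp hy hi
  obtain ⟨δ, hδ⟩ := delta_exists hy hn hi
  have hTA : Effective y (fun P => |T P|) := by
    refine ⟨fun P _ => abs_nonneg _, hTfin.subset ?_⟩
    rintro P ⟨hP, h0⟩
    exact ⟨hP, fun h1 => h0 (by simp only []; rw [h1, abs_zero])⟩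
  obtain ⟨f, β, hf, hβ⟩ := dominate hy hTA hi hA hAP
  have hβ' : ∀ P, IsPrimeDivisor y P → T P ≤ P.ord f + β * A P := fun P hP =>
    (le_abs_self _).trans (hβ P hP)
  have hδ1 : (1 : ℝ) ≤ δ := by exact_mod_cast delta_pos hy hn hi hδ
  refine ⟨k + δ * (β + 1) ^ k, fun L _ _ _ _ _ m hm => ?_⟩
  have hm1 : (1 : ℝ) ≤ m := by exact_mod_cast hm
  have hmk : (1 : ℝ) ≤ (m : ℝ) ^ k := one_le_pow₀ hm1
  have hβ1 : (1 : ℝ) ≤ (β : ℝ) + 1 := by
    have : (0 : ℝ) ≤ β := Nat.cast_nonneg _
    linarith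
  have hd0 : (0 : ℝ) ≤ finrank K L := Nat.cast_nonneg _
  have h1 := sections_le (L := L) hy hn (T := T) hi hm (b := δ * (m * (β + 1)) ^ k) (by
    refine one_le_mul_of_one_le_of_one_le hδ1 (one_le_pow₀ ?_)
    exact one_le_mul_of_one_le_of_one_le hm1 hβ1) (trdeg_adjoin_le hk) (by
    intro j hj1 hjk hjn u hu h h0 hh
    have h1 := cover_deg0 (L := L) hy hn hi hAP hδ hf hβ' (m := m) hjn hu h0 hh
    have h2 : (dg ℂ (Sum.elim (fun a => algebraMap K L (u a)) fun i : Fin j => h i.succ / h 0) : ℝ)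
        ≤ ((m : ℝ) * β) ^ j * (δ * finrank K L) := by exact_mod_cast h1
    refine h2.trans ?_
    have h3 : ((m : ℝ) * β) ^ j ≤ (m * (β + 1)) ^ k := by
      have h4 : (m : ℝ) * β ≤ m * (β + 1) := mul_le_mul_of_nonneg_left (by linarith) (by linarith)
      calc ((m : ℝ) * β) ^ j ≤ (m * (β + 1)) ^ j := pow_le_pow_left₀ (by positivity) h4 j
        _ ≤ (m * (β + 1)) ^ k := pow_le_pow_right₀ (one_le_mul_of_one_le_of_one_le hm1 hβ1) hjk
    have h5 := mul_le_mul_of_nonneg_right h3 (show (0 : ℝ) ≤ δ * finrank K L by positivity)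
    refine h5.trans (le_of_eq ?_)
    ring)
  refine ⟨h1.1, h1.2.trans ?_⟩
  have h2 : (k : ℝ) ≤ k * (m : ℝ) ^ k := le_mul_of_one_le_right (Nat.cast_nonneg _) hmk
  have h3 : (k : ℝ) + δ * (m * (β + 1)) ^ k ≤ (k + δ * (β + 1) ^ k) * (m : ℝ) ^ k := by
    rw [mul_pow]
    linarith
  have h4 := mul_le_mul_of_nonneg_left h3 hd0
  linarith

end

section

variable {K : Type} [Field K] [Algebra ℂ K] {N : ℕ} {y : Fin (N + 1) → K} {n : ℕ}
  {br : K → K → K}

theorem finite_sections (hy : NormalModel y) (hn : Algebra.trdeg ℂ K = n)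
    {T : Place ℂ K → ℚ} (hT : IsDivisor y T) : FiniteSections y T := by
  intro L _ _ _ _ _ m hm
  constructor
  · have hk' : ¬ KGe y T (n + 1) := by
      rintro ⟨m, hm, g, -, -, hind⟩
      have h1 := hind.cardinalMk_le_trdeg
      rw [hn, Cardinal.mk_fin] at h1
      have h2 : n + 1 ≤ n := by exact_mod_cast h1
      omega
    obtain ⟨C, hC⟩ := bound_constT hy hn hT hk'
    exact (hC L m hm).1
  · intro h0
    unfold coverSections
    have h1 : {h : L | SY.IsCoverSection y T m h} ⊆ {0} := by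
      intro h hh
      exact no_sectionsT h0 hm hh
    have h2 : Submodule.span ℂ {h : L | SY.IsCoverSection y T m h} = ⊥ := by
      rw [Submodule.span_eq_bot]
      exact fun h hh => h1 hh
    rw [h2]
    exact finrank_bot ℂ _

/-- the field of the Iitaka fibration -/
theorem iitakaField (T : Place ℂ K → ℚ) : IsIitakaField y T (IField y T) where
  closed := fun z hz => IField_closed hz
  quot := fun m g g' hm hg hg' h0 =>
    adjoin_le_IField _ (IntermediateField.subset_adjoin _ _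
      ⟨m, hm, g', g, h0, sec_iff.1 hg', sec_iff.1 hg, rfl⟩)
  dim := fun k hk hk' => by
    rw [iitaka_iff] at hk hk'
    exact trdeg_IField hk hk'
  bot := fun h0 => by
    rw [eq_bot_iff]
    intro x hx
    rw [mem_IField] at hx
    have h1 : ISet y T = ∅ := by
      rw [Set.eq_empty_iff_forall_notMem]
      rintro z ⟨m, hm, g, g', hg', -, h2, -⟩
      refine h0 ⟨m, hm, fun _ => g', fun _ => sec_iff.2 h2, hg', ?_⟩
      exact algebraicIndependent_empty_type
    rw [h1] at hx
    have h2 : IsAlgebraic ℂ x := by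
      have h3 : Algebra.IsAlgebraic ℂ (IntermediateField.adjoin ℂ (∅ : Set K)) := by
        rw [IntermediateField.adjoin_empty]
        infer_instance
      exact hx.restrictScalars ℂ
    rw [IntermediateField.mem_bot]
    exact minpoly.mem_range_of_degree_eq_one ℂ _ (IsAlgClosed.degree_eq_one_of_irreducible ℂ
      (minpoly.irreducible h2.isIntegral))

theorem poissonField (hbr : IsPoisson y br) (T : Place ℂ K → ℚ) :
    IsPoissonFibration br (IField y T) :=
  ⟨fun z hz => IField_closed hz, fun f hf g hg => br_IField hbr hf hg⟩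

/-- the upper bound -/
theorem main_boundT (hy : NormalModel y) (hn : Algebra.trdeg ℂ K = n) (hn0 : 0 < n)
    {T : Place ℂ K → ℚ} (hT : IsDivisor y T) {k : ℕ} (hk' : ¬ SY.IitakaGe y T (k + 1))
    {δ : ℕ} {μ : ℝ} (hδ : DegreeLe y n δ) (hμ : 0 ≤ μ) (hpp : ProductLe y n T μ) :
    CoverSectionsLe y T (IField y T) k δ μ := by
  intro L _ _ _ _ _ m hm
  rw [iitaka_iff] at hk'
  exact of_fibre (bound_explicitT hy hn hn0 hT hδ hμ hpp hk' hm)

theorem iitaka_mono {T : Place ℂ K → ℚ} {k ν : ℕ} (h1 : ν ≤ k) (hk : SY.IitakaGe y T k) :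
    SY.IitakaGe y T ν := by
  obtain ⟨m, hm, g, hg, hg0, hind⟩ := hk
  refine ⟨m, hm, fun i => g (Fin.castLE (by omega) i), fun i => hg _, hg0, ?_⟩
  exact hind.comp (Fin.castLE h1) (Fin.castLE_injective h1)

/-- the Iitaka dimension is large if the numbers of the sections on the coverings grow -/
theorem kappa_of_growthT (hy : NormalModel y) (hn : Algebra.trdeg ℂ K = n)
    {T : Place ℂ K → ℚ} (hT : IsDivisor y T) {ν : ℕ} (hν : 1 ≤ ν)
    (hg : GrowthOver y T (IField y T) (ν - 1)) : SY.IitakaGe y T ν := by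
  classical
  by_contra hcon
  obtain ⟨k, rfl⟩ : ∃ k, ν = k + 1 := ⟨ν - 1, by omega⟩
  rw [Nat.add_sub_cancel] at hg
  rw [iitaka_iff] at hcon
  obtain ⟨C, hC⟩ := bound_constT hy hn hT hcon
  obtain ⟨L, _, _, _, _, _, m, hm, hlt⟩ := hg C
  have h1 := of_fibre (L := L) (p := coverSections L y T m)
    (E := IField y T) (b := C * (m : ℝ) ^ k) (by
    refine (hC L m hm).2.trans (le_of_eq ?_)
    ring)
  refine absurd (h1.trans (le_of_eq ?_)) (not_le.2 hlt)
  ring

/-- the Iitaka dimension is large if the numbers of the sections on the coverings grow over all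
Poisson fibrations -/
theorem kappa_of_growthP (hy : NormalModel y) (hn : Algebra.trdeg ℂ K = n)
    (hbr : IsPoisson y br) {T : Place ℂ K → ℚ} (hT : IsDivisor y T) {ν : ℕ} (hν : 1 ≤ ν)
    (hg : ∀ (E : IntermediateField ℂ K) (j : ℕ), IsPoissonFibration br E →
      Algebra.trdeg ℂ E = j → j < ν → GrowthOver y T E j) : SY.IitakaGe y T ν := by
  classical
  by_contra hcon
  by_cases h0 : SY.IitakaGe y T 0
  · -- the Iitaka dimension
    obtain ⟨k, hk, hk'⟩ : ∃ k, SY.IitakaGe y T k ∧ ¬ SY.IitakaGe y T (k + 1) := by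
      by_contra hne
      push Not at hne
      exact hcon (Nat.rec h0 (fun k hk => hne k hk) ν)
    have hkν : k < ν := by
      by_contra h1
      push Not at h1
      exact hcon (iitaka_mono h1 hk)
    exact hk' (kappa_of_growthT hy hn hT (Nat.succ_pos k)
      (hg _ k (poissonField hbr T) ((iitakaField T).dim k hk hk') hkν))
  · obtain ⟨L, _, _, _, _, _, m, hm, hlt⟩ := hg (IField y T) 0 (poissonField hbr T) (by
      rw [(iitakaField T).bot h0]
      have h1 : Algebra.trdeg ℂ (⊥ : IntermediateField ℂ K) = 0 := by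
        have h2 := (IntermediateField.botEquiv ℂ K).trdeg_eq
        rw [h2]
        exact _root_.trdeg_eq_zero
      rw [h1, Nat.cast_zero]) hν 0
    rw [zero_mul, (finite_sections hy hn hT L m hm).2 h0, Nat.cast_zero] at hlt
    exact lt_irrefl _ hlt

/-- the numbers of sections grow if the Iitaka dimension is large -/
theorem growth_of_kappaT (hy : NormalModel y) (hn : Algebra.trdeg ℂ K = n)
    {T : Place ℂ K → ℚ} (hT : IsDivisor y T) {ν : ℕ}
    (hk : SY.IitakaGe y T ν) (F : IntermediateField ℂ K) {j : ℕ} (hj : j < ν) :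
    GrowthOver y T F j := by
  classical
  intro C
  rw [iitaka_iff] at hk
  obtain ⟨m0, hm0, g, hg, hg0, hind⟩ := hk
  obtain ⟨q, hq⟩ := exists_nat_gt (max 1 (C * ((ν * m0 : ℕ) : ℝ) ^ j))
  have hq1 : (1 : ℝ) < q := lt_of_le_of_lt (le_max_left _ _) hq
  have hq2 := lt_of_le_of_lt (le_max_right _ _) hq
  have hq1' : 1 < q := by exact_mod_cast hq1
  have hm : 1 ≤ ν * q * m0 := Nat.mul_pos (Nat.mul_pos (by omega) (by omega)) hm0
  refine ⟨K, inferInstance, inferInstance, inferInstance, inferInstance, inferInstance,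
    ν * q * m0, hm, ?_⟩
  have h1 := many_sectionsT hg hg0 hind q (finite_sections hy hn hT K _ hm).1
  have h3 : ((q : ℝ) + 1) ^ ν ≤ coverSections K y T (ν * q * m0) := by exact_mod_cast h1
  refine lt_of_lt_of_le ?_ h3
  have h5 : baseDegree K F = 1 := by
    have h6 := base_mul_fibre (L := K) F
    rw [finrank_self] at h6
    exact Nat.eq_one_of_mul_eq_one_right h6
  rw [h5, Nat.cast_one, one_mul]
  have h6 : ((ν * q * m0 : ℕ) : ℝ) ^ j = ((ν * m0 : ℕ) : ℝ) ^ j * (q : ℝ) ^ j := by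
    rw [← mul_pow]
    push_cast
    ring
  rw [h6, ← mul_assoc]
  have hqj : (0 : ℝ) < (q : ℝ) ^ j := by positivity
  calc C * ((ν * m0 : ℕ) : ℝ) ^ j * (q : ℝ) ^ j < q * (q : ℝ) ^ j :=
        mul_lt_mul_of_pos_right hq2 hqj
    _ = (q : ℝ) ^ (j + 1) := by ring
    _ ≤ ((q : ℝ) + 1) ^ (j + 1) := pow_le_pow_left₀ (by positivity) (by linarith) _
    _ ≤ ((q : ℝ) + 1) ^ ν := pow_le_pow_right₀ (by linarith) hj

end

end Run7.h612.SY
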