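import Pool.Agent.Run7.h612.SY.Cov

/-!
**The growth of the numbers of sections on a covering.**
-/

set_option autoImplicit false
set_option linter.overlappingInstances false
set_option linter.unusedSectionVars false

open FF Module Pool.Agent.W602.GT Pool.Agent.W603.LV Pool.Agent.W619.PQ
open Pool.Agent.Y172 Pool.Agent.Y191 Pool.Agent.R887
open Run7.h612.AB

namespace Run7.h612.SY

section

variable {K : Type} [Field K] [Algebra ℂ K] {P : Place ℂ K} {q r : ℚ} {a : K}

theorem geq_mono (h : r ≤ q) (ha : GeQ P q a) : GeQ P r a := by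
  rcases ha with h1 | h1
  · exact Or.inl h1
  · exact Or.inr (h.trans h1)

theorem geq_pow (ha : GeQ P q a) (j : ℕ) : GeQ P (j * q) (a ^ j) := by
  induction j with
  | zero =>
    right
    rw [pow_zero, P.ord_one]
    simp
  | succ j ih =>
    have h1 := ih.mul ha
    have h2 : (((j + 1 : ℕ) : ℚ) * q) = j * q + q := by
      push_cast
      ring
    rw [h2, pow_succ]
    exact h1

end

section

variable {K : Type} [Field K] [Algebra ℂ K] {N : ℕ} {y : Fin (N + 1) → K} {n : ℕ}
  {T : Place ℂ K → ℚ}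

theorem ksec_add {m : ℕ} {g g' : K} (hg : KSec y T m g) (hg' : KSec y T m g') :
    KSec y T m (g + g') := fun P hP => (hg P hP).add (hg' P hP)

/-- the field of the quotients of sections -/
theorem mem_ISet_of_adjoin {m0 : ℕ} (hm0 : 1 ≤ m0) {g0 : K} (hg0 : g0 ≠ 0)
    (hs : KSec y T m0 g0) {x : K} (hx : x ∈ IntermediateField.adjoin ℂ (ISet y T)) :
    x ∈ ISet y T := by
  induction hx using IntermediateField.adjoin_induction with
  | mem x hx => exact hx
  | algebraMap c =>
    refine ⟨m0, hm0, c • g0, g0, hg0, fun P hP => geq_smul c (hs P hP), hs, ?_⟩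
    rw [Algebra.smul_def, mul_div_cancel_right₀ _ hg0]
  | add x z _ _ hx hz =>
    obtain ⟨m, hm, g, g', hg', h1, h2, rfl⟩ := hx
    obtain ⟨m', hm', u, u', hu', h3, h4, rfl⟩ := hz
    refine ⟨m + m', by omega, g * u' + g' * u, g' * u', mul_ne_zero hg' hu',
      ksec_add (h1.mul h4) (h2.mul h3), h2.mul h4, ?_⟩
    rw [div_add_div _ _ hg' hu']
  | inv x _ hx =>
    obtain ⟨m, hm, g, g', hg', h1, h2, rfl⟩ := hx
    by_cases hg : g = 0
    · refine ⟨m, hm, 0, g', hg', fun P hP => Or.inl rfl, h2, ?_⟩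
      rw [hg, zero_div, inv_zero]
    · exact ⟨m, hm, g', g, hg, h2, h1, inv_div _ _⟩
  | mul x z _ _ hx hz =>
    obtain ⟨m, hm, g, g', hg', h1, h2, rfl⟩ := hx
    obtain ⟨m', hm', u, u', hu', h3, h4, rfl⟩ := hz
    exact ⟨m + m', by omega, g * u, g' * u', mul_ne_zero hg' hu', h1.mul h3, h2.mul h4,
      div_mul_div_comm _ _ _ _⟩

end

variable {K L : Type} [Field K] [Algebra ℂ K] [Field L] [Algebra ℂ L]
  [Algebra K L] [IsScalarTower ℂ K L] [FiniteDimensional K L] {N : ℕ} {y : Fin (N + 1) → K} {n : ℕ}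
  {T : Place ℂ K → ℚ}

/-- a multiple of an algebraic function is a section on the covering -/
theorem exists_mult {m0 : ℕ} (hm0 : 1 ≤ m0) {g0 : K} (hg0 : g0 ≠ 0) (hs : KSec y T m0 g0)
    {b : L} (hb : IsAlgebraic (IField y T) b) :
    ∃ (c : ℕ) (t : K), t ≠ 0 ∧ KSec y T c t ∧ LSec y T c (algebraMap K L t * b) := by
  classical
  obtain ⟨S, hS⟩ : ∃ S, S = IntermediateField.adjoin ℂ (ISet y T) := ⟨_, rfl⟩
  have hbS : IsAlgebraic S b := by
    rw [hS]
    have h1 : IsAlgebraic (algebraicClosure (IntermediateField.adjoin ℂ (ISet y T)) K) b := hb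
    exact h1.restrictScalars _
  obtain ⟨r, hr⟩ : ∃ r, r = (minpoly S b).natDegree := ⟨_, rfl⟩
  have hmon := minpoly.monic hbS.isIntegral
  have hco : ∀ i, ((minpoly S b).coeff i : K) ∈ ISet y T := by
    intro i
    have h1 := ((minpoly S b).coeff i).2
    have h2 : ∀ z ∈ S, z ∈ IntermediateField.adjoin ℂ (ISet y T) := by
      rw [hS]
      exact fun z hz => hz
    exact mem_ISet_of_adjoin hm0 hg0 hs (h2 _ h1)
  choose mi hmi u t ht hu hts hut using hco
  obtain ⟨c, hc⟩ : ∃ c, c = ∑ i ∈ Finset.range r, mi i := ⟨_, rfl⟩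
  obtain ⟨τ, hτ⟩ : ∃ τ, τ = ∏ i ∈ Finset.range r, t i := ⟨_, rfl⟩
  have hτ0 : τ ≠ 0 := by
    rw [hτ]
    exact Finset.prod_ne_zero_iff.2 fun i _ => ht i
  have hτs : KSec y T c τ := by
    rw [hc, hτ]
    exact KSec.prod fun i _ => hts i
  have hτa : ∀ i ∈ Finset.range r, KSec y T c (τ * ((minpoly S b).coeff i : K)) := by
    intro i hi
    have h1 : τ * ((minpoly S b).coeff i : K) = u i * ∏ l ∈ (Finset.range r).erase i, t l := by
      rw [hut i, hτ, ← Finset.mul_prod_erase _ _ hi]
      field_simp [ht i]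
    rw [h1, hc, ← Finset.add_sum_erase _ _ hi]
    exact (hu i).mul (KSec.prod fun l _ => hts l)
  refine ⟨c, τ, hτ0, hτs, ?_⟩
  obtain ⟨x, hx⟩ : ∃ x, x = algebraMap K L τ * b := ⟨_, rfl⟩
  rw [← hx]
  -- the equation
  have heq : x ^ r = -∑ i ∈ Finset.range r, algebraMap K L (τ * ((minpoly S b).coeff i : K)) *
      algebraMap K L τ ^ (r - 1 - i) * x ^ i := by
    have h1 := minpoly.aeval S b
    rw [Polynomial.aeval_eq_sum_range, ← hr, Finset.sum_range_succ] at h1
    have h2 : (minpoly S b).coeff r = 1 := by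
      rw [hr]
      exact hmon
    rw [h2, one_smul] at h1
    have h3 : x ^ r = algebraMap K L τ ^ r * b ^ r := by rw [hx, mul_pow]
    rw [h3, eq_neg_iff_add_eq_zero, ← mul_zero (algebraMap K L τ ^ r), ← h1, mul_add, add_comm,
      Finset.mul_sum]
    congr 1
    refine Finset.sum_congr rfl fun i hi => ?_
    rw [Finset.mem_range] at hi
    rw [hx, mul_pow, map_mul]
    have h4 : (minpoly S b).coeff i • b ^ i =
        algebraMap K L ((minpoly S b).coeff i : K) * b ^ i := by
      rw [Algebra.smul_def]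
      rfl
    rw [h4]
    have h5 : algebraMap K L τ ^ r = algebraMap K L τ * (algebraMap K L τ ^ (r - 1 - i) *
        algebraMap K L τ ^ i) := by
      rw [← pow_add, ← pow_succ']
      congr 1
      omega
    rw [h5]
    ring
  intro Q P e hov hP
  by_contra hcon
  have hx0 : x ≠ 0 := fun h => hcon (Or.inl h)
  obtain ⟨ν, hν⟩ : ∃ ν : ℤ, ν = Q.ord x := ⟨_, rfl⟩
  have hlt : (ν : ℚ) < -(e * (c * T P)) := by
    by_contra h1
    push Not at h1
    rw [hν] at h1
    exact hcon (Or.inr h1)
  have hup : ∀ {g : K}, KSec y T c g → GeQ Q ((ν : ℚ) + 1) (algebraMap K L g) := by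
    intro g hg
    rcases LSec.up (L := L) hg Q P e hov hP with h | h
    · exact Or.inl h
    · right
      have h1 : (ν : ℚ) < Q.ord (algebraMap K L g) := lt_of_lt_of_le hlt h
      have h2 : ν < Q.ord (algebraMap K L g) := by exact_mod_cast h1
      exact_mod_cast h2
  have hxg : GeQ Q (ν : ℚ) x := Or.inr (by rw [hν])
  have hsum : GeQ Q ((r : ℚ) * ν + 1) (x ^ r) := by
    rw [heq]
    refine GeQ.neg (GeQ.sum fun i hi => ?_)
    have h1 := hup (hτa i hi)
    have h2 := geq_pow (geq_mono (show (ν : ℚ) ≤ ν + 1 by linarith) (hup hτs)) (r - 1 - i)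
    have h3 := geq_pow hxg i
    have h4 := (h1.mul h2).mul h3
    rw [Finset.mem_range] at hi
    refine geq_mono (le_of_eq ?_) h4
    have h5 : ((r - 1 - i : ℕ) : ℚ) = (r : ℚ) - 1 - i := by
      have h6 : ((r - 1 - i : ℕ) : ℤ) = (r : ℤ) - 1 - i := by omega
      have h7 : (((r - 1 - i : ℕ) : ℤ) : ℚ) = (((r : ℤ) - 1 - i : ℤ) : ℚ) := by rw [h6]
      push_cast at h7
      exact h7
    rw [h5]
    ring
  rcases hsum with h | h
  · exact pow_ne_zero r hx0 h
  · rw [Q.ord_pow, ← hν] at h
    push_cast at h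
    linarith

/-- the elements of the field of the base of the covering -/
theorem mem_alg_mul {E : IntermediateField ℂ K} {a b : L} (ha : IsAlgebraic E a)
    (hb : IsAlgebraic E b) : IsAlgebraic E (a * b) := ha.mul hb

/-- **A basis of the field of the base.** -/
theorem exists_basis (E : IntermediateField ℂ K) :
    ∃ b : Set L, b.Finite ∧ (∀ x ∈ b, IsAlgebraic E x) ∧ b.ncard = baseDegree L E ∧
      LinearIndependent K (Subtype.val : b → L) ∧
      ∀ x : L, IsAlgebraic E x → x ∈ Submodule.span K b := by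
  classical
  obtain ⟨Z, hZ⟩ : ∃ Z : Set L, Z = {z : L | IsAlgebraic E z} := ⟨_, rfl⟩
  obtain ⟨b, hbZ, hspan, hli⟩ := exists_linearIndependent K Z
  have hfin : b.Finite := hli.set_finite_of_isNoetherian
  have hclos : (Submonoid.closure Z : Set L) = Z := by
    have h1 : ∀ x ∈ Submonoid.closure Z, x ∈ Z := by
      intro x hx
      induction hx using Submonoid.closure_induction with
      | mem x hx => exact hx
      | one => rw [hZ]; exact isAlgebraic_one
      | mul x z _ _ hx hz =>
        rw [hZ] at hx hz ⊢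
        exact hx.mul hz
    exact Set.Subset.antisymm h1 Submonoid.subset_closure
  have hsub : Subalgebra.toSubmodule (IntermediateField.adjoin K Z).toSubalgebra =
      Submodule.span K Z := by
    rw [IntermediateField.adjoin_toSubalgebra, Algebra.adjoin_eq_span, hclos]
  refine ⟨b, hfin, fun x hx => ?_, ?_, hli, fun x hx => ?_⟩
  · have := hbZ hx
    rwa [hZ] at this
  · have h1 : finrank K (Submodule.span K b) = b.ncard := by
      have : Fintype b := hfin.fintype
      rw [finrank_span_set_eq_card hli, Set.ncard_eq_toFinset_card']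
    rw [← h1, hspan, ← hsub]
    unfold baseDegree
    rw [hZ]
    rfl
  · rw [hspan]
    refine Submodule.subset_span ?_
    rw [hZ]
    exact hx

end Run7.h612.SY
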