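import Pool.Agent.Run7.h612.SY.Base

/-!
**Prime divisors orthogonal to an isotropic divisor.**
-/

set_option autoImplicit false
set_option linter.overlappingInstances false
set_option linter.unusedSectionVars false

open FF Module Pool.Agent.W602.GT Pool.Agent.Y172 Pool.Agent.R887 Pool.Agent.N110
  Pool.Agent.Run7.h701
open Run7.h612.AB (GeQ KSec ISet IField KGe)

namespace Run7.h612.SY

section

variable {W : Type} [AddCommGroup W] [Module ℚ W] [FiniteDimensional ℚ W]

/-- **Obtuse vectors.** In a negative definite space of dimension at most `d` there are at most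
`2 d` nonzero vectors with nonnegative pairwise products. -/
theorem obtuse (b : LinearMap.BilinForm ℚ W) (hs : ∀ v w, b v w = b w v) :
    ∀ (d : ℕ) (V : Submodule ℚ W), finrank ℚ V ≤ d → (∀ v ∈ V, v ≠ 0 → b v v < 0) →
      ∀ S : Finset W, (∀ v ∈ S, v ∈ V ∧ v ≠ 0) → (∀ v ∈ S, ∀ w ∈ S, v ≠ w → 0 ≤ b v w) →
        S.card ≤ 2 * d := by
  classical
  intro d
  induction d with
  | zero =>
    intro V hV _ S hS _
    have h1 : V = ⊥ := Submodule.finrank_eq_zero.1 (Nat.le_zero.1 hV)
    rw [Nat.mul_zero, Nat.le_zero, Finset.card_eq_zero, Finset.eq_empty_iff_forall_notMem]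
    intro v hv
    obtain ⟨h2, h3⟩ := hS v hv
    rw [h1, Submodule.mem_bot] at h2
    exact h3 h2
  | succ d ih =>
    intro V hV hneg S hS hpos
    rcases S.eq_empty_or_nonempty with rfl | ⟨v, hv⟩
    · simp
    obtain ⟨hvV, hv0⟩ := hS v hv
    have hvv : b v v < 0 := hneg v hvV hv0
    obtain ⟨U, hU⟩ : ∃ U : Submodule ℚ W, U = V ⊓ LinearMap.ker (b v) := ⟨_, rfl⟩
    have hUmem : ∀ x, x ∈ U ↔ x ∈ V ∧ b v x = 0 := fun x => by
      rw [hU, Submodule.mem_inf, LinearMap.mem_ker]
    have hUV : U < V := by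
      refine lt_of_le_of_ne (fun x hx => ((hUmem x).1 hx).1) fun h => ?_
      have h1 : v ∈ U := by rw [h]; exact hvV
      exact hvv.ne ((hUmem v).1 h1).2
    have hUd : finrank ℚ U ≤ d := by
      have := Submodule.finrank_lt_finrank_of_lt hUV
      omega
    obtain ⟨π, hπ⟩ : ∃ π : W → W, ∀ x, π x = x - (b v x / b v v) • v := ⟨_, fun _ => rfl⟩
    have hπU : ∀ x ∈ V, π x ∈ U := by
      intro x hx
      rw [hUmem, hπ]
      refine ⟨V.sub_mem hx (V.smul_mem _ hvV), ?_⟩
      rw [map_sub, map_smul, smul_eq_mul, div_mul_cancel₀ _ hvv.ne, sub_self]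
    have hππ : ∀ x z, b (π x) (π z) = b x z - b v x * b v z / b v v := by
      intro x z
      rw [hπ, hπ]
      simp only [map_sub, map_smul, LinearMap.sub_apply, LinearMap.smul_apply, smul_eq_mul]
      rw [hs x v]
      field_simp [hvv.ne]
      ring
    have hππ0 : ∀ x ∈ S.erase v, ∀ z ∈ S.erase v, x ≠ z → 0 ≤ b (π x) (π z) := by
      intro x hx z hz hxz
      rw [hππ]
      have h1 := hpos x (Finset.mem_of_mem_erase hx) z (Finset.mem_of_mem_erase hz) hxz
      have h2 := hpos v hv x (Finset.mem_of_mem_erase hx) (Finset.ne_of_mem_erase hx).symm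
      have h3 := hpos v hv z (Finset.mem_of_mem_erase hz) (Finset.ne_of_mem_erase hz).symm
      have h4 : b v x * b v z / b v v ≤ 0 :=
        div_nonpos_of_nonneg_of_nonpos (mul_nonneg h2 h3) hvv.le
      linarith
    have hcard1 : ((S.erase v).filter fun x => π x = 0).card ≤ 1 := by
      rw [Finset.card_le_one]
      intro x hx z hz
      rw [Finset.mem_filter] at hx hz
      by_contra hxz
      have h1 : x = (b v x / b v v) • v := by
        have := hx.2
        rw [hπ, sub_eq_zero] at this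
        exact this
      have h2 : z = (b v z / b v v) • v := by
        have := hz.2
        rw [hπ, sub_eq_zero] at this
        exact this
      have hx1 := Finset.mem_of_mem_erase hx.1
      have hz1 := Finset.mem_of_mem_erase hz.1
      have h3 := hpos v hv x hx1 (Finset.ne_of_mem_erase hx.1).symm
      have h4 := hpos v hv z hz1 (Finset.ne_of_mem_erase hz.1).symm
      have h5 : b v x / b v v < 0 := by
        refine lt_of_le_of_ne (div_nonpos_of_nonneg_of_nonpos h3 hvv.le) fun h => ?_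
        rw [h, zero_smul] at h1
        exact (hS x hx1).2 h1
      have h6 : b v z / b v v < 0 := by
        refine lt_of_le_of_ne (div_nonpos_of_nonneg_of_nonpos h4 hvv.le) fun h => ?_
        rw [h, zero_smul] at h2
        exact (hS z hz1).2 h2
      have h7 : b x z = (b v x / b v v) * (b v z / b v v) * b v v := by
        conv_lhs => rw [h1, h2]
        rw [map_smul, map_smul, LinearMap.smul_apply, smul_eq_mul, smul_eq_mul]
        ring
      have h8 := hpos x hx1 z hz1 hxz
      rw [h7] at h8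
      have h9 := mul_pos_of_neg_of_neg h5 h6
      nlinarith
    obtain ⟨S2, hS2⟩ : ∃ S2 : Finset W, S2 = (S.erase v).filter fun x => ¬ π x = 0 := ⟨_, rfl⟩
    have hmem2 : ∀ x ∈ S2, x ∈ S.erase v ∧ π x ≠ 0 := fun x hx => by
      rw [hS2, Finset.mem_filter] at hx
      exact hx
    have hinj : Set.InjOn π (S2 : Set W) := by
      intro x hx z hz h
      by_contra hxz
      have h1 := hππ0 x (hmem2 x hx).1 z (hmem2 z hz).1 hxz
      rw [← h] at h1
      have h2 := hneg (π x) ((hUmem _).1 (hπU x (hS x (Finset.mem_of_mem_erase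
        (hmem2 x hx).1)).1)).1 (hmem2 x hx).2
      linarith
    have h1 := ih U hUd (fun u hu hu0 => hneg u ((hUmem u).1 hu).1 hu0) (S2.image π)
      (fun u hu => by
        obtain ⟨x, hx, rfl⟩ := Finset.mem_image.1 hu
        exact ⟨hπU x (hS x (Finset.mem_of_mem_erase (hmem2 x hx).1)).1, (hmem2 x hx).2⟩)
      (fun u hu w hw huw => by
        obtain ⟨x, hx, rfl⟩ := Finset.mem_image.1 hu
        obtain ⟨z, hz, rfl⟩ := Finset.mem_image.1 hw
        exact hππ0 x (hmem2 x hx).1 z (hmem2 z hz).1 fun h => huw (by rw [h]))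
    rw [Finset.card_image_of_injOn hinj] at h1
    have h2 := Finset.card_filter_add_card_filter_not (s := S.erase v) (fun x => π x = 0)
    rw [← hS2, Finset.card_erase_of_mem hv] at h2
    have h3 : 0 < S.card := Finset.card_pos.2 ⟨v, hv⟩
    omega

end

variable {K : Type} [Field K] [Algebra ℂ K] {N ρ n : ℕ} {y : Fin (N + 1) → K}
  {c : Place ℂ K → Fin ρ → ℚ} {b : LinearMap.BilinForm ℚ (Fin ρ → ℚ)} {T : Place ℂ K → ℚ}
  {br : K → K → K}

/-- The prime divisors of `X` which are orthogonal to `L` and whose class is a multiple of the class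
of `L`. -/
def orthProp (y : Fin (N + 1) → K) (c : Place ℂ K → Fin ρ → ℚ)
    (b : LinearMap.BilinForm ℚ (Fin ρ → ℚ)) (L : Place ℂ K → ℚ) : Set (Place ℂ K) :=
  {P | P ∈ HK.orth y c b L ∧ ∃ t : ℚ, c P = t • cls y c L}

/-- The prime divisors of `X` which are orthogonal to `L` and whose class is not a multiple of the
class of `L`. -/
def orthNonProp (y : Fin (N + 1) → K) (c : Place ℂ K → Fin ρ → ℚ)
    (b : LinearMap.BilinForm ℚ (Fin ρ → ℚ)) (L : Place ℂ K → ℚ) : Set (Place ℂ K) :=
  {P | P ∈ HK.orth y c b L ∧ ¬ ∃ t : ℚ, c P = t • cls y c L}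

theorem card_nonProp (hb : HK.IsBBForm y c b) (hne : cls y c T ≠ 0)
    (hiso : b (cls y c T) (cls y c T) = 0) {S : Finset (Place ℂ K)}
    (hS : ∀ P ∈ S, P ∈ orthNonProp y c b T) : S.card + 4 ≤ 2 * ρ := by
  classical
  obtain ⟨l, hl⟩ : ∃ l, l = cls y c T := ⟨_, rfl⟩
  rw [← hl] at hne hiso
  obtain ⟨u, hu⟩ : ∃ u, b l u = 1 := by
    obtain ⟨P, -, hP⟩ := HK.exists_prime hb hne hiso
    exact ⟨(b l (c P))⁻¹ • c P, by rw [map_smul, smul_eq_mul, inv_mul_cancel₀ hP]⟩
  have hul : b u l = 1 := by rw [hb.symm]; exact hu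
  obtain ⟨φ, hφ⟩ : ∃ φ : (Fin ρ → ℚ) →ₗ[ℚ] ℚ × ℚ, φ = (b l).prod (b u) := ⟨_, rfl⟩
  have hφa : ∀ x, φ x = (b l x, b u x) := fun x => by rw [hφ]; rfl
  have hφs : Function.Surjective φ := by
    rintro ⟨s, t⟩
    refine ⟨s • u + (t - s * b u u) • l, ?_⟩
    rw [hφa, map_add, map_smul, map_smul, map_add, map_smul, map_smul, hu, hiso, hul]
    simp only [smul_eq_mul]
    ext
    · ring
    · ring
  have hrk : finrank ℚ (LinearMap.ker φ) + 2 = ρ := by
    have h1 := LinearMap.finrank_range_add_finrank_ker φ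
    rw [LinearMap.range_eq_top.2 hφs, finrank_top, Module.finrank_prod, Module.finrank_self,
      Module.finrank_fin_fun] at h1
    omega
  have hker : ∀ x, x ∈ LinearMap.ker φ ↔ b l x = 0 ∧ b u x = 0 := fun x => by
    rw [LinearMap.mem_ker, hφa, Prod.mk_eq_zero]
  have hneg : ∀ v ∈ LinearMap.ker φ, v ≠ 0 → b v v < 0 := by
    intro v hv hv0
    obtain ⟨h1, h2⟩ := (hker v).1 hv
    obtain ⟨h3, h4⟩ := HK.hodge hb hne hiso h1
    refine lt_of_le_of_ne h3 fun h5 => ?_
    obtain ⟨t, ht⟩ := h4 h5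
    rw [ht, map_smul, hul, smul_eq_mul, mul_one] at h2
    exact hv0 (by rw [ht, h2, zero_smul])
  obtain ⟨π, hπ⟩ : ∃ π : Place ℂ K → (Fin ρ → ℚ), ∀ P, π P = c P - b u (c P) • l :=
    ⟨_, fun _ => rfl⟩
  have hlP : ∀ P ∈ S, b l (c P) = 0 := fun P hP => by
    rw [hl]
    exact (hS P hP).1.2
  have hππ : ∀ P ∈ S, ∀ Q ∈ S, b (π P) (π Q) = b (c P) (c Q) := by
    intro P hP Q hQ
    rw [hπ, hπ]
    simp only [map_sub, map_smul, LinearMap.sub_apply, LinearMap.smul_apply, smul_eq_mul]
    rw [hb.symm (c P) l, hlP P hP, hlP Q hQ, hiso]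
    ring
  have hπk : ∀ P ∈ S, π P ∈ LinearMap.ker φ ∧ π P ≠ 0 := by
    intro P hP
    refine ⟨?_, fun h => ?_⟩
    · rw [hker, hπ, map_sub, map_sub, map_smul, map_smul, hlP P hP, hiso, hul]
      simp
    · apply (hS P hP).2
      refine ⟨b u (c P), ?_⟩
      rw [hπ, sub_eq_zero] at h
      rw [← hl]
      exact h
  have hpos : ∀ P ∈ S, ∀ Q ∈ S, P ≠ Q → 0 ≤ b (π P) (π Q) := fun P hP Q hQ h => by
    rw [hππ P hP Q hQ]
    exact hb.prime P Q (hS P hP).1.1 (hS Q hQ).1.1 h
  have hinj : Set.InjOn π (S : Set (Place ℂ K)) := by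
    intro P hP Q hQ h
    by_contra hPQ
    have h1 := hpos P hP Q hQ hPQ
    rw [← h] at h1
    have h2 := hneg _ (hπk P hP).1 (hπk P hP).2
    linarith
  have h1 := obtuse b hb.symm (finrank ℚ (LinearMap.ker φ)) (LinearMap.ker φ) (le_refl _) hneg
    (S.image π) (fun v hv => by
      obtain ⟨P, hP, rfl⟩ := Finset.mem_image.1 hv
      exact hπk P hP)
    (fun v hv w hw hvw => by
      obtain ⟨P, hP, rfl⟩ := Finset.mem_image.1 hv
      obtain ⟨Q, hQ, rfl⟩ := Finset.mem_image.1 hw
      exact hpos P hP Q hQ fun h => hvw (by rw [h]))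
  rw [Finset.card_image_of_injOn hinj] at h1
  omega

/-- **Almost all orthogonal prime divisors are proportional.** -/
theorem finite_nonProp (hb : HK.IsBBForm y c b) (hne : cls y c T ≠ 0)
    (hiso : b (cls y c T) (cls y c T) = 0) :
    (orthNonProp y c b T).Finite ∧ (orthNonProp y c b T).ncard + 4 ≤ 2 * ρ := by
  classical
  have hfin : (orthNonProp y c b T).Finite := by
    by_contra h
    obtain ⟨S, hS, hc⟩ := Set.Infinite.exists_subset_card_eq h (2 * ρ)
    have h1 := card_nonProp hb hne hiso fun P hP => hS hP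
    omega
  refine ⟨hfin, ?_⟩
  rw [Set.ncard_eq_toFinset_card _ hfin]
  exact card_nonProp hb hne hiso fun P hP => (Set.Finite.mem_toFinset hfin).1 hP

/-- two proportional prime divisors give a function -/
theorem kappa_of_two (hy : NormalModel y) (hb : HK.IsBBForm y c b) (hT : IsDivisor y T)
    (hmov : ∀ P, IsPrimeDivisor y P → 0 ≤ b (cls y c T) (c P))
    (hne : cls y c T ≠ 0) (hiso : b (cls y c T) (cls y c T) = 0) {P Q : Place ℂ K}
    (hP : P ∈ orthProp y c b T) (hQ : Q ∈ orthProp y c b T) (hPQ : P ≠ Q) :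
    SY.IitakaGe y T 1 := by
  classical
  obtain ⟨⟨hP1, hP2⟩, s, hs⟩ := hP
  obtain ⟨⟨hQ1, hQ2⟩, t, ht⟩ := hQ
  obtain ⟨D, hD⟩ : ∃ D : Place ℂ K → ℚ, ∀ R, D R = t * (if R = P then 1 else 0) -
    s * (if R = Q then 1 else 0) := ⟨_, fun _ => rfl⟩
  have hsub : {R | IsPrimeDivisor y R ∧ D R ≠ 0} ⊆ {P, Q} := by
    rintro R ⟨-, h⟩
    by_contra h1
    rw [Set.mem_insert_iff, Set.mem_singleton_iff, not_or] at h1
    apply h
    rw [hD, if_neg h1.1, if_neg h1.2]
    ring
  have hfin : {R | IsPrimeDivisor y R ∧ D R ≠ 0}.Finite := (Set.toFinite _).subset hsub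
  have hs0 : s ≠ 0 := by
    rintro rfl
    have h1 : Effective y (fun R => if R = P then (1 : ℚ) else 0) := by
      refine ⟨fun R _ => ?_, (Set.toFinite {P}).subset ?_⟩
      · show (0 : ℚ) ≤ if R = P then 1 else 0
        split_ifs
        · exact zero_le_one
        · exact le_refl _
      · rintro R ⟨-, h⟩
        by_contra h2
        exact h (if_neg h2)
    have h2 : cls y c (fun R => if R = P then (1 : ℚ) else 0) = c P := by
      rw [Pool.Agent.N110.NV.cls_finset (T := {P}) (fun R hR => by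
        rw [Finset.mem_singleton] at hR
        rw [hR]; exact hP1) (fun R _ hR => by
        rw [Finset.mem_singleton] at hR
        exact if_neg hR), Finset.sum_singleton, if_pos rfl, one_smul]
    have h3 := HK.eff_zero hy hb h1 (by rw [h2, hs, zero_smul]) hP1
    rw [if_pos rfl] at h3
    exact one_ne_zero h3
  have hcl : cls y c D = 0 := by
    rw [Pool.Agent.N110.NV.cls_finset (T := {P, Q}) (fun R hR => by
      rw [Finset.mem_insert, Finset.mem_singleton] at hR
      rcases hR with rfl | rfl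
      · exact hP1
      · exact hQ1) (fun R _ hR => by
      rw [Finset.mem_insert, Finset.mem_singleton, not_or] at hR
      rw [hD, if_neg hR.1, if_neg hR.2]
      ring), Finset.sum_pair hPQ, hD, hD, if_pos rfl, if_neg hPQ, if_neg hPQ.symm, if_pos rfl,
      hs, ht, smul_smul, smul_smul, ← add_smul]
    have h1 : (t * 1 - s * 0) * s + (t * 0 - s * 1) * t = 0 := by ring
    rw [h1, zero_smul]
  obtain ⟨m, hm, f, hf, hfD⟩ := hb.classes.torsion D hfin hcl
  have hm0 : (m : ℚ) ≠ 0 := by exact_mod_cast (by omega : m ≠ 0)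
  have hft : Transcendental ℂ f := by
    intro h
    have h1 := Q.ord_eq_zero_of_isAlgebraic hf h
    have h2 := hfD Q hQ1
    rw [h1, hD, if_neg hPQ.symm, if_pos rfl] at h2
    have h3 : (m : ℚ) * -s = 0 := by
      rw [Int.cast_zero] at h2
      linarith
    rcases mul_eq_zero.1 h3 with h4 | h4
    · exact hm0 h4
    · exact hs0 (neg_eq_zero.1 h4)
  rw [iitaka_iff_orth hy hb hT hmov hne hiso (le_refl 1)]
  refine ⟨fun _ => f, (algebraicIndependent_unique_type_iff).2 hft, fun _ => ?_⟩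
  refine HK.pair_eq_zero (HK.polar_eff hy hf).2 fun R hR hR0 => ?_
  have h1 : R ∈ ({P, Q} : Set (Place ℂ K)) := by
    refine hsub ⟨hR, fun h => hR0 ?_⟩
    have h2 := hfD R hR
    rw [h, mul_zero] at h2
    unfold HK.polar
    rw [h2]
    simp
  rcases h1 with rfl | h1
  · exact hP2
  · rw [Set.mem_singleton_iff] at h1
    rw [h1]
    exact hQ2

/-- a multiple of a proportional prime divisor is a member of `|m L|` -/
theorem member_of_prop (hy : NormalModel y) (hb : HK.IsBBForm y c b) (hT : IsDivisor y T)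
    (hmov : ∀ P, IsPrimeDivisor y P → 0 ≤ b (cls y c T) (c P))
    (hne : cls y c T ≠ 0) (hiso : b (cls y c T) (cls y c T) = 0) {P : Place ℂ K}
    (hP : P ∈ orthProp y c b T) : ∃ (m k : ℕ) (g : K), 1 ≤ m ∧ 1 ≤ k ∧ g ≠ 0 ∧
      (P.ord g : ℚ) = -(m * T P) + k ∧
      ∀ Q, IsPrimeDivisor y Q → Q ≠ P → (Q.ord g : ℚ) = -(m * T Q) := by
  classical
  obtain ⟨⟨hP1, hP2⟩, s, hs⟩ := hP
  have h1 : Effective y (fun R => if R = P then (1 : ℚ) else 0) := by
    refine ⟨fun R _ => ?_, (Set.toFinite {P}).subset ?_⟩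
    · show (0 : ℚ) ≤ if R = P then 1 else 0
      split_ifs
      · exact zero_le_one
      · exact le_refl _
    · rintro R ⟨-, h⟩
      by_contra h2
      exact h (if_neg h2)
  have h2 : cls y c (fun R => if R = P then (1 : ℚ) else 0) = s • cls y c T := by
    rw [Pool.Agent.N110.NV.cls_finset (T := {P}) (fun R hR => by
      rw [Finset.mem_singleton] at hR
      rw [hR]; exact hP1) (fun R _ hR => by
      rw [Finset.mem_singleton] at hR
      exact if_neg hR), Finset.sum_singleton, if_pos rfl, one_smul, hs]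
  obtain ⟨h3, h4⟩ := HK.eff_mult hy hb hne hiso hmov h1 h2
  have hs0 : 0 < s := by
    refine lt_of_le_of_ne h3 fun h => ?_
    have h5 := h4 h.symm P hP1
    rw [if_pos rfl] at h5
    exact one_ne_zero h5
  obtain ⟨M, hM, g, hg, hgE⟩ := HK.exists_sec hb hT h1 h2
  obtain ⟨p, hp⟩ : ∃ p : ℕ, s.num = p := ⟨s.num.toNat, by
    have := Rat.num_pos.2 hs0
    omega⟩
  have hp1 : 1 ≤ p := by
    have h5 := Rat.num_pos.2 hs0
    rw [hp] at h5
    exact_mod_cast h5
  refine ⟨M * p, M * s.den, g, Nat.mul_pos hM hp1, Nat.mul_pos hM s.den_pos, hg, ?_, ?_⟩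
  · rw [hgE P hP1, hp, if_pos rfl]
    push_cast
    ring
  · intro Q hQ hQP
    rw [hgE Q hQ, hp, if_neg hQP]
    push_cast
    ring

/-- **The Iitaka dimension and the proportional prime divisors.** -/
theorem kappa_iff_prop (hy : NormalModel y) (hb : HK.IsBBForm y c b) (hT : IsDivisor y T)
    (hmov : ∀ P, IsPrimeDivisor y P → 0 ≤ b (cls y c T) (c P))
    (hne : cls y c T ≠ 0) (hiso : b (cls y c T) (cls y c T) = 0) :
    (SY.IitakaGe y T 1 ↔ (orthProp y c b T).Infinite) ∧
    (SY.IitakaGe y T 1 ↔ (orthProp y c b T).Nontrivial) := by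
  have h1 : SY.IitakaGe y T 1 → (orthProp y c b T).Infinite := by
    intro h
    have h2 : (HK.orth y c b T).Infinite := HK.inf_of_iitaka hy hb hiso hmov hT h
    intro hfin
    apply h2
    refine (hfin.union (finite_nonProp hb hne hiso).1).subset fun P hP => ?_
    by_cases h3 : ∃ t : ℚ, c P = t • cls y c T
    · exact Or.inl ⟨hP, h3⟩
    · exact Or.inr ⟨hP, h3⟩
  have h2 : (orthProp y c b T).Nontrivial → SY.IitakaGe y T 1 := by
    rintro ⟨P, hP, Q, hQ, hPQ⟩
    exact kappa_of_two hy hb hT hmov hne hiso hP hQ hPQ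
  exact ⟨⟨h1, fun h => h2 h.nontrivial⟩, ⟨fun h => (h1 h).nontrivial, h2⟩⟩

/-- the intersections of proportional prime divisors with orthogonal ones -/
theorem coisotropic_prop (hb : IsSymplecticForm y n br c b) {P Q : Place ℂ K}
    (hP : P ∈ orthProp y c b T) (hQ : Q ∈ HK.orth y c b T) (hPQ : P ≠ Q) {R : Place ℂ K}
    (hPR : Through y P R) (hQR : Through y Q R) (hd : CentreDimGe y R (n - 2)) :
    CoisotropicCentre br y R := by
  obtain ⟨⟨hP1, -⟩, s, hs⟩ := hP
  refine hb.coisotropic P Q hP1 hQ.1 hPQ ?_ R hPR hQR hd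
  rw [hs, map_smul, LinearMap.smul_apply, hQ.2, smul_zero]

end Run7.h612.SY
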