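import Pool.Agent.Run7.h612.SY.Defs
import Pool.Agent.Run7.h612.AB.Kappa

/-!
The field of the Iitaka fibration is closed under the Poisson bracket.
-/

set_option autoImplicit false
set_option linter.overlappingInstances false
set_option linter.unusedSectionVars false

open FF Module Polynomial Pool.Agent.W602.GT Pool.Agent.Y172
open Run7.h612.AB (IsFibration baseDegree GeQ KSec ISet IField KGe acl mem_acl le_acl der_closure
  mem_IField adjoin_le_IField IField_closed)

namespace Run7.h612.SY

section

variable {M : Type} [Field M]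

/-- the derivative of an algebraic element, for a derivation into a larger field -/
theorem der_into [CharZero M] (D : Derivation ℤ M M) {S T : Subfield M} (hST : S ≤ T)
    (hS : ∀ x ∈ S, D x ∈ T) {a : M} (haT : a ∈ T) (ha : IsAlgebraic S a) : D a ∈ T := by
  classical
  have hint : IsIntegral S a := ha.isIntegral
  obtain ⟨P, hP⟩ : ∃ P : S[X], P = minpoly S a := ⟨_, rfl⟩
  have h0 : aeval a P = 0 := by rw [hP]; exact minpoly.aeval _ _
  have hd : aeval a (derivative P) ≠ 0 := by
    rw [hP]
    have : CharZero S := inferInstance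
    exact (minpoly.irreducible hint).separable.aeval_derivative_ne_zero (minpoly.aeval _ _)
  have hmem : ∀ Q : S[X], aeval a Q ∈ T := by
    intro Q
    rw [aeval_eq_sum_range]
    refine sum_mem fun i _ => ?_
    rw [Algebra.smul_def]
    exact mul_mem (hST (Q.coeff i).2) (pow_mem haT _)
  have key : ∀ Q : S[X], D (aeval a Q) - aeval a (derivative Q) * D a ∈ T := by
    intro Q
    induction Q using Polynomial.induction_on' with
    | add p q hp hq =>
      rw [map_add, map_add, map_add, map_add]
      have : D (aeval a p) + D (aeval a q) - (aeval a (derivative p) + aeval a (derivative q)) * D a =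
        (D (aeval a p) - aeval a (derivative p) * D a) +
          (D (aeval a q) - aeval a (derivative q) * D a) := by ring
      rw [this]
      exact add_mem hp hq
    | monomial n c =>
      rw [aeval_monomial, derivative_monomial, aeval_monomial, Derivation.leibniz,
        Derivation.leibniz_pow]
      have hc : (algebraMap S M) c = (c : M) := rfl
      have hc' : (algebraMap S M) (c * (n : S)) = (c : M) * n := by
        rw [map_mul, map_natCast]; rfl
      rw [hc, hc', smul_eq_mul, smul_eq_mul, smul_eq_mul, nsmul_eq_mul]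
      have : (c : M) * (n * (a ^ (n - 1) * D a)) + a ^ n * D (c : M) -
          (c : M) * n * a ^ (n - 1) * D a = a ^ n * D (c : M) := by ring
      rw [this]
      exact mul_mem (pow_mem haT _) (hS _ c.2)
  have h1 := key P
  rw [h0, map_zero, zero_sub] at h1
  have h2 := neg_mem h1
  rw [neg_neg] at h2
  have h3 : D a = (aeval a (derivative P) * D a) * (aeval a (derivative P))⁻¹ := by
    field_simp
  rw [h3]
  exact mul_mem h2 (inv_mem (hmem _))

end

variable {K : Type} [Field K] [Algebra ℂ K] {N : ℕ} {y : Fin (N + 1) → K} {n : ℕ}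
  {br : K → K → K}

/-- the Hamiltonian derivation -/
def IsPoisson.der (hbr : IsPoisson y br) (f : K) : Derivation ℂ K K :=
  Derivation.mk' { toFun := br f, map_add' := hbr.add f, map_smul' := fun c g => hbr.smul c f g }
    fun g h => by
      change br f (g * h) = g • br f h + h • br f g
      rw [hbr.leibniz, smul_eq_mul, smul_eq_mul]

theorem IsPoisson.der_apply (hbr : IsPoisson y br) (f g : K) : hbr.der f g = br f g := rfl

/-- the bracket of quotients -/
def jac (br : K → K → K) (A B C : K) : K := C * br A B + A * br B C + B * br C A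

theorem IsPoisson.div_div (hbr : IsPoisson y br) (A B : K) {C : K} (hC : C ≠ 0) :
    br (A / C) (B / C) * C ^ 3 = jac br A B C := by
  have h0 : ∀ f, br f f = 0 := by
    intro f
    have h1 := hbr.anti f f
    have hch : CharZero K := charZero_of_injective_algebraMap (algebraMap ℂ K).injective
    exact self_eq_neg.1 h1
  have h1 : ∀ f a, br f (a / C) = (C ^ 2)⁻¹ * (C * br f a - a * br f C) := by
    intro f a
    have h2 := (hbr.der f).leibniz_div a C
    simp only [hbr.der_apply, smul_eq_mul, inv_pow] at h2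
    exact h2
  rw [h1, hbr.anti B (A / C), hbr.anti C (A / C), h1, h1, h0 C]
  unfold jac
  rw [hbr.anti A B, hbr.anti A C]
  field_simp
  ring

theorem jac_scale (hbr : IsPoisson y br) (A B : K) {C p : K} (hC : C ≠ 0) (hp : p ≠ 0) :
    jac br (p * A) (p * B) (p * C) = p ^ 3 * jac br A B C := by
  rw [← hbr.div_div _ _ (mul_ne_zero hp hC), mul_div_mul_left _ _ hp, mul_div_mul_left _ _ hp,
    mul_pow, ← hbr.div_div A B hC]
  ring

theorem ksec_jac (hbr : IsPoisson y br) {T : Place ℂ K → ℚ} {m : ℕ} {A B C : K}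
    (hA : KSec y T m A) (hB : KSec y T m B) (hC : KSec y T m C) (hC0 : C ≠ 0) :
    KSec y T (3 * m) (jac br A B C) := by
  intro P hP
  obtain ⟨a, ha⟩ : ∃ a : ℤ, a = ⌈-((m : ℚ) * T P)⌉ := ⟨_, rfl⟩
  obtain ⟨s, hs0, hs⟩ := P.surj
  obtain ⟨p, hp⟩ : ∃ p : K, p = s ^ a := ⟨_, rfl⟩
  have hp0 : p ≠ 0 := by rw [hp]; exact zpow_ne_zero _ hs0
  have hpo : P.ord p = a := by
    rw [hp, P.ord_zpow, hs, mul_one]
  have hint : ∀ {z : K}, GeQ P (-(m * T P)) z → (z / p = 0 ∨ 0 ≤ P.ord (z / p)) := by
    intro z hz
    by_cases hz0 : z = 0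
    · left
      rw [hz0, zero_div]
    right
    have h1 := hz.resolve_left hz0
    rw [P.ord_div hz0 hp0, hpo]
    have h2 : a ≤ P.ord z := by
      rw [ha, Int.ceil_le]
      exact h1
    omega
  have hreg : ∀ {f g : K}, (f = 0 ∨ 0 ≤ P.ord f) → (g = 0 ∨ 0 ≤ P.ord g) →
      GeQ P 0 (br f g) := by
    intro f g hf hg
    rcases hbr.regular P hP f g hf hg with h | h
    · exact Or.inl h
    · right
      exact_mod_cast h
  have hG : ∀ {f : K}, (f = 0 ∨ 0 ≤ P.ord f) → GeQ P 0 f := by
    intro f hf
    rcases hf with h | h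
    · exact Or.inl h
    · right
      exact_mod_cast h
  have hA' := hint (hA P hP)
  have hB' := hint (hB P hP)
  have hC' := hint (hC P hP)
  have h1 : GeQ P 0 (jac br (A / p) (B / p) (C / p)) := by
    unfold jac
    have h2 := ((hG hC').mul (hreg hA' hB'))
    have h3 := ((hG hA').mul (hreg hB' hC'))
    have h4 := ((hG hB').mul (hreg hC' hA'))
    rw [add_zero] at h2 h3 h4
    exact (h2.add h3).add h4
  have h2 : jac br A B C = p ^ 3 * jac br (A / p) (B / p) (C / p) := by
    rw [← jac_scale hbr (A / p) (B / p) (div_ne_zero hC0 hp0) hp0, mul_div_cancel₀ _ hp0,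
      mul_div_cancel₀ _ hp0, mul_div_cancel₀ _ hp0]
  rw [h2]
  have h3 : GeQ P (3 * a) (p ^ 3) := by
    right
    rw [P.ord_pow, hpo]
    push_cast
    exact le_rfl
  have h4 := h3.mul h1
  rcases h4 with h | h
  · exact Or.inl h
  · right
    have h5 : (-((m : ℚ) * T P)) ≤ a := by
      rw [ha]
      exact Int.le_ceil _
    push_cast
    linarith

/-- the bracket of quotients of sections -/
theorem br_ISet (hbr : IsPoisson y br) {T : Place ℂ K → ℚ} {z w : K} (hz : z ∈ ISet y T)
    (hw : w ∈ ISet y T) : br z w ∈ ISet y T := by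
  obtain ⟨m, hm, s, t, ht, hs, ht', rfl⟩ := hz
  obtain ⟨m', hm', u, v, hv, hu, hv', rfl⟩ := hw
  have hC : t * v ≠ 0 := mul_ne_zero ht hv
  have hCs : KSec y T (m + m') (t * v) := ht'.mul hv'
  have hAs : KSec y T (m + m') (s * v) := hs.mul hv'
  have hBs : KSec y T (m + m') (t * u) := ht'.mul hu
  have hJ := ksec_jac hbr hAs hBs hCs hC
  have hC3 : KSec y T (3 * (m + m')) ((t * v) ^ 3) := by
    have h1 := (hCs.mul hCs).mul hCs
    have h2 : (t * v) ^ 3 = t * v * (t * v) * (t * v) := by ring
    rw [h2]
    have h3 : 3 * (m + m') = m + m' + (m + m') + (m + m') := by ring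
    rw [h3]
    exact h1
  refine ⟨3 * (m + m'), by omega, _, _, pow_ne_zero 3 hC, hJ, hC3, ?_⟩
  rw [← hbr.div_div _ _ hC, mul_div_mul_right _ _ hv, mul_div_mul_left _ _ ht]
  field_simp

/-- **The field of the Iitaka fibration is closed under the Poisson bracket.** -/
theorem br_IField (hbr : IsPoisson y br) {T : Place ℂ K → ℚ} {f g : K} (hf : f ∈ IField y T)
    (hg : g ∈ IField y T) : br f g ∈ IField y T := by
  have hch : CharZero K := charZero_of_injective_algebraMap (algebraMap ℂ K).injective
  obtain ⟨s, hs⟩ : ∃ s : Set K, s = Set.range (algebraMap ℂ K) ∪ ISet y T := ⟨_, rfl⟩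
  obtain ⟨S, hS⟩ : ∃ S : Subfield K, S = Subfield.closure s := ⟨_, rfl⟩
  have hSA : ∀ x, x ∈ IField y T ↔ IsAlgebraic S x := by
    intro x
    rw [mem_IField]
    have h1 : (IntermediateField.adjoin ℂ (ISet y T)).toSubfield = S := by
      rw [hS, hs]
      rfl
    rw [← h1]
    rfl
  obtain ⟨Dr, hDr⟩ : ∃ Dr : K → Derivation ℤ K K, ∀ f g, Dr f g = br f g :=
    ⟨fun f => (hbr.der f).restrictScalars ℤ, fun f g => rfl⟩
  have hanti : ∀ f g, Dr g f = -Dr f g := fun f g => by
    rw [hDr, hDr]
    exact hbr.anti f g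
  have hconst : ∀ f c, Dr f (algebraMap ℂ K c) = 0 := by
    intro f c
    rw [hDr, ← hbr.der_apply f]
    exact (hbr.der f).map_algebraMap c
  -- for quotients of sections
  have h1 : ∀ z ∈ ISet y T, ∀ x ∈ S, Dr z x ∈ S := by
    intro z hz x hx
    rw [hS] at hx ⊢
    refine der_closure (Dr z) s ?_ x hx
    rintro w hw
    rw [hs] at hw
    rcases hw with ⟨c, rfl⟩ | hw
    · rw [hconst]
      exact zero_mem _
    · refine Subfield.subset_closure ?_
      rw [hs]
      right
      rw [hDr]
      exact br_ISet hbr hz hw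
  -- for the field generated by them
  have h2 : ∀ w ∈ S, ∀ x ∈ S, Dr w x ∈ S := by
    intro w hw x hx
    have hw' := hw
    rw [hS] at hx ⊢
    refine der_closure (Dr w) s ?_ x hx
    rintro z hz
    rw [hs] at hz
    rcases hz with ⟨c, rfl⟩ | hz
    · rw [hconst]
      exact zero_mem _
    · rw [hanti z w, ← hS]
      exact neg_mem (h1 z hz w hw')
  have hle : S ≤ (IField y T).toSubfield := fun x hx => (hSA x).2
    (isAlgebraic_algebraMap (⟨x, hx⟩ : S))
  -- an element of the field generated, an element of the algebraic closure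
  have h3 : ∀ w ∈ S, ∀ x ∈ IField y T, Dr w x ∈ IField y T := by
    intro w hw x hx
    exact der_into (Dr w) (S := S) (T := (IField y T).toSubfield) hle
      (fun x hx => hle (h2 w hw x hx)) hx ((hSA x).1 hx)
  have h4 : ∀ w ∈ IField y T, ∀ x ∈ S, Dr w x ∈ IField y T := by
    intro w hw x hx
    rw [hanti x w]
    exact neg_mem (h3 x hx w hw)
  rw [← hDr]
  exact der_into (Dr f) (S := S) (T := (IField y T).toSubfield) hle (h4 f hf) hg ((hSA g).1 hg)

end Run7.h612.SY
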