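import Pool.Agent.Run7.h612.SY.Final
import Pool.Agent.Run7.h612.SP.One

/-!
**The rational map given by a multiple of a divisor, and its Iitaka fibration.**
-/

set_option autoImplicit false
set_option linter.overlappingInstances false
set_option linter.unusedSectionVars false

open FF Module Pool.Agent.W602.GT Pool.Agent.Y172 Pool.Agent.R887 Pool.Agent.N110
  Pool.Agent.Run7.h701
open Run7.h612.AB (GeQ KSec ISet IField KGe)

namespace Run7.h612.SY

/-- The function field of the image of the rational map given by the linear system `|m D|`: it is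
generated by the quotients of the sections of `m D`. -/
noncomputable def mapField {K : Type} [Field K] [Algebra ℂ K] {N : ℕ} (y : Fin (N + 1) → K)
    (D : Place ℂ K → ℚ) (m : ℕ) : IntermediateField ℂ K :=
  IntermediateField.adjoin ℂ {x | ∃ g g' : K, IsSectionOf y (m • D) g ∧
    IsSectionOf y (m • D) g' ∧ g ≠ 0 ∧ x = g' / g}

variable {K : Type} [Field K] [Algebra ℂ K] {N ρ n : ℕ} {y : Fin (N + 1) → K}
  {c : Place ℂ K → Fin ρ → ℚ} {b : LinearMap.BilinForm ℚ (Fin ρ → ℚ)} {T : Place ℂ K → ℚ}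
  {br : K → K → K}

/-- the order of an integral function -/
theorem geq_of_monic {P : Place ℂ K} {v : ℚ} {g : K} {d : ℕ} {a : ℕ → K}
    (ha : ∀ i < d, GeQ P ((d - i : ℕ) * v) (a i))
    (h : g ^ d + ∑ i ∈ Finset.range d, a i * g ^ i = 0) : GeQ P v g := by
  by_cases hg : g = 0
  · exact Or.inl hg
  by_contra hcon
  have hlt : (P.ord g : ℚ) < v := by
    by_contra h1
    exact hcon (Or.inr (not_lt.1 h1))
  have h1 : GeQ P (v + (d - 1) * P.ord g) (-∑ i ∈ Finset.range d, a i * g ^ i) := by
    refine GeQ.neg (GeQ.sum fun i hi => ?_)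
    have hi' := Finset.mem_range.1 hi
    have h2 : GeQ P ((d - i : ℕ) * v + i * P.ord g) (a i * g ^ i) := by
      refine (ha i hi').mul (Or.inr ?_)
      rw [P.ord_pow]
      push_cast
      exact le_refl _
    rcases h2 with h3 | h3
    · exact Or.inl h3
    · refine Or.inr (le_trans ?_ h3)
      have h4 : ((d - i : ℕ) : ℚ) = d - i := by
        rw [Nat.cast_sub hi'.le]
      have h5 : (1 : ℚ) ≤ d - i := by
        rw [← h4]
        have : 1 ≤ d - i := by omega
        exact_mod_cast this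
      rw [h4]
      nlinarith
  have h2 : g ^ d = -∑ i ∈ Finset.range d, a i * g ^ i := eq_neg_of_add_eq_zero_left h
  rw [← h2] at h1
  have h3 := h1.resolve_left (pow_ne_zero _ hg)
  rw [P.ord_pow] at h3
  push_cast at h3
  linarith

/-- a common denominator -/
theorem exists_denom {m0 : ℕ} (hm0 : 1 ≤ m0) {g0 : K} (hg0 : g0 ≠ 0) (hs : KSec y T m0 g0)
    (s : Finset K) (hsI : ∀ x ∈ s, x ∈ ISet y T) :
    ∃ (m : ℕ) (a : K), 1 ≤ m ∧ a ≠ 0 ∧ KSec y T m a ∧ ∀ x ∈ s, KSec y T m (a * x) := by
  classical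
  induction s using Finset.induction_on with
  | empty => exact ⟨m0, g0, hm0, hg0, hs, fun x hx => absurd hx (Finset.notMem_empty x)⟩
  | insert x s hx ih =>
    obtain ⟨m, a, hm, ha0, ha, hax⟩ := ih fun z hz => hsI z (Finset.mem_insert_of_mem hz)
    obtain ⟨m', hm', g, g', hg', h1, h2, hxe⟩ := hsI x (Finset.mem_insert_self _ _)
    refine ⟨m + m', a * g', by omega, mul_ne_zero ha0 hg', ha.mul h2, fun z hz => ?_⟩
    rcases Finset.mem_insert.1 hz with h3 | h3
    · rw [h3, hxe]
      have h4 : a * g' * (g / g') = a * g := by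
        field_simp
      rw [h4]
      exact ha.mul h1
    · have h4 : a * g' * z = a * z * g' := by ring
      rw [h4]
      exact (hax z h3).mul h2

theorem ksec_pow {m : ℕ} {a : K} (ha : KSec y T m a) (k : ℕ) : KSec y T (k * m) (a ^ k) := by
  induction k with
  | zero =>
    rw [zero_mul, pow_zero]
    exact KSec.one T
  | succ k ih =>
    rw [pow_succ, Nat.succ_mul]
    exact ih.mul ha

/-- **The field of the Iitaka fibration consists of quotients of sections.** -/
theorem mem_ISet_of_IField {m0 : ℕ} (hm0 : 1 ≤ m0) {g0 : K} (hg0 : g0 ≠ 0)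
    (hs : KSec y T m0 g0) {f : K} (hf : f ∈ IField y T) : f ∈ ISet y T := by
  classical
  rw [AB.mem_IField] at hf
  obtain ⟨S, hS⟩ : ∃ S, S = IntermediateField.adjoin ℂ (ISet y T) := ⟨_, rfl⟩
  have hS1 : ∀ x ∈ S, x ∈ ISet y T := fun x hx =>
    mem_ISet_of_adjoin hm0 hg0 hs (by rwa [hS] at hx)
  rw [← hS] at hf
  obtain ⟨d, hd⟩ : ∃ d, d = (minpoly S f).natDegree := ⟨_, rfl⟩
  have hmon : (minpoly S f).Monic := minpoly.monic hf.isIntegral
  have h1 := minpoly.aeval S f
  rw [Polynomial.aeval_eq_sum_range, ← hd, Finset.sum_range_succ] at h1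
  have h2 : (minpoly S f).coeff d = 1 := by
    rw [hd]
    exact hmon.coeff_natDegree
  rw [h2, one_smul] at h1
  obtain ⟨co, hco⟩ : ∃ co : ℕ → K, ∀ i, co i = ((minpoly S f).coeff i : K) := ⟨_, fun _ => rfl⟩
  have hcoS : ∀ i, co i ∈ S := fun i => by
    rw [hco]
    exact ((minpoly S f).coeff i).2
  have h3 : ∑ i ∈ Finset.range d, co i * f ^ i + f ^ d = 0 := by
    rw [← h1]
    congr 1
    refine Finset.sum_congr rfl fun i _ => ?_
    rw [hco, Algebra.smul_def]
    rfl
  obtain ⟨m, a, hm, ha0, ha, hax⟩ := exists_denom hm0 hg0 hs ((Finset.range d).image co)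
    (fun x hx => by
      obtain ⟨i, -, rfl⟩ := Finset.mem_image.1 hx
      exact hS1 _ (hcoS i))
  refine ⟨m, hm, a * f, a, ha0, fun P hP => ?_, ha, ?_⟩
  · refine geq_of_monic (d := d) (a := fun i => a * co i * a ^ (d - i - 1)) (fun i hi => ?_) ?_
    · have h4 := hax (co i) (Finset.mem_image_of_mem _ (Finset.mem_range.2 hi)) P hP
      have h5 := h4.mul (ksec_pow ha (d - i - 1) P hP)
      have h6 : -(m * T P) + -(((d - i - 1) * m : ℕ) * T P) = ((d - i : ℕ) : ℚ) * -(m * T P) := by
        have h7 : (((d - i - 1) * m : ℕ) : ℚ) = (((d - i : ℕ) : ℚ) - 1) * m := by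
          rw [Nat.cast_mul, Nat.cast_sub (show 1 ≤ d - i by omega), Nat.cast_one]
        rw [h7]
        ring
      rw [← h6]
      exact h5
    · have h4 : (a * f) ^ d + ∑ i ∈ Finset.range d, a * co i * a ^ (d - i - 1) * (a * f) ^ i =
          a ^ d * (∑ i ∈ Finset.range d, co i * f ^ i + f ^ d) := by
        rw [mul_add, Finset.mul_sum, mul_pow, add_comm]
        congr 1
        refine Finset.sum_congr rfl fun i hi => ?_
        have h5 : a ^ d = a * a ^ (d - i - 1) * a ^ i := by
          rw [← pow_succ', ← pow_add]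
          congr 1
          have := Finset.mem_range.1 hi
          omega
        rw [h5, mul_pow]
        ring
      rw [h4, h3, mul_zero]
  · field_simp

theorem mapField_le (T : Place ℂ K → ℚ) {m : ℕ} (hm : 1 ≤ m) : mapField y T m ≤ IField y T := by
  unfold mapField
  rw [IntermediateField.adjoin_le_iff]
  rintro x ⟨g, g', h1, h2, hg, rfl⟩
  exact AB.adjoin_le_IField _ (IntermediateField.subset_adjoin _ _
    ⟨m, hm, g', g, hg, sec_iff.1 h2, sec_iff.1 h1, rfl⟩)

theorem ess_model (hy : NormalModel y) : Algebra.EssFiniteType ℂ K := by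
  obtain ⟨j, hj⟩ := hy.ne
  rw [← IntermediateField.fg_top_iff, ← hy.field j hj]
  exact IntermediateField.fg_adjoin_of_finite (Set.finite_range _)

/-- **The Iitaka fibration is given by one linear system `|m D|`.** -/
theorem exists_mapField (hy : NormalModel y) (T : Place ℂ K → ℚ) :
    ∃ m : ℕ, 1 ≤ m ∧ mapField y T m = IField y T := by
  classical
  by_cases h0 : ∃ (m : ℕ) (g : K), 1 ≤ m ∧ g ≠ 0 ∧ KSec y T m g
  · obtain ⟨m0, g0, hm0, hg0, hs⟩ := h0
    have hess := ess_model hy
    have h1 : (IField y T).FG := by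
      rw [← IntermediateField.essFiniteType_iff]
      exact SP.ess_any _
    obtain ⟨s, hsF⟩ := h1
    have hsI : ∀ x ∈ s, x ∈ ISet y T := fun x hx => mem_ISet_of_IField hm0 hg0 hs (by
      rw [← hsF]
      exact IntermediateField.subset_adjoin _ _ hx)
    obtain ⟨m, a, hm, ha0, ha, hax⟩ := exists_denom hm0 hg0 hs s hsI
    refine ⟨m, hm, le_antisymm (mapField_le T hm) ?_⟩
    rw [← hsF, IntermediateField.adjoin_le_iff]
    intro x hx
    refine IntermediateField.subset_adjoin _ _ ⟨a, a * x, sec_iff.2 ha, sec_iff.2 (hax x hx),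
      ha0, ?_⟩
    field_simp
  · refine ⟨1, le_refl _, le_antisymm (mapField_le T (le_refl _)) ?_⟩
    have h1 : IField y T = ⊥ := (iitakaField T).bot (by
      rintro ⟨m, hm, g, hg, hg0, -⟩
      exact h0 ⟨m, g 0, hm, hg0, sec_iff.1 (hg 0)⟩)
    rw [h1]
    exact bot_le

end Run7.h612.SY
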