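import Pool.Agent.Run7.h612.SY.Rat

/-!
**Rational Lagrangian fibrations given by isotropic movable divisors.**
-/

set_option autoImplicit false
set_option linter.overlappingInstances false
set_option linter.unusedSectionVars false

open FF Module Pool.Agent.W602.GT Pool.Agent.Y172 Pool.Agent.R887 Pool.Agent.N110
  Pool.Agent.Run7.h701
open Run7.h612.AB (GeQ KSec ISet IField KGe)

namespace Run7.h612.SY

/-- The divisor `D` induces a rational Lagrangian fibration of the variety of dimension `n`: for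
some `m ≥ 1` the rational map given by `|m D|` has connected fibres, its image has dimension
`n / 2`, and the functions on its image commute under the Poisson bracket. -/
def InducesLagrangian {K : Type} [Field K] [Algebra ℂ K] {N : ℕ} (n : ℕ) (br : K → K → K)
    (y : Fin (N + 1) → K) (D : Place ℂ K → ℚ) : Prop :=
  ∃ m : ℕ, 1 ≤ m ∧ IsCoisotropicFibration br (mapField y D m) ∧
    ∃ r : ℕ, Algebra.trdeg ℂ (mapField y D m) = r ∧ 2 * r = n

variable {K : Type} [Field K] [Algebra ℂ K] {N ρ n : ℕ} {y : Fin (N + 1) → K}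
  {c : Place ℂ K → Fin ρ → ℚ} {b : LinearMap.BilinForm ℚ (Fin ρ → ℚ)} {T : Place ℂ K → ℚ}
  {br : K → K → K}

/-- independent elements of the field of the Iitaka fibration -/
theorem kge_of_field {r : ℕ} (hr : 1 ≤ r) {z : Fin r → K} (hz : ∀ i, z i ∈ IField y T)
    (hind : AlgebraicIndependent ℂ z) : SY.IitakaGe y T r := by
  rw [iitaka_iff]
  by_cases h0 : ∃ (m : ℕ) (g : K), 1 ≤ m ∧ g ≠ 0 ∧ KSec y T m g
  · obtain ⟨m0, g0, hm0, hg0, hs⟩ := h0
    exact AB.kge_of_indep hr (fun i => mem_ISet_of_IField hm0 hg0 hs (hz i)) hind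
  · exfalso
    have h1 : IField y T = ⊥ := (iitakaField T).bot (by
      rintro ⟨m, hm, g, hg, hg0, -⟩
      exact h0 ⟨m, g 0, hm, hg0, sec_iff.1 (hg 0)⟩)
    have h2 := hz ⟨0, hr⟩
    rw [h1, IntermediateField.mem_bot] at h2
    obtain ⟨a, ha⟩ := h2
    have h3 : Transcendental ℂ (z ⟨0, hr⟩) := hind.transcendental _
    apply h3
    rw [← ha]
    exact isAlgebraic_algebraMap a

/-- independent elements of an intermediate field -/
theorem exists_indep {E : IntermediateField ℂ K} {k : ℕ} (hk : Algebra.trdeg ℂ E = k) :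
    ∃ z : Fin k → K, (∀ i, z i ∈ E) ∧ AlgebraicIndependent ℂ z := by
  obtain ⟨s, hs⟩ := exists_isTranscendenceBasis ℂ E
  have h1 := hs.cardinalMk_eq_trdeg
  rw [hk] at h1
  have h2 : Nonempty (Fin k ≃ s) := by
    rw [← Cardinal.eq, h1, Cardinal.mk_fin]
  obtain ⟨e⟩ := h2
  have h3 : AlgebraicIndependent ℂ (fun i : Fin k => ((e i : E) : K)) :=
    (hs.1.comp e e.injective).map' (f := E.val) E.val.injective
  exact ⟨fun i => ((e i : E) : K), fun i => (e i : E).2, h3⟩

/-- **The field of an isotropic movable divisor is commutative.** -/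
theorem comm_movable (hy : NormalModel y) (hn : Algebra.trdeg ℂ K = n) (hbr : IsPoisson y br)
    (hb : IsSymplecticForm y n br c b) (hT : IsDivisor y T)
    (hmov : ∀ P, IsPrimeDivisor y P → 0 ≤ b (cls y c T) (c P))
    (hne : cls y c T ≠ 0) (hiso : b (cls y c T) (cls y c T) = 0) :
    ∀ f ∈ IField y T, ∀ g ∈ IField y T, br f g = 0 := fun f hf g hg =>
  comm_of_orth hy hn hbr hb hmov hne hiso
    ((mem_IField_iff hy hb.form hT hmov hne hiso f).1 hf)
    ((mem_IField_iff hy hb.form hT hmov hne hiso g).1 hg)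

/-- **The coisotropic fibration given by an isotropic movable divisor.** -/
theorem exists_fibration (hy : NormalModel y) (hn : Algebra.trdeg ℂ K = n) (hbr : IsPoisson y br)
    (hb : IsSymplecticForm y n br c b) (hT : IsDivisor y T)
    (hmov : ∀ P, IsPrimeDivisor y P → 0 ≤ b (cls y c T) (c P))
    (hne : cls y c T ≠ 0) (hiso : b (cls y c T) (cls y c T) = 0) :
    ∃ m : ℕ, 1 ≤ m ∧ IsCoisotropicFibration br (mapField y T m) ∧
      ∀ f : K, f ∈ mapField y T m ↔ b (cls y c T) (cls y c (HK.polar f)) = 0 := by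
  obtain ⟨m, hm, he⟩ := exists_mapField hy T
  refine ⟨m, hm, ?_⟩
  rw [he]
  exact ⟨⟨(iitakaField T).closed, comm_movable hy hn hbr hb hT hmov hne hiso⟩,
    mem_IField_iff hy hb.form hT hmov hne hiso⟩

theorem induces_iff (hy : NormalModel y) (hn : Algebra.trdeg ℂ K = n) (hbr : IsPoisson y br)
    (hnd : Nondegenerate n br) (hb : IsSymplecticForm y n br c b) (hT : IsDivisor y T)
    (hmov : ∀ P, IsPrimeDivisor y P → 0 ≤ b (cls y c T) (c P))
    (hne : cls y c T ≠ 0) (hiso : b (cls y c T) (cls y c T) = 0) {r : ℕ} (hr : 1 ≤ r)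
    (hnr : n = 2 * r) : InducesLagrangian n br y T ↔ SY.IitakaGe y T r := by
  have hcomm := comm_movable hy hn hbr hb hT hmov hne hiso
  constructor
  · rintro ⟨m, hm, -, r', hr', h2⟩
    have h3 : r' = r := by omega
    rw [h3] at hr'
    obtain ⟨z, hz, hind⟩ := exists_indep hr'
    exact kge_of_field hr (fun i => mapField_le T hm (hz i)) hind
  · intro h
    obtain ⟨m, hm, he⟩ := exists_mapField hy T
    refine ⟨m, hm, ?_, r, ?_, hnr.symm⟩
    · rw [he]
      exact ⟨(iitakaField T).closed, hcomm⟩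
    · rw [he]
      refine (iitakaField T).dim r h fun h2 => ?_
      have h3 := two_mul_iitaka hbr hnd hcomm h2
      omega

theorem iitaka_iff_orth (hy : NormalModel y) (hb : HK.IsBBForm y c b) (hT : IsDivisor y T)
    (hmov : ∀ P, IsPrimeDivisor y P → 0 ≤ b (cls y c T) (c P))
    (hne : cls y c T ≠ 0) (hiso : b (cls y c T) (cls y c T) = 0) {r : ℕ} (hr : 1 ≤ r) :
    SY.IitakaGe y T r ↔ ∃ f : Fin r → K, AlgebraicIndependent ℂ f ∧
      ∀ i, b (cls y c T) (cls y c (HK.polar (f i))) = 0 := by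
  constructor
  · intro h
    rw [iitaka_iff] at h
    obtain ⟨m, hm, g, hg, hg0, hind⟩ := h
    refine ⟨_, hind, fun i => (mem_IField_iff hy hb hT hmov hne hiso _).1 ?_⟩
    exact AB.adjoin_le_IField _ (IntermediateField.subset_adjoin _ _
      ⟨m, hm, g i.succ, g 0, hg0, hg _, hg _, rfl⟩)
  · rintro ⟨f, hind, hf⟩
    exact kge_of_field hr (fun i => (mem_IField_iff hy hb hT hmov hne hiso _).2 (hf i)) hind

end Run7.h612.SY
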